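import Pool.Agent.R511.WP.Defs

/-! Basic lemmas on families of involutions (Kempe chains, links, counting). -/

set_option autoImplicit false
set_option linter.unusedSectionVars false

namespace Pool.Agent.R511.WP

open Finset

section Pr

variable {V : Type}

theorem Pr.symm_left {u w x y : V} (h : Pr u w x y) : Pr w u x y := by
  unfold Pr at *; tauto

theorem Pr.symm_right {u w x y : V} (h : Pr u w x y) : Pr u w y x := by
  unfold Pr at *; tauto

theorem pr_comm_left {u w x y : V} : Pr u w x y ↔ Pr w u x y := by
  unfold Pr; tauto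

theorem pr_comm_right {u w x y : V} : Pr u w x y ↔ Pr u w y x := by
  unfold Pr; tauto

theorem pr_comm {u w x y : V} : Pr u w x y ↔ Pr x y u w := by
  unfold Pr
  constructor <;> rintro (⟨rfl, rfl⟩ | ⟨rfl, rfl⟩) <;> simp

theorem Pr.refl (x y : V) : Pr x y x y := Or.inl ⟨rfl, rfl⟩

end Pr

section orb

variable {V : Type}

theorem orb_comm {p q : V → V} {x v : V} : Orb p q x v ↔ Orb q p x v := by
  constructor
  · intro h
    induction h with
    | base => exact Orb.base
    | left _ ih => exact Orb.right ih
    | right _ ih => exact Orb.left ih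
  · intro h
    induction h with
    | base => exact Orb.base
    | left _ ih => exact Orb.right ih
    | right _ ih => exact Orb.left ih

theorem orb_trans {p q : V → V} {x y z : V} (h : Orb p q x y) (h' : Orb p q y z) :
    Orb p q x z := by
  induction h' with
  | base => exact h
  | left _ ih => exact Orb.left ih
  | right _ ih => exact Orb.right ih

theorem orb_symm {p q : V → V} (hp : ∀ v, p (p v) = v) (hq : ∀ v, q (q v) = v) {x y : V}
    (h : Orb p q x y) : Orb p q y x := by
  induction h with
  | base => exact Orb.base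
  | @left v _ ih =>
    have h1 : Orb p q (p v) v := by
      have h2 : Orb p q (p v) (p (p v)) := Orb.left Orb.base
      rwa [hp] at h2
    exact orb_trans h1 ih
  | @right v _ ih =>
    have h1 : Orb p q (q v) v := by
      have h2 : Orb p q (q v) (q (q v)) := Orb.right Orb.base
      rwa [hq] at h2
    exact orb_trans h1 ih

/-- Closed sets containing `x` contain the orbit. -/
theorem orb_subset {p q : V → V} {x : V} (S : V → Prop) (hx : S x) (hp : ∀ v, S v → S (p v))
    (hq : ∀ v, S v → S (q v)) {v : V} (h : Orb p q x v) : S v := by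
  induction h with
  | base => exact hx
  | left _ ih => exact hp _ ih
  | right _ ih => exact hq _ ih

theorem orb_left_iff {p q : V → V} (hp : ∀ v, p (p v) = v) {x v : V} :
    Orb p q x (p v) ↔ Orb p q x v := by
  constructor
  · intro h
    have := Orb.left (p := p) (q := q) h
    rwa [hp] at this
  · exact Orb.left

theorem orb_right_iff {p q : V → V} (hq : ∀ v, q (q v) = v) {x v : V} :
    Orb p q x (q v) ↔ Orb p q x v := by
  constructor
  · intro h
    have := Orb.right (p := p) (q := q) h
    rwa [hq] at this
  · exact Orb.right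

/-- If `p', q'` agree with `p, q` on the orbit, the orbit is contained in the new orbit. -/
theorem orb_congr {p q p' q' : V → V} {x : V}
    (h : ∀ v, Orb p q x v → p' v = p v ∧ q' v = q v) {v : V} (hv : Orb p q x v) :
    Orb p' q' x v := by
  induction hv with
  | base => exact Orb.base
  | @left v hv ih =>
    rw [← (h v hv).1]
    exact Orb.left ih
  | @right v hv ih =>
    rw [← (h v hv).2]
    exact Orb.right ih

/-- The orbits coincide if `p', q'` agree with `p, q` on the orbit. -/
theorem orb_congr_iff {p q p' q' : V → V} {x : V}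
    (h : ∀ v, Orb p q x v → p' v = p v ∧ q' v = q v) {v : V} :
    Orb p' q' x v ↔ Orb p q x v := by
  constructor
  · intro hv
    induction hv with
    | base => exact Orb.base
    | @left v _ ih =>
      rw [(h v ih).1]
      exact Orb.left ih
    | @right v _ ih =>
      rw [(h v ih).2]
      exact Orb.right ih
  · exact orb_congr h

theorem orb_three [Finite V] {p q : V → V} (hp : ∀ v, p (p v) = v) (hq : ∀ v, q (q v) = v)
    {x y z : V} (hxy : x ≠ y) (hxz : x ≠ z) (hyz : y ≠ z) (hx : p x = x ∨ q x = x)
    (hy : p y = y ∨ q y = y) (hz : p z = z ∨ q z = z) (h1 : Orb p q x y)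
    (h2 : Orb p q x z) : False := by
  classical
  -- we may assume that `p x = x`
  wlog hx' : p x = x generalizing p q
  · exact this (p := q) (q := p) hq hp hx.symm hy.symm hz.symm (orb_comm.mp h1)
      (orb_comm.mp h2) (hx.resolve_left hx')
  let g : Equiv.Perm V := ⟨fun v => p (q v), fun v => q (p v),
    fun v => by simp [hp, hq], fun v => by simp [hp, hq]⟩
  let gp : Equiv.Perm V := ⟨p, p, hp, hp⟩
  have hconj : gp * g * gp⁻¹ = g⁻¹ := by
    ext w
    show p (p (q (p w))) = q (p w)
    rw [hp]
  have key : ∀ k : ℤ, ∀ w, p ((g ^ k) w) = (g ^ (-k)) (p w) := by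
    intro k w
    have h1 : gp * g ^ k * gp⁻¹ = g ^ (-k) := by
      rw [← conj_zpow, hconj, inv_zpow, zpow_neg]
    have h2 : gp * g ^ k = g ^ (-k) * gp := by
      rw [← h1]; group
    have := congrArg (fun r : Equiv.Perm V => r w) h2
    exact this
  have keyq : ∀ k : ℤ, q ((g ^ k) x) = (g ^ (-(k + 1))) x := by
    intro k
    have h1 : (g ^ (k + 1)) x = p (q ((g ^ k) x)) := by
      rw [add_comm, zpow_add, zpow_one]; rfl
    have h2 := key (k + 1) x
    rw [hx', h1, hp] at h2
    exact h2
  have hS : ∀ v, Orb p q x v → ∃ k : ℤ, (g ^ k) x = v := by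
    intro v hv
    induction hv with
    | base => exact ⟨0, by simp⟩
    | @left v _ ih =>
      obtain ⟨k, rfl⟩ := ih
      exact ⟨-k, by rw [key, hx']⟩
    | @right v _ ih =>
      obtain ⟨k, rfl⟩ := ih
      exact ⟨-(k + 1), (keyq k).symm⟩
  set N : ℤ := ((MulAction.period g x : ℕ) : ℤ) with hN
  have per : ∀ k : ℤ, (g ^ k) x = x → N ∣ k := by
    intro k hk
    rw [hN, ← MulAction.zpow_smul_eq_iff_period_dvd]
    exact hk
  have eqv : ∀ k l : ℤ, N ∣ k - l → (g ^ k) x = (g ^ l) x := by
    intro k l hkl
    rw [hN, ← MulAction.zpow_smul_eq_iff_period_dvd] at hkl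
    have h3 : (g ^ (k - l)) x = x := hkl
    have h4 : (g ^ k) x = (g ^ l) ((g ^ (k - l)) x) := by
      have : (g ^ l) ((g ^ (k - l)) x) = (g ^ l * g ^ (k - l)) x := rfl
      rw [this, ← zpow_add]; congr 2; ring
    rw [h4, h3]
  -- an endpoint `g ^ k x` satisfies `2 k = N s - e` with `e ∈ {0, 1}`
  have endp : ∀ k : ℤ, (p ((g ^ k) x) = (g ^ k) x ∨ q ((g ^ k) x) = (g ^ k) x) →
      ∃ s e : ℤ, 2 * k + e = N * s ∧ (e = 0 ∨ e = 1) := by
    intro k hk
    rcases hk with hk | hk
    · rw [key, hx'] at hk
      have : (g ^ (2 * k)) x = x := by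
        have h3 : (g ^ (2 * k)) x = (g ^ k) ((g ^ k) x) := by
          rw [two_mul, zpow_add]; rfl
        rw [h3, ← hk]
        have h4 : (g ^ k) ((g ^ (-k)) x) = (g ^ k * g ^ (-k)) x := rfl
        rw [h4, ← zpow_add]; simp
      obtain ⟨s, hs⟩ := per _ this
      exact ⟨s, 0, by rw [add_zero, hs], Or.inl rfl⟩
    · rw [keyq] at hk
      have : (g ^ (2 * k + 1)) x = x := by
        have h3 : (g ^ (2 * k + 1)) x = (g ^ (k + 1)) ((g ^ k) x) := by
          have h5 : 2 * k + 1 = (k + 1) + k := by ring
          rw [h5, zpow_add]; rfl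
        rw [h3, ← hk]
        have h4 : (g ^ (k + 1)) ((g ^ (-(k + 1))) x) = (g ^ (k + 1) * g ^ (-(k + 1))) x := rfl
        rw [h4, ← zpow_add]; simp
      obtain ⟨s, hs⟩ := per _ this
      exact ⟨s, 1, hs, Or.inr rfl⟩
  obtain ⟨ky, rfl⟩ := hS y h1
  obtain ⟨kz, rfl⟩ := hS z h2
  obtain ⟨sy, ey, hy1, hy2⟩ := endp ky hy
  obtain ⟨sz, ez, hz1, hz2⟩ := endp kz hz
  -- three numbers `0, ky, kz` with data `(0,0), (sy,ey), (sz,ez)`
  have fin : ∀ k l s t e e' : ℤ, 2 * k + e = N * s → 2 * l + e' = N * t → e = e' →
      (s - t) % 2 = 0 → N ∣ k - l := by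
    intro k l s t e e' hs ht he hst
    obtain ⟨r, hr⟩ := Int.dvd_of_emod_eq_zero hst
    refine ⟨r, ?_⟩
    have : 2 * (k - l) = 2 * (N * r) := by
      have : 2 * (k - l) = N * (s - t) := by
        have h7 : N * (s - t) = N * s - N * t := mul_sub _ _ _
        rw [h7, ← hs, ← ht, he]; ring
      rw [this, hr]; ring
    linarith
  rcases Int.even_or_odd' N with ⟨m, hm | hm⟩
  · -- `N` even: all `e` vanish
    have hey : ey = 0 := by
      rcases hy2 with h | h
      · exact h
      · exfalso
        have : 2 * ky + 1 = 2 * (m * sy) := by rw [← h, hy1, hm]; ring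
        omega
    have hez : ez = 0 := by
      rcases hz2 with h | h
      · exact h
      · exfalso
        have : 2 * kz + 1 = 2 * (m * sz) := by rw [← h, hz1, hm]; ring
        omega
    have h3 : (sy - 0) % 2 = 0 ∨ (sz - 0) % 2 = 0 ∨ (sy - sz) % 2 = 0 := by omega
    rcases h3 with h3 | h3 | h3
    · have := eqv _ _ (fin ky 0 sy 0 ey 0 hy1 (by simp) hey h3)
      exact hxy (by simpa using this.symm)
    · have := eqv _ _ (fin kz 0 sz 0 ez 0 hz1 (by simp) hez h3)
      exact hxz (by simpa using this.symm)
    · exact hyz (eqv _ _ (fin ky kz sy sz ey ez hy1 hz1 (by rw [hey, hez]) h3))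
  · -- `N` odd: the parity of `s` is `e`
    have par : ∀ k s e : ℤ, 2 * k + e = N * s → (s - e) % 2 = 0 := by
      intro k s e h
      have h5 : e = s + 2 * (m * s - k) := by
        have : e = N * s - 2 * k := by linarith
        rw [this, hm]; ring
      have h6 : s - e = -(2 * (m * s - k)) := by linarith
      rw [h6]
      omega
    have py := par _ _ _ hy1
    have pz := par _ _ _ hz1
    rcases hy2 with hey | hey <;> rcases hz2 with hez | hez
    · exact hyz (eqv _ _ (fin ky kz sy sz ey ez hy1 hz1 (by rw [hey, hez]) (by omega)))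
    · have := eqv _ _ (fin ky 0 sy 0 ey 0 hy1 (by simp) hey (by omega))
      exact hxy (by simpa using this.symm)
    · have := eqv _ _ (fin kz 0 sz 0 ez 0 hz1 (by simp) hez (by omega))
      exact hxz (by simpa using this.symm)
    · exact hyz (eqv _ _ (fin ky kz sy sz ey ez hy1 hz1 (by rw [hey, hez]) (by omega)))

end orb

section swap

variable {V C : Type} [DecidableEq C]

/-- The hypotheses for a swap: `S` closed under both colours. -/
theorem closed_not {g : V → V} (hg : ∀ v, g (g v) = v) {S : V → Prop}
    (h : ∀ v, S v → S (g v)) {v : V} (hv : ¬ S v) : ¬ S (g v) := by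
  intro h1
  have := h _ h1
  rw [hg] at this
  exact hv this

theorem swapOn_mem {f : C → V → V} {a b : C} {S : V → Prop} [DecidablePred S] {c : C} {v : V}
    (hv : S v) : swapOn f a b S c v = if c = a then f b v else if c = b then f a v else f c v := by
  simp [swapOn, hv]

theorem swapOn_not_mem {f : C → V → V} {a b : C} {S : V → Prop} [DecidablePred S] {c : C}
    {v : V} (hv : ¬ S v) : swapOn f a b S c v = f c v := by
  simp [swapOn, hv]

theorem swapOn_other {f : C → V → V} {a b : C} {S : V → Prop} [DecidablePred S] {c : C}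
    (ha : c ≠ a) (hb : c ≠ b) : swapOn f a b S c = f c := by
  funext v
  simp [swapOn, ha, hb]

theorem swapOn_left {f : C → V → V} {a b : C} {S : V → Prop} [DecidablePred S]
    {v : V} (hv : S v) : swapOn f a b S a v = f b v := by
  simp [swapOn, hv]

theorem swapOn_right {f : C → V → V} {a b : C} {S : V → Prop} [DecidablePred S]
    {v : V} (hv : S v) : swapOn f a b S b v = f a v := by
  by_cases h : b = a
  · subst h; simp [swapOn, hv]
  · simp [swapOn, hv, h]

/-- `swapOn` through the transposition `Equiv.swap a b`. -/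
theorem swapOn_eq {f : C → V → V} {a b : C} {S : V → Prop} [DecidablePred S] {c : C} {v : V} :
    swapOn f a b S c v = if S v then f (Equiv.swap a b c) v else f c v := by
  by_cases hv : S v
  · rw [swapOn_mem hv, if_pos hv]
    by_cases h1 : c = a
    · subst h1; simp
    · by_cases h2 : c = b
      · subst h2; simp [h1]
      · rw [Equiv.swap_apply_of_ne_of_ne h1 h2]; simp [h1, h2]
  · rw [swapOn_not_mem hv, if_neg hv]

theorem inv_swapOn {f : C → V → V} (hf : Inv f) {a b : C} {S : V → Prop} [DecidablePred S]
    (ha : ∀ v, S v → S (f a v)) (hb : ∀ v, S v → S (f b v)) : Inv (swapOn f a b S) := by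
  intro c v
  by_cases hca : c = a
  · subst hca
    by_cases hv : S v
    · rw [swapOn_left hv, swapOn_left (hb v hv), hf]
    · rw [swapOn_not_mem hv, swapOn_not_mem (closed_not (hf c) ha hv), hf]
  · by_cases hcb : c = b
    · subst hcb
      by_cases hv : S v
      · rw [swapOn_right hv, swapOn_right (ha v hv), hf]
      · rw [swapOn_not_mem hv, swapOn_not_mem (closed_not (hf c) hb hv), hf]
    · rw [swapOn_other hca hcb, hf]

theorem cnt_swapOn [DecidableEq V] [Fintype C] {f : C → V → V} {a b : C} {S : V → Prop}
    [DecidablePred S] (u v : V) : cnt (swapOn f a b S) u v = cnt f u v := by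
  unfold cnt
  by_cases hu : S u
  · refine Finset.card_bij' (fun c _ => Equiv.swap a b c) (fun c _ => Equiv.swap a b c)
      ?_ ?_ ?_ ?_
    · intro c hc
      rw [mem_filter] at hc ⊢
      rw [swapOn_eq, if_pos hu] at hc
      exact ⟨mem_univ _, hc.2⟩
    · intro c hc
      rw [mem_filter] at hc ⊢
      rw [swapOn_eq, if_pos hu]
      exact ⟨mem_univ _, by simpa using hc.2⟩
    · intro c _; simp
    · intro c _; simp
  · congr 1
    apply Finset.filter_congr
    intro c _
    rw [swapOn_not_mem hu]

end swap

section count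

variable {V C : Type} [Fintype V] [DecidableEq V] [Fintype C] [DecidableEq C]

theorem cnt_self (f : C → V → V) (u : V) :
    cnt f u u = (univ.filter (fun c => f c u = u)).card := rfl

theorem sum_cnt (f : C → V → V) (u : V) : ∑ w, cnt f u w = Fintype.card C := by
  unfold cnt
  have h := Finset.card_eq_sum_card_fiberwise (s := (univ : Finset C)) (t := (univ : Finset V))
    (f := fun c => f c u) (by intro c _; simp)
  rw [Finset.card_univ] at h
  rw [h]

theorem miss_add_sum (f : C → V → V) (u : V) :
    (univ.filter (fun c => f c u = u)).card + ∑ w ∈ univ.erase u, cnt f u w =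
      Fintype.card C := by
  rw [← cnt_self, Finset.add_sum_erase univ (fun w => cnt f u w) (mem_univ u), sum_cnt]

omit [Fintype V] [DecidableEq C] in
theorem cnt_comm {f : C → V → V} (hf : Inv f) (u v : V) : cnt f u v = cnt f v u := by
  unfold cnt
  congr 1
  apply Finset.filter_congr
  intro c _
  constructor
  · intro h; rw [← h, hf]
  · intro h; rw [← h, hf]

omit [DecidableEq C] in
theorem tot_eq (f : C → V → V) : tot f = ∑ u, ∑ w ∈ univ.erase u, cnt f u w := by
  classical
  unfold tot
  have h1 : (univ.filter (fun p : C × V => f p.1 p.2 ≠ p.2)).card =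
      ∑ u : V, (univ.filter (fun c : C => f c u ≠ u)).card := by
    simp_rw [Finset.card_filter]
    rw [Fintype.sum_prod_type]
    rw [Finset.sum_comm]
  rw [h1]
  refine Finset.sum_congr rfl fun u _ => ?_
  have h2 := miss_add_sum f u
  have h3 : (univ.filter (fun c : C => f c u = u)).card +
      (univ.filter (fun c : C => ¬ (f c u = u))).card = Fintype.card C := by
    rw [Finset.card_filter_add_card_filter_not, Finset.card_univ]
  have h4 : (univ.filter (fun c : C => f c u ≠ u)).card =
    (univ.filter (fun c : C => ¬ (f c u = u))).card := rfl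
  omega

theorem tot_swapOn {f : C → V → V} {a b : C} {S : V → Prop} [DecidablePred S] :
    tot (swapOn f a b S) = tot f := by
  rw [tot_eq, tot_eq]
  simp_rw [cnt_swapOn]

omit [DecidableEq C] in
/-- `tot` from `cnt` relations. -/
theorem tot_of_cnt {f g : C → V → V} (h : ∀ u w, u ≠ w → cnt g u w = cnt f u w) :
    tot g = tot f := by
  rw [tot_eq, tot_eq]
  refine Finset.sum_congr rfl fun u _ => Finset.sum_congr rfl fun w hw => ?_
  exact h u w (Finset.ne_of_mem_erase hw).symm

theorem sum_pr (x y : V) (hxy : x ≠ y) :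
    ∑ u : V, ∑ w ∈ univ.erase u, (if Pr u w x y then 1 else 0) = 2 := by
  classical
  have h1 : ∀ u : V, ∑ w ∈ univ.erase u, (if Pr u w x y then 1 else 0) =
      (if u = x then 1 else 0) + (if u = y then 1 else 0) := by
    intro u
    by_cases hux : u = x
    · subst hux
      rw [if_pos rfl, if_neg hxy, add_zero]
      rw [Finset.sum_eq_single y]
      · simp [Pr]
      · intro w hw hwy
        rw [if_neg]
        rintro (⟨_, h⟩ | ⟨h, _⟩)
        · exact hwy h
        · exact hxy h
      · intro h
        exact absurd (mem_erase.mpr ⟨hxy.symm, mem_univ _⟩) h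
    · by_cases huy : u = y
      · subst huy
        rw [if_neg hux, if_pos rfl, zero_add]
        rw [Finset.sum_eq_single x]
        · simp [Pr]
        · intro w hw hwx
          rw [if_neg]
          rintro (⟨h, _⟩ | ⟨_, h⟩)
          · exact hux h
          · exact hwx h
        · intro h
          exact absurd (mem_erase.mpr ⟨hxy, mem_univ _⟩) h
      · rw [if_neg hux, if_neg huy]
        apply Finset.sum_eq_zero
        intro w _
        rw [if_neg]
        rintro (⟨h, _⟩ | ⟨h, _⟩)
        · exact hux h
        · exact huy h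
  simp_rw [h1]
  rw [Finset.sum_add_distrib]
  simp

/-- If `g` has one more edge than `f`, at `{x, y}`. -/
theorem tot_of_cnt_add {f g : C → V → V} {x y : V} (hxy : x ≠ y)
    (h : ∀ u w, u ≠ w → cnt g u w = cnt f u w + (if Pr u w x y then 1 else 0)) :
    tot g = tot f + 2 := by
  rw [tot_eq, tot_eq, ← sum_pr x y hxy, ← Finset.sum_add_distrib]
  refine Finset.sum_congr rfl fun u _ => ?_
  rw [← Finset.sum_add_distrib]
  refine Finset.sum_congr rfl fun w hw => ?_
  exact h u w (Finset.ne_of_mem_erase hw).symm

/-- If an edge has been moved from `{x', y'}` (in `f`) to `{x, y}` (in `g`). -/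
theorem tot_of_cnt_move {f g : C → V → V} {x y x' y' : V} (hxy : x ≠ y) (hxy' : x' ≠ y')
    (h : ∀ u w, u ≠ w → cnt g u w + (if Pr u w x' y' then 1 else 0) =
      cnt f u w + (if Pr u w x y then 1 else 0)) :
    tot g = tot f := by
  have h1 : tot g + 2 = tot f + 2 := by
    rw [tot_eq, tot_eq]
    nth_rw 1 [← sum_pr x' y' hxy']
    rw [← sum_pr x y hxy, ← Finset.sum_add_distrib, ← Finset.sum_add_distrib]
    refine Finset.sum_congr rfl fun u _ => ?_
    rw [← Finset.sum_add_distrib, ← Finset.sum_add_distrib]
    refine Finset.sum_congr rfl fun w hw => ?_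
    exact h u w (Finset.ne_of_mem_erase hw).symm
  omega

end count

section link

variable {V C : Type} [DecidableEq V] [DecidableEq C]

theorem link_other {f : C → V → V} {c d : C} {x y : V} (h : d ≠ c) :
    link f c x y d = f d := by
  funext v; simp [link, h]

theorem link_left {f : C → V → V} {c : C} {x y : V} : link f c x y c x = y := by
  simp [link]

theorem link_right {f : C → V → V} {c : C} {x y : V} : link f c x y c y = x := by
  by_cases h : y = x
  · simp [link, h]
  · simp [link, h]

theorem link_ne {f : C → V → V} {c : C} {x y v : V} (d : C) (h1 : v ≠ x) (h2 : v ≠ y) :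
    link f c x y d v = f d v := by
  by_cases h : d = c
  · subst h; simp [link, h1, h2]
  · simp [link, h]

theorem inv_link {f : C → V → V} (hf : Inv f) {c : C} {x y : V} (hx : f c x = x)
    (hy : f c y = y) : Inv (link f c x y) := by
  intro d v
  by_cases hd : d = c
  · subst hd
    by_cases h1 : v = x
    · subst h1; rw [link_left, link_right]
    · by_cases h2 : v = y
      · subst h2; rw [link_right, link_left]
      · rw [link_ne d h1 h2, link_ne, hf]
        · intro h; apply h1; rw [← hf d v, h, hx]
        · intro h; apply h2; rw [← hf d v, h, hy]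
  · rw [link_other hd, hf]

theorem unlink_other {f : C → V → V} {c d : C} {x y : V} (h : d ≠ c) :
    unlink f c x y d = f d := by
  funext v; simp [unlink, h]

theorem unlink_left {f : C → V → V} {c : C} {x y : V} : unlink f c x y c x = x := by
  simp [unlink]

theorem unlink_right {f : C → V → V} {c : C} {x y : V} : unlink f c x y c y = y := by
  by_cases h : y = x
  · simp [unlink, h]
  · simp [unlink, h]

theorem unlink_ne {f : C → V → V} {c : C} {x y v : V} (d : C) (h1 : v ≠ x) (h2 : v ≠ y) :
    unlink f c x y d v = f d v := by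
  by_cases h : d = c
  · subst h; simp [unlink, h1, h2]
  · simp [unlink, h]

theorem inv_unlink {f : C → V → V} (hf : Inv f) {c : C} {x y : V} (hx : f c x = y) :
    Inv (unlink f c x y) := by
  have hy : f c y = x := by rw [← hx, hf]
  intro d v
  by_cases hd : d = c
  · subst hd
    by_cases h1 : v = x
    · subst h1; rw [unlink_left, unlink_left]
    · by_cases h2 : v = y
      · subst h2; rw [unlink_right, unlink_right]
      · rw [unlink_ne d h1 h2, unlink_ne, hf]
        · intro h; apply h2; rw [← hf d v, h, hx]
        · intro h; apply h1; rw [← hf d v, h, hy]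
  · rw [unlink_other hd, hf]

theorem link_unlink {f : C → V → V} {c : C} {x y : V} (hf : Inv f) (hx : f c x = y) :
    link (unlink f c x y) c x y = f := by
  have hy : f c y = x := by rw [← hx, hf]
  funext d v
  by_cases hd : d = c
  · subst hd
    by_cases h1 : v = x
    · subst h1; rw [link_left, hx]
    · by_cases h2 : v = y
      · subst h2; rw [link_right, hy]
      · rw [link_ne d h1 h2, unlink_ne d h1 h2]
  · rw [link_other hd, unlink_other hd]

theorem cnt_link [Fintype C] {f : C → V → V} {c : C} {x y : V} (hxy : x ≠ y)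
    (hx : f c x = x) (hy : f c y = y) (u w : V) (huw : u ≠ w) :
    cnt (link f c x y) u w = cnt f u w + (if Pr u w x y then 1 else 0) := by
  unfold cnt
  by_cases hP : Pr u w x y
  · rw [if_pos hP]
    have h1 : univ.filter (fun d => link f c x y d u = w) =
        insert c (univ.filter (fun d => f d u = w)) := by
      ext d
      rw [mem_insert, mem_filter, mem_filter]
      by_cases hd : d = c
      · subst hd
        rcases hP with ⟨rfl, rfl⟩ | ⟨rfl, rfl⟩
        · simp [link_left]
        · simp [link_right]
      · rw [link_other hd]; simp [hd]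
    rw [h1, Finset.card_insert_of_notMem]
    rw [mem_filter]
    rintro ⟨_, h⟩
    rcases hP with ⟨rfl, rfl⟩ | ⟨rfl, rfl⟩
    · exact hxy (hx.symm.trans h)
    · exact hxy.symm (hy.symm.trans h)
  · rw [if_neg hP, add_zero]
    congr 1
    apply Finset.filter_congr
    intro d _
    by_cases hd : d = c
    · subst hd
      by_cases h1 : u = x
      · subst h1
        rw [link_left, hx]
        constructor
        · rintro rfl; exact absurd (Pr.refl _ _) hP
        · intro h; exact absurd h huw
      · by_cases h2 : u = y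
        · subst h2
          rw [link_right, hy]
          constructor
          · rintro rfl; exact absurd (Or.inr ⟨rfl, rfl⟩) hP
          · intro h; exact absurd h huw
        · rw [link_ne d h1 h2]
    · rw [link_other hd]

theorem cnt_unlink [Fintype C] {f : C → V → V} (hf : Inv f) {c : C} {x y : V} (hxy : x ≠ y)
    (hx : f c x = y) (u w : V) (huw : u ≠ w) :
    cnt (unlink f c x y) u w + (if Pr u w x y then 1 else 0) = cnt f u w := by
  have h := cnt_link (f := unlink f c x y) (c := c) hxy unlink_left unlink_right u w huw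
  rw [link_unlink hf hx] at h
  exact h.symm

theorem tot_link [Fintype V] [Fintype C] {f : C → V → V} {c : C} {x y : V} (hxy : x ≠ y)
    (hx : f c x = x) (hy : f c y = y) : tot (link f c x y) = tot f + 2 :=
  tot_of_cnt_add hxy (fun u w huw => cnt_link hxy hx hy u w huw)

theorem tot_unlink [Fintype V] [Fintype C] {f : C → V → V} (hf : Inv f) {c : C} {x y : V}
    (hxy : x ≠ y) (hx : f c x = y) : tot (unlink f c x y) + 2 = tot f := by
  have h := tot_link (f := unlink f c x y) (c := c) hxy unlink_left unlink_right
  rw [link_unlink hf hx] at h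
  exact h.symm

end link

section maxl

variable {V C : Type} [Fintype V] [DecidableEq V] [Fintype C] [DecidableEq C]
  {μ : V → V → ℕ} {f : C → V → V}

/-- A valid partial colouring with the same total is maximal as well. -/
theorem Maxl.of_tot (h : Maxl μ f) {g : C → V → V} (hg : Valid μ g) (ht : tot g = tot f) :
    Maxl μ g := ⟨hg, fun g' hg' => by rw [ht]; exact h.2 g' hg'⟩

omit [Fintype V] in
theorem Valid.swap (h : Valid μ f) {a b : C} {S : V → Prop} [DecidablePred S]
    (ha : ∀ v, S v → S (f a v)) (hb : ∀ v, S v → S (f b v)) : Valid μ (swapOn f a b S) :=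
  ⟨inv_swapOn h.1 ha hb, fun u v huv => by rw [cnt_swapOn]; exact h.2 u v huv⟩

theorem Maxl.swap (h : Maxl μ f) {a b : C} {S : V → Prop} [DecidablePred S]
    (ha : ∀ v, S v → S (f a v)) (hb : ∀ v, S v → S (f b v)) : Maxl μ (swapOn f a b S) :=
  h.of_tot (h.1.swap ha hb) tot_swapOn

theorem Maxl.not_both (hμ : ∀ u v, μ u v = μ v u) (h : Maxl μ f) {x y : V} (hxy : x ≠ y)
    (hlt : cnt f x y < μ x y) {c : C} (hx : f c x = x) : f c y ≠ y := by
  intro hy
  have hv : Valid μ (link f c x y) := by
    refine ⟨inv_link h.1.1 hx hy, fun u v huv => ?_⟩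
    rw [cnt_link hxy hx hy u v huv]
    by_cases hP : Pr u v x y
    · rw [if_pos hP]
      rcases hP with ⟨rfl, rfl⟩ | ⟨rfl, rfl⟩
      · exact hlt
      · rw [cnt_comm h.1.1, hμ]; exact hlt
    · rw [if_neg hP]; exact h.1.2 u v huv
  have h1 := h.2 _ hv
  rw [tot_link hxy hx hy] at h1
  omega

theorem Maxl.linked (hμ : ∀ u v, μ u v = μ v u) (h : Maxl μ f) {x y : V} (hxy : x ≠ y)
    (hlt : cnt f x y < μ x y) {a b : C} (hx : f a x = x) (hy : f b y = y) :
    Orb (f a) (f b) x y := by
  classical
  by_contra hno
  have hm : Maxl μ (swapOn f a b (fun v => Orb (f a) (f b) x v)) :=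
    h.swap (fun v hv => Orb.left hv) (fun v hv => Orb.right hv)
  refine hm.not_both hμ hxy (by rw [cnt_swapOn]; exact hlt) (c := b) ?_ ?_
  · rw [swapOn_right Orb.base, hx]
  · rw [swapOn_not_mem hno, hy]

end maxl

section near

variable {V C : Type} [Fintype V] [DecidableEq V] [Fintype C] [DecidableEq C]
  {μ : V → V → ℕ} {f : C → V → V} {x w : V}

omit [Fintype V] in
theorem Near.swap (h : Near μ x w f) {a b : C} {S : V → Prop} [DecidablePred S]
    (ha : ∀ v, S v → S (f a v)) (hb : ∀ v, S v → S (f b v)) : Near μ x w (swapOn f a b S) :=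
  ⟨inv_swapOn h.1 ha hb, fun u v huv => by rw [cnt_swapOn]; exact h.2 u v huv⟩

omit [Fintype V] in
theorem Near.not_both (hn : ¬ ∃ g : C → V → V, Col μ g) (hxw : x ≠ w) (h : Near μ x w f)
    {c : C} (hx : f c x = x) : f c w ≠ w := by
  intro hw
  apply hn
  refine ⟨link f c x w, inv_link h.1 hx hw, fun u v huv => ?_⟩
  rw [cnt_link hxw hx hw u v huv]
  exact h.2 u v huv

omit [Fintype V] in
/-- Recolour the edge `{z, t}` from `c` to `b`, where `b` is missing at both ends. -/
theorem Near.recolour (h : Near μ x w f) {z t : V} (hzt : z ≠ t) {c b : C} (hc : f c z = t)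
    (hbz : f b z = z) (hbt : f b t = t) : Near μ x w (link (unlink f c z t) b z t) := by
  have hcb : b ≠ c := by
    rintro rfl; exact hzt (hbz.symm.trans hc)
  have h1 : unlink f c z t b z = z := by rw [unlink_other hcb, hbz]
  have h2 : unlink f c z t b t = t := by rw [unlink_other hcb, hbt]
  refine ⟨inv_link (inv_unlink h.1 hc) h1 h2, fun u v huv => ?_⟩
  rw [cnt_link hzt h1 h2 u v huv, cnt_unlink h.1 hzt hc u v huv]
  exact h.2 u v huv

end near

end Pool.Agent.R511.WP
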