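import Pool.Agent.R511.WP.Defs

/-! Combination of the cases: `StmCoreA`, `StmCoreB` and `StmCore1` give `StmCore`. -/

set_option autoImplicit false

namespace Pool.Agent.R511.WP

open Finset

/-- the degree condition passes to induced subgraphs -/
theorem bound_sub {W : Type} [Fintype W] [DecidableEq W] (A : SimpleGraph W) [DecidableRel A.Adj]
    (r : W → W → Prop) [DecidableRel r] (Q : W → Prop) [DecidablePred Q] (k N : ℕ)
    (hdeg : ∀ x, A.degree x + k * (univ.filter (fun y => r x y)).card ≤ N)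
    [DecidableRel (A.comap (Subtype.val : {x // Q x} → W)).Adj]
    [DecidableRel (fun x y : {x // Q x} => r x.1 y.1)] (x : {x // Q x}) :
    (A.comap (Subtype.val : {x // Q x} → W)).degree x
      + k * (univ.filter (fun y : {x // Q x} => r x.1 y.1)).card ≤ N := by
  have h1 : (A.comap (Subtype.val : {x // Q x} → W)).degree x ≤ A.degree x.1 := by
    rw [← SimpleGraph.card_neighborFinset_eq_degree, ← SimpleGraph.card_neighborFinset_eq_degree]
    apply Finset.card_le_card_of_injOn (Subtype.val : {x // Q x} → W)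
    · intro y hy
      rw [Finset.mem_coe, SimpleGraph.mem_neighborFinset] at hy ⊢
      exact hy
    · intro a _ b _ hab
      exact Subtype.ext hab
  have h2 : (univ.filter (fun y : {x // Q x} => r x.1 y.1)).card
      ≤ (univ.filter (fun y => r x.1 y)).card := by
    apply Finset.card_le_card_of_injOn (Subtype.val : {x // Q x} → W)
    · intro y hy
      simp only [Finset.coe_filter, Finset.mem_univ, true_and, Set.mem_ofPred_eq] at hy ⊢
      exact hy
    · intro a _ b _ hab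
      exact Subtype.ext hab
  have h3 := Nat.mul_le_mul_left k h2
  have h4 := hdeg x.1
  omega

theorem stmCore (hA : StmCoreA) (hB : StmCoreB) (h1 : StmCore1) : StmCore := by
  intro V W _ _ _ _ G A _ r _ hr k N col hcol hk hdeg hinv
  by_cases hk1 : k = 1
  · subst hk1
    exact h1 V W G A r hr N col hcol (fun x => by simpa using hdeg x)
  have hk2 : 2 ≤ k := by omega
  classical
  set P : W → Prop := fun x => ∃ z, ¬ r x z ∧ A.Adj x z with hP
  have hPr : ∀ x y, r x y → (P x ↔ P y) := fun x y hxy =>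
    ⟨hinv x y hxy, hinv y x (hr.symm hxy)⟩
  have hPA' : ∀ x y, A.Adj x y → P x → P y := by
    intro x y hxy hx
    by_cases h : r x y
    · exact (hPr x y h).1 hx
    · exact ⟨x, fun h' => h (hr.symm h'), hxy.symm⟩
  have hPA : ∀ x y, A.Adj x y → (P x ↔ P y) := fun x y hxy =>
    ⟨hPA' x y hxy, hPA' y x hxy.symm⟩
  have hPW : ∀ p q : V × W, WAdj G A r p q → (P p.2 ↔ P q.2) := by
    intro p q h
    rcases h with h | h
    · exact hPA _ _ h.2
    · exact hPr _ _ h.2
  have hr' : ∀ Q : W → Prop, Equivalence (fun x y : {x // Q x} => r x.1 y.1) := fun Q =>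
    ⟨fun x => hr.refl _, fun h => hr.symm h, fun h h' => hr.trans h h'⟩
  obtain ⟨c₁, hs₁, hl₁, hp₁⟩ := hB V {x // P x} G (A.comap Subtype.val)
    (fun x y => r x.1 y.1) (hr' P) k N col hcol hk2 (fun x => bound_sub A r P k N hdeg x)
    (by
      rintro ⟨x, hx⟩
      obtain ⟨z, hz, hxz⟩ := hx
      exact ⟨⟨z, (hPA x z hxz).1 ⟨z, hz, hxz⟩⟩, hz, hxz⟩)
  obtain ⟨c₀, hs₀, hl₀, hp₀⟩ := hA V {x // ¬ P x} G (A.comap Subtype.val)
    (fun x y => r x.1 y.1) (hr' (fun x => ¬ P x)) k N col hcol hk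
    (fun x => bound_sub A r (fun x => ¬ P x) k N hdeg x)
    (by
      rintro ⟨x, hx⟩ ⟨z, hz⟩ hxz
      by_contra h
      exact hx ⟨z, h, hxz⟩)
  set c : V × W → V × W → ℕ := fun p q =>
    if h : P p.2 ∧ P q.2 then c₁ (p.1, ⟨p.2, h.1⟩) (q.1, ⟨q.2, h.2⟩)
    else if h : ¬ P p.2 ∧ ¬ P q.2 then c₀ (p.1, ⟨p.2, h.1⟩) (q.1, ⟨q.2, h.2⟩) else 0 with hc
  have hc1 : ∀ p q : V × W, ∀ (h : P p.2) (h' : P q.2),
      c p q = c₁ (p.1, ⟨p.2, h⟩) (q.1, ⟨q.2, h'⟩) := by
    intro p q h h'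
    simp only [hc]
    rw [dif_pos ⟨h, h'⟩]
  have hc0 : ∀ p q : V × W, ∀ (h : ¬ P p.2) (h' : ¬ P q.2),
      c p q = c₀ (p.1, ⟨p.2, h⟩) (q.1, ⟨q.2, h'⟩) := by
    intro p q h h'
    simp only [hc]
    rw [dif_neg (fun h'' => h h''.1), dif_pos ⟨h, h'⟩]
  have hw1 : ∀ p q : V × W, WAdj G A r p q → ∀ (h : P p.2) (h' : P q.2),
      WAdj G (A.comap (Subtype.val : {x // P x} → W)) (fun x y => r x.1 y.1)
        (p.1, ⟨p.2, h⟩) (q.1, ⟨q.2, h'⟩) := fun p q hpq h h' => hpq
  have hw0 : ∀ p q : V × W, WAdj G A r p q → ∀ (h : ¬ P p.2) (h' : ¬ P q.2),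
      WAdj G (A.comap (Subtype.val : {x // ¬ P x} → W)) (fun x y => r x.1 y.1)
        (p.1, ⟨p.2, h⟩) (q.1, ⟨q.2, h'⟩) := fun p q hpq h h' => hpq
  refine ⟨c, ?_, ?_, ?_⟩
  · intro p q
    by_cases h : P p.2 <;> by_cases h' : P q.2
    · rw [hc1 p q h h', hc1 q p h' h, hs₁]
    · simp only [hc]
      rw [dif_neg (fun h'' => h' h''.2), dif_neg (fun h'' => h''.1 h),
        dif_neg (fun h'' => h' h''.1), dif_neg (fun h'' => h''.2 h)]
    · simp only [hc]
      rw [dif_neg (fun h'' => h h''.1), dif_neg (fun h'' => h''.2 h'),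
        dif_neg (fun h'' => h h''.2), dif_neg (fun h'' => h''.1 h')]
    · rw [hc0 p q h h', hc0 q p h' h, hs₀]
  · intro p q hpq
    have hiff := hPW p q hpq
    by_cases h : P p.2
    · rw [hc1 p q h (hiff.1 h)]
      exact hl₁ _ _ (hw1 p q hpq _ _)
    · rw [hc0 p q h (fun h' => h (hiff.2 h'))]
      exact hl₀ _ _ (hw0 p q hpq _ _)
  · intro p q q' hpq hpq' hne
    have hiff := hPW p q hpq
    have hiff' := hPW p q' hpq'
    by_cases h : P p.2
    · rw [hc1 p q h (hiff.1 h), hc1 p q' h (hiff'.1 h)]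
      apply hp₁ _ _ _ (hw1 p q hpq _ _) (hw1 p q' hpq' _ _)
      intro h'
      apply hne
      rw [Prod.mk.injEq, Subtype.mk.injEq] at h'
      exact Prod.ext h'.1 h'.2
    · rw [hc0 p q h (fun h' => h (hiff.2 h')), hc0 p q' h (fun h' => h (hiff'.2 h'))]
      apply hp₀ _ _ _ (hw0 p q hpq _ _) (hw0 p q' hpq' _ _)
      intro h'
      apply hne
      rw [Prod.mk.injEq, Subtype.mk.injEq] at h'
      exact Prod.ext h'.1 h'.2

end Pool.Agent.R511.WP
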