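import Pool.Agent.R511.WP.Defs

/-! Assembly of the edge colouring of the wreath product from `StmA`: the case `k = 1` and the
classes without outgoing edges. -/

set_option autoImplicit false

namespace Pool.Agent.R511.WP

open Finset

/-- In a graph in which every vertex has at most one neighbour the ends of the edges can be
separated by a Boolean function. -/
theorem coreA_eps {V : Type} [Fintype V] (G : SimpleGraph V)
    (hG : ∀ a b b', G.Adj a b → G.Adj a b' → b = b') :
    ∃ eps : V → Bool, ∀ a b, G.Adj a b → eps b = !eps a := by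
  classical
  let e := Fintype.equivFin V
  refine ⟨fun a => decide (∃ b, G.Adj a b ∧ e a < e b), ?_⟩
  intro a b hab
  have hne : e a ≠ e b := fun h => hab.ne (e.injective h)
  have h1 : (∃ b', G.Adj a b' ∧ e a < e b') ↔ e a < e b := by
    constructor
    · rintro ⟨b', hb', hlt⟩
      rwa [hG a b b' hab hb']
    · intro h
      exact ⟨b, hab, h⟩
  have h2 : (∃ a', G.Adj b a' ∧ e b < e a') ↔ e b < e a := by
    constructor
    · rintro ⟨b', hb', hlt⟩
      rwa [hG b a b' hab.symm hb']
    · intro h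
      exact ⟨a, hab.symm, h⟩
  simp only [h1, h2]
  rcases lt_or_gt_of_ne hne with h | h
  · simp [h, not_lt.mpr h.le]
  · simp [h, not_lt.mpr h.le]

/-- The layer `0`: the product with a matching. -/
theorem coreA_layer (hA : StmA) {V W : Type} [Fintype V] [Fintype W] [DecidableEq W]
    (G : SimpleGraph V) (hG : ∀ a b b', G.Adj a b → G.Adj a b' → b = b')
    (A B : SimpleGraph W) [DecidableRel A.Adj] [DecidableRel B.Adj] (N : ℕ)
    (hN : ∀ v, A.degree v + B.degree v + 1 ≤ N) :
    ∃ c : V × W → V × W → ℕ, (∀ p q, c p q = c q p) ∧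
      (∀ p q, ((p.1 = q.1 ∧ A.Adj p.2 q.2) ∨ (G.Adj p.1 q.1 ∧ (p.2 = q.2 ∨ B.Adj p.2 q.2))) →
        c p q < N) ∧
      ∀ p q q', ((p.1 = q.1 ∧ A.Adj p.2 q.2) ∨
          (G.Adj p.1 q.1 ∧ (p.2 = q.2 ∨ B.Adj p.2 q.2))) →
        ((p.1 = q'.1 ∧ A.Adj p.2 q'.2) ∨ (G.Adj p.1 q'.1 ∧ (p.2 = q'.2 ∨ B.Adj p.2 q'.2))) →
        q ≠ q' → c p q ≠ c p q' := by
  classical
  obtain ⟨eps, heps⟩ := coreA_eps G hG
  obtain ⟨F, hinv, hcA, hcB, hcR⟩ := hA W A B N hN
  have hset : ∀ p q : V × W, ((p.1 = q.1 ∧ A.Adj p.2 q.2) ∨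
      (G.Adj p.1 q.1 ∧ (p.2 = q.2 ∨ B.Adj p.2 q.2))) →
      ∃ c : Fin N, F c (p.2, eps p.1) = (q.2, eps q.1) := by
    rintro ⟨a, x⟩ ⟨b, y⟩ h
    rcases h with ⟨h1, h2⟩ | ⟨h1, h2⟩
    · simp only at h1 h2 ⊢
      subst h1
      exact hcA x y (eps a) h2
    · simp only at h1 h2 ⊢
      rw [heps a b h1]
      rcases h2 with h2 | h2
      · subst h2
        exact hcR x (eps a)
      · exact hcB x y (eps a) h2
  let c : V × W → V × W → ℕ := fun p q =>
    sInf {n : ℕ | ∃ c : Fin N, c.val = n ∧ F c (p.2, eps p.1) = (q.2, eps q.1)}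
  have hc : ∀ p q : V × W, ((p.1 = q.1 ∧ A.Adj p.2 q.2) ∨
      (G.Adj p.1 q.1 ∧ (p.2 = q.2 ∨ B.Adj p.2 q.2))) →
      ∃ d : Fin N, d.val = c p q ∧ F d (p.2, eps p.1) = (q.2, eps q.1) := by
    intro p q h
    obtain ⟨d, hd⟩ := hset p q h
    have hne : {n : ℕ | ∃ c : Fin N, c.val = n ∧
        F c (p.2, eps p.1) = (q.2, eps q.1)}.Nonempty := ⟨d.val, d, rfl, hd⟩
    exact Nat.sInf_mem hne
  refine ⟨c, ?_, ?_, ?_⟩
  · intro p q
    show sInf _ = sInf _
    congr 1
    ext n
    simp only [Set.mem_ofPred_eq]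
    constructor
    · rintro ⟨d, hd, h⟩
      exact ⟨d, hd, by rw [← h, hinv]⟩
    · rintro ⟨d, hd, h⟩
      exact ⟨d, hd, by rw [← h, hinv]⟩
  · intro p q h
    obtain ⟨d, hd, -⟩ := hc p q h
    rw [← hd]
    exact d.isLt
  · intro p q q' h h' hne heq
    obtain ⟨d, hd, h1⟩ := hc p q h
    obtain ⟨d', hd', h1'⟩ := hc p q' h'
    have hdd : d = d' := Fin.ext (by rw [hd, hd', heq])
    subst hdd
    rw [h1] at h1'
    have e1 : q.2 = q'.2 := congrArg Prod.fst h1'
    have e2 : eps q.1 = eps q'.1 := congrArg Prod.snd h1'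
    apply hne
    refine Prod.ext ?_ e1
    rcases h with ⟨h2, -⟩ | ⟨h2, -⟩
    · rcases h' with ⟨h3, -⟩ | ⟨h3, -⟩
      · rw [← h2, ← h3]
      · exfalso
        have := heps _ _ h3
        rw [← e2, ← h2] at this
        cases hh : eps p.1 <;> rw [hh] at this <;> exact absurd this (by decide)
    · rcases h' with ⟨h3, -⟩ | ⟨h3, -⟩
      · exfalso
        have := heps _ _ h2
        rw [e2, ← h3] at this
        cases hh : eps p.1 <;> rw [hh] at this <;> exact absurd this (by decide)
      · exact hG _ _ _ h2 h3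

/-- Assembly, `k = 1`. -/
theorem stmCore1 (hA : StmA) : StmCore1 := by
  intro V W _ _ _ _ G A _ r _ hr N col hcol hN
  classical
  have hG : ∀ a b b', G.Adj a b → G.Adj a b' → b = b' := by
    intro a b b' h h'
    by_contra hne
    have h1 := hcol.2.1 a b h
    have h2 := hcol.2.1 a b' h'
    have h3 := hcol.2.2 a b b' h h' hne
    omega
  let B : SimpleGraph W :=
    { Adj := fun x y => x ≠ y ∧ r x y
      symm := ⟨fun x y h => ⟨h.1.symm, hr.symm h.2⟩⟩
      loopless := ⟨fun x h => h.1 rfl⟩ }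
  have hB : ∀ x, B.degree x + 1 = (univ.filter (fun y => r x y)).card := by
    intro x
    have h1 : univ.filter (fun y => r x y) = insert x (B.neighborFinset x) := by
      ext y
      simp only [mem_filter, mem_univ, true_and, mem_insert, SimpleGraph.mem_neighborFinset]
      constructor
      · intro h
        by_cases hxy : y = x
        · exact Or.inl hxy
        · exact Or.inr ⟨fun e => hxy e.symm, h⟩
      · rintro (h | h)
        · rw [h]; exact hr.refl x
        · exact h.2
    rw [h1, card_insert_of_notMem (by simp), SimpleGraph.card_neighborFinset_eq_degree]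
  obtain ⟨c, hc1, hc2, hc3⟩ := coreA_layer hA G hG A B N (by
    intro v
    have := hB v
    have := hN v
    omega)
  have hadj : ∀ p q : V × W, WAdj G A r p q → ((p.1 = q.1 ∧ A.Adj p.2 q.2) ∨
      (G.Adj p.1 q.1 ∧ (p.2 = q.2 ∨ B.Adj p.2 q.2))) := by
    intro p q h
    rcases h with h | ⟨h1, h2⟩
    · exact Or.inl h
    · refine Or.inr ⟨h1, ?_⟩
      by_cases e : p.2 = q.2
      · exact Or.inl e
      · exact Or.inr ⟨e, h2⟩
  exact ⟨c, hc1, fun p q h => hc2 p q (hadj p q h),
    fun p q q' h h' hne => hc3 p q q' (hadj p q h) (hadj p q' h') hne⟩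

/-- Assembly inside one class. -/
theorem coreA_class (hA : StmA) {V W : Type} [Fintype V] [Fintype W]
    [DecidableEq W] (G : SimpleGraph V) (A : SimpleGraph W) [DecidableRel A.Adj]
    (r : W → W → Prop) [DecidableRel r] (hr : Equivalence r) (k N : ℕ) (col : V → V → ℕ)
    (hcol : GCol G k col) (hk : 1 ≤ k)
    (hN : ∀ x, A.degree x + k * (univ.filter (fun y => r x y)).card ≤ N) (x0 : W) :
    ∃ c : V × W → V × W → ℕ, (∀ p q, c p q = c q p) ∧
      (∀ p q, r x0 p.2 → r x0 q.2 → WAdj G A r p q → c p q < N) ∧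
      ∀ p q q', r x0 p.2 → r x0 q.2 → r x0 q'.2 → WAdj G A r p q → WAdj G A r p q' →
        q ≠ q' → c p q ≠ c p q' := by
  classical
  set n : ℕ := (univ.filter (fun y => r x0 y)).card with hn
  have hcard : ∀ x, r x0 x → (univ.filter (fun y => r x y)).card = n := by
    intro x hx
    rw [hn]
    congr 1
    ext y
    simp only [mem_filter, mem_univ, true_and]
    exact ⟨fun h => hr.trans hx h, fun h => hr.trans (hr.symm hx) h⟩
  have hn1 : 1 ≤ n := by
    rw [hn, Nat.succ_le_iff, card_pos]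
    exact ⟨x0, by simp [hr.refl x0]⟩
  have hkn : (k - 1) * n + n = k * n := by
    obtain ⟨k', rfl⟩ : ∃ k', k = k' + 1 := ⟨k - 1, by omega⟩
    simp only [Nat.add_sub_cancel]
    ring
  have hN0 := hN x0
  rw [← hn] at hN0
  set N1 : ℕ := N - (k - 1) * n with hN1
  have hN1' : N1 + (k - 1) * n = N := by omega
  let G0 : SimpleGraph V :=
    { Adj := fun a b => G.Adj a b ∧ col a b = 0
      symm := ⟨fun a b h => ⟨h.1.symm, by rw [hcol.1]; exact h.2⟩⟩
      loopless := ⟨fun a h => h.1.ne rfl⟩ }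
  have hG0 : ∀ a b b', G0.Adj a b → G0.Adj a b' → b = b' := by
    intro a b b' h h'
    by_contra hne
    have h3 := hcol.2.2 a b b' h.1 h'.1 hne
    rw [h.2, h'.2] at h3
    exact h3 rfl
  let A0 : SimpleGraph W :=
    { Adj := fun x y => A.Adj x y ∧ r x0 x ∧ r x0 y
      symm := ⟨fun x y h => ⟨h.1.symm, h.2.2, h.2.1⟩⟩
      loopless := ⟨fun x h => h.1.ne rfl⟩ }
  let B0 : SimpleGraph W :=
    { Adj := fun x y => x ≠ y ∧ r x0 x ∧ r x0 y
      symm := ⟨fun x y h => ⟨h.1.symm, h.2.2, h.2.1⟩⟩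
      loopless := ⟨fun x h => h.1 rfl⟩ }
  have hdeg : ∀ v, A0.degree v + B0.degree v + 1 ≤ N1 := by
    intro v
    by_cases hv : r x0 v
    · have h1 : A0.degree v ≤ A.degree v := by
        rw [← SimpleGraph.card_neighborFinset_eq_degree, ← SimpleGraph.card_neighborFinset_eq_degree]
        apply card_le_card
        intro y hy
        rw [SimpleGraph.mem_neighborFinset] at hy ⊢
        exact hy.1
      have h2 : B0.degree v + 1 = n := by
        have h3 : univ.filter (fun y => r x0 y) = insert v (B0.neighborFinset v) := by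
          ext y
          simp only [mem_filter, mem_univ, true_and, mem_insert, SimpleGraph.mem_neighborFinset]
          constructor
          · intro h
            by_cases hxy : y = v
            · exact Or.inl hxy
            · exact Or.inr ⟨fun e => hxy e.symm, hv, h⟩
          · rintro (h | h)
            · rw [h]; exact hv
            · exact h.2.2
        rw [hn, h3, card_insert_of_notMem (by simp), SimpleGraph.card_neighborFinset_eq_degree]
      have h4 := hN v
      rw [hcard v hv] at h4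
      omega
    · have h1 : A0.degree v = 0 := by
        rw [← SimpleGraph.card_neighborFinset_eq_degree, card_eq_zero]
        ext y
        simp only [SimpleGraph.mem_neighborFinset, notMem_empty, iff_false]
        exact fun h => hv h.2.1
      have h2 : B0.degree v = 0 := by
        rw [← SimpleGraph.card_neighborFinset_eq_degree, card_eq_zero]
        ext y
        simp only [SimpleGraph.mem_neighborFinset, notMem_empty, iff_false]
        exact fun h => hv h.2.1
      omega
  obtain ⟨c0, hc1, hc2, hc3⟩ := coreA_layer hA G0 hG0 A0 B0 N1 hdeg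
  -- a numbering of the class
  obtain ⟨i, hilt, hiinj⟩ : ∃ i : W → ℕ, (∀ x, r x0 x → i x < n) ∧
      ∀ x y, r x0 x → r x0 y → i x = i y → x = y := by
    let S := univ.filter (fun y => r x0 y)
    let e := S.equivFin
    refine ⟨fun x => if h : x ∈ S then (e ⟨x, h⟩).val else 0, ?_, ?_⟩
    · intro x hx
      have hxS : x ∈ S := by simp [S, hx]
      simp only [hxS, dif_pos]
      exact (e ⟨x, hxS⟩).isLt
    · intro x y hx hy h
      have hxS : x ∈ S := by simp [S, hx]
      have hyS : y ∈ S := by simp [S, hy]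
      simp only [hxS, hyS, dif_pos] at h
      have := e.injective (Fin.ext h)
      exact congrArg Subtype.val this
  let c : V × W → V × W → ℕ := fun p q =>
    if G.Adj p.1 q.1 ∧ col p.1 q.1 ≠ 0 then
      N1 + ((col p.1 q.1 - 1) * n + (i p.2 + i q.2) % n) else c0 p q
  -- the two kinds of edges
  have hadj : ∀ p q : V × W, r x0 p.2 → r x0 q.2 → WAdj G A r p q →
      ¬ (G.Adj p.1 q.1 ∧ col p.1 q.1 ≠ 0) →
      ((p.1 = q.1 ∧ A0.Adj p.2 q.2) ∨ (G0.Adj p.1 q.1 ∧ (p.2 = q.2 ∨ B0.Adj p.2 q.2))) := by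
    intro p q hp hq h hnot
    rcases h with ⟨h1, h2⟩ | ⟨h1, h2⟩
    · exact Or.inl ⟨h1, h2, hp, hq⟩
    · refine Or.inr ⟨⟨h1, ?_⟩, ?_⟩
      · by_contra h3
        exact hnot ⟨h1, h3⟩
      · by_cases e : p.2 = q.2
        · exact Or.inl e
        · exact Or.inr ⟨e, hp, hq⟩
  have hbig : ∀ p q : V × W, (G.Adj p.1 q.1 ∧ col p.1 q.1 ≠ 0) → N1 ≤ c p q := by
    intro p q h
    show N1 ≤ if _ then _ else _
    rw [if_pos h]
    omega
  have hsmall : ∀ p q : V × W, r x0 p.2 → r x0 q.2 → WAdj G A r p q →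
      ¬ (G.Adj p.1 q.1 ∧ col p.1 q.1 ≠ 0) → c p q < N1 := by
    intro p q hp hq h hnot
    show (if _ then _ else _) < N1
    rw [if_neg hnot]
    exact hc2 p q (hadj p q hp hq h hnot)
  refine ⟨c, ?_, ?_, ?_⟩
  · intro p q
    show (if _ then _ else _) = (if _ then _ else _)
    have e1 : (G.Adj p.1 q.1 ∧ col p.1 q.1 ≠ 0) ↔ (G.Adj q.1 p.1 ∧ col q.1 p.1 ≠ 0) := by
      rw [G.adj_comm, hcol.1]
    by_cases h : G.Adj p.1 q.1 ∧ col p.1 q.1 ≠ 0
    · rw [if_pos h, if_pos (e1.mp h), hcol.1, add_comm (i p.2)]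
    · rw [if_neg h, if_neg (fun h' => h (e1.mpr h')), hc1]
  · intro p q hp hq h
    by_cases h1 : G.Adj p.1 q.1 ∧ col p.1 q.1 ≠ 0
    · show (if _ then _ else _) < N
      rw [if_pos h1]
      have h2 := hcol.2.1 _ _ h1.1
      have h3 : (i p.2 + i q.2) % n < n := Nat.mod_lt _ hn1
      have h4 : (col p.1 q.1 - 1) * n + n ≤ (k - 1) * n := by
        have : (col p.1 q.1 - 1) + 1 ≤ k - 1 := by
          have := h1.2
          omega
        calc (col p.1 q.1 - 1) * n + n = ((col p.1 q.1 - 1) + 1) * n := by ring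
          _ ≤ (k - 1) * n := Nat.mul_le_mul_right n this
      omega
    · have := hsmall p q hp hq h h1
      omega
  · intro p q q' hp hq hq' h h' hne heq
    by_cases h1 : G.Adj p.1 q.1 ∧ col p.1 q.1 ≠ 0
    · by_cases h2 : G.Adj p.1 q'.1 ∧ col p.1 q'.1 ≠ 0
      · have e : (if G.Adj p.1 q.1 ∧ col p.1 q.1 ≠ 0 then
            N1 + ((col p.1 q.1 - 1) * n + (i p.2 + i q.2) % n) else c0 p q) =
            (if G.Adj p.1 q'.1 ∧ col p.1 q'.1 ≠ 0 then
            N1 + ((col p.1 q'.1 - 1) * n + (i p.2 + i q'.2) % n) else c0 p q') := heq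
        rw [if_pos h1, if_pos h2] at e
        have e1 : (col p.1 q.1 - 1) * n + (i p.2 + i q.2) % n =
            (col p.1 q'.1 - 1) * n + (i p.2 + i q'.2) % n := by omega
        have hlt1 : (i p.2 + i q.2) % n < n := Nat.mod_lt _ hn1
        have hlt2 : (i p.2 + i q'.2) % n < n := Nat.mod_lt _ hn1
        have e2 : (col p.1 q.1 - 1) = (col p.1 q'.1 - 1) := by
          have : ((col p.1 q.1 - 1) * n + (i p.2 + i q.2) % n) / n =
            ((col p.1 q'.1 - 1) * n + (i p.2 + i q'.2) % n) / n := by rw [e1]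
          rwa [mul_comm, Nat.mul_add_div hn1, Nat.div_eq_of_lt hlt1, mul_comm,
            Nat.mul_add_div hn1, Nat.div_eq_of_lt hlt2, add_zero, add_zero] at this
        have e3 : (i p.2 + i q.2) % n = (i p.2 + i q'.2) % n := by
          rw [e2] at e1
          omega
        have e4 : col p.1 q.1 = col p.1 q'.1 := by
          have := h1.2
          have := h2.2
          omega
        have e5 : q.1 = q'.1 := by
          by_contra hne'
          exact hcol.2.2 _ _ _ h1.1 h2.1 hne' e4
        have e6 : i q.2 = i q'.2 := by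
          have h3 : i p.2 + i q.2 ≡ i p.2 + i q'.2 [MOD n] := e3
          have h4 : i q.2 ≡ i q'.2 [MOD n] := Nat.ModEq.add_left_cancel' _ h3
          exact Nat.ModEq.eq_of_lt_of_lt h4 (hilt _ hq) (hilt _ hq')
        exact hne (Prod.ext e5 (hiinj _ _ hq hq' e6))
      · have := hbig p q h1
        have := hsmall p q' hp hq' h' h2
        omega
    · by_cases h2 : G.Adj p.1 q'.1 ∧ col p.1 q'.1 ≠ 0
      · have := hbig p q' h2
        have := hsmall p q hp hq h h1
        omega
      · have e : (if G.Adj p.1 q.1 ∧ col p.1 q.1 ≠ 0 then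
            N1 + ((col p.1 q.1 - 1) * n + (i p.2 + i q.2) % n) else c0 p q) =
            (if G.Adj p.1 q'.1 ∧ col p.1 q'.1 ≠ 0 then
            N1 + ((col p.1 q'.1 - 1) * n + (i p.2 + i q'.2) % n) else c0 p q') := heq
        rw [if_neg h1, if_neg h2] at e
        exact hc3 p q q' (hadj p q hp hq h h1) (hadj p q' hp hq' h' h2) hne e

/-- Assembly, all `A`-edges lie inside the classes. -/
theorem stmCoreA (hA : StmA) : StmCoreA := by
  intro V W _ _ _ _ G A _ r _ hr k N col hcol hk hN hins
  classical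
  let st : Setoid W := ⟨r, hr⟩
  let rep : W → W := fun x => (Quotient.mk st x).out
  have hrep : ∀ x, r (rep x) x := fun x => Quotient.mk_out (s := st) x
  have hrep2 : ∀ x y, r x y → rep x = rep y := by
    intro x y h
    show (Quotient.mk st x).out = (Quotient.mk st y).out
    rw [Quotient.sound (s := st) h]
  choose c hc1 hc2 hc3 using coreA_class hA G A r hr k N col hcol hk hN
  have hin : ∀ p q, WAdj G A r p q → r p.2 q.2 := by
    intro p q h
    rcases h with ⟨-, h⟩ | ⟨-, h⟩
    · exact hins _ _ h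
    · exact h
  refine ⟨fun p q => if r p.2 q.2 then c (rep p.2) p q else 0, ?_, ?_, ?_⟩
  · intro p q
    by_cases h : r p.2 q.2
    · show (if _ then _ else _) = (if _ then _ else _)
      rw [if_pos h, if_pos (hr.symm h), hc1, hrep2 _ _ h]
    · show (if _ then _ else _) = (if _ then _ else _)
      rw [if_neg h, if_neg (fun h' => h (hr.symm h'))]
  · intro p q h
    have h1 := hin p q h
    show (if _ then _ else _) < N
    rw [if_pos h1]
    exact hc2 (rep p.2) p q (hrep _) (hr.trans (hrep _) h1) h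
  · intro p q q' h h' hne
    have h1 := hin p q h
    have h2 := hin p q' h'
    show (if _ then _ else _) ≠ (if _ then _ else _)
    rw [if_pos h1, if_pos h2]
    exact hc3 (rep p.2) p q q' (hrep _) (hr.trans (hrep _) h1) (hr.trans (hrep _) h2) h h' hne

end Pool.Agent.R511.WP
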