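import Pool.Agent.R511.WP.Defs

/-! Assembly of the colouring of the wreath product from `StmB` (case `k ≥ 2`). -/

set_option autoImplicit false

namespace Pool.Agent.R511.WP

open Finset

namespace CoreB

/-- The `i`-th smallest element of `S` (as a natural number). -/
noncomputable def pick {N : ℕ} (S : Finset (Fin N)) (i : ℕ) : ℕ :=
  if h : i < S.card then ((S.orderEmbOfFin rfl ⟨i, h⟩ : Fin N) : ℕ) else 0

theorem pick_mem {N : ℕ} (S : Finset (Fin N)) (i : ℕ) (h : i < S.card) :
    ∃ c ∈ S, pick S i = (c : ℕ) := by
  refine ⟨S.orderEmbOfFin rfl ⟨i, h⟩, S.orderEmbOfFin_mem rfl _, ?_⟩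
  unfold pick
  rw [dif_pos h]

theorem pick_inj {N : ℕ} (S : Finset (Fin N)) (i j : ℕ) (hi : i < S.card) (hj : j < S.card)
    (h : pick S i = pick S j) : i = j := by
  unfold pick at h
  rw [dif_pos hi, dif_pos hj] at h
  have h2 := (S.orderEmbOfFin rfl).injective (Fin.ext h)
  simpa using h2

end CoreB

open CoreB

theorem stmCoreB (hB : StmB) : StmCoreB := by
  classical
  intro V W _ _ _ _ G A _ r _ hr k N col hcol hk hdeg hout
  -- the classes
  let part : W → Finset W := fun x => univ.filter (fun y => r x y)
  have hpart : ∀ x y, part x = part y ↔ r x y := by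
    intro x y
    constructor
    · intro h
      have : y ∈ part y := by simp [part, hr.refl]
      rw [← h] at this
      simpa [part] using this
    · intro h
      ext z
      simp only [part, mem_filter, mem_univ, true_and]
      exact ⟨fun h2 => hr.trans (hr.symm h) h2, fun h2 => hr.trans h h2⟩
  have hclass : ∀ v, (univ.filter (fun w => part w = part v)) = univ.filter (fun y => r v y) := by
    intro v
    ext w
    simp only [mem_filter, mem_univ, true_and, hpart]
    exact ⟨fun h => hr.symm h, fun h => hr.symm h⟩
  obtain ⟨f, hinv, hf⟩ := hB W (Finset W) A part k N hk (by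
      intro v
      rw [hclass]
      exact hdeg v) (by
      intro v
      obtain ⟨z, h1, h2⟩ := hout v
      refine ⟨z, fun h => h1 ?_, h2⟩
      exact hr.symm ((hpart z v).1 h))
  let S : W → W → Finset (Fin N) := fun x y => univ.filter (fun c => f c x = y)
  have hSmem : ∀ x y c, c ∈ S x y ↔ f c x = y := by
    intro x y c; simp [S]
  have hSsymm : ∀ x y, S x y = S y x := by
    intro x y
    ext c
    rw [hSmem, hSmem]
    constructor
    · intro h; rw [← h]; exact hinv c x
    · intro h; rw [← h]; exact hinv c y
  have hScard : ∀ x y, x ≠ y → (S x y).card = (if A.Adj x y then 1 else 0) + (if r x y then k else 0) := by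
    intro x y hxy
    have h := hf x y hxy
    unfold cnt at h
    simp only [S]
    rw [h]
    simp only [hpart]
  have hSself : ∀ x, k ≤ (S x x).card := by
    intro x
    have h1 : ∑ y : W, (S x y).card = N := by
      have : (univ : Finset (Fin N)).card = ∑ y : W, ((univ : Finset (Fin N)).filter (fun c => f c x = y)).card :=
        card_eq_sum_card_fiberwise (fun c _ => mem_coe.2 (mem_univ (f c x)))
      rw [card_univ, Fintype.card_fin] at this
      exact this.symm
    rw [← add_sum_erase univ _ (mem_univ x)] at h1
    have h2 : ∑ y ∈ univ.erase x, (S x y).card =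
        A.degree x + k * ((univ.filter (fun y => r x y)).card - 1) := by
      have h3 : ∑ y ∈ univ.erase x, (S x y).card = ∑ y ∈ univ.erase x,
          ((if A.Adj x y then 1 else 0) + (if r x y then k else 0)) := by
        apply sum_congr rfl
        intro y hy
        exact hScard x y (ne_of_mem_erase hy).symm
      rw [h3, sum_add_distrib]
      congr 1
      · rw [← card_filter]
        rw [← SimpleGraph.card_neighborFinset_eq_degree]
        congr 1
        ext y
        simp only [mem_filter, mem_erase, mem_univ, and_true, SimpleGraph.mem_neighborFinset]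
        constructor
        · rintro ⟨_, h⟩; exact h
        · intro h; exact ⟨h.ne', h⟩
      · rw [← sum_filter, sum_const, smul_eq_mul, mul_comm]
        congr 1
        have : (univ.erase x).filter (fun y => r x y) = (univ.filter (fun y => r x y)).erase x := by
          ext y; simp only [mem_filter, mem_erase, mem_univ, and_true, true_and]
        rw [this, card_erase_of_mem (by simp [hr.refl])]
    have h4 := hdeg x
    have h5 : 1 ≤ (univ.filter (fun y => r x y)).card :=
      card_pos.2 ⟨x, by simp [hr.refl]⟩
    obtain ⟨m, hm⟩ := Nat.exists_eq_add_of_le' h5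
    rw [h2, hm] at h1
    rw [hm] at h4
    simp only [Nat.add_sub_cancel] at h1
    have h6 : k * (m+1) = k * m + k := by ring
    omega
  -- the index
  let idx : V × W → V × W → ℕ := fun p q =>
    if G.Adj p.1 q.1 then col p.1 q.1 else if r p.2 q.2 then k else 0
  have hidx : ∀ p q, WAdj G A r p q → idx p q < (S p.2 q.2).card := by
    rintro ⟨a, x⟩ ⟨b, y⟩ (⟨h1, h2⟩ | ⟨h1, h2⟩)
    · simp only at h1 h2
      subst h1
      have hxy : x ≠ y := h2.ne
      simp only [idx, SimpleGraph.irrefl, if_false]
      rw [hScard x y hxy, if_pos h2]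
      omega
    · simp only at h1 h2
      simp only [idx, h1, if_true]
      have h3 := hcol.2.1 a b h1
      by_cases hxy : x = y
      · subst hxy
        exact lt_of_lt_of_le h3 (hSself x)
      · rw [hScard x y hxy, if_pos h2]
        omega
  refine ⟨fun p q => pick (S p.2 q.2) (idx p q), ?_, ?_, ?_⟩
  · intro p q
    have : idx p q = idx q p := by
      simp only [idx]
      rw [hcol.1 p.1 q.1]
      have h1 : G.Adj p.1 q.1 ↔ G.Adj q.1 p.1 := G.adj_comm _ _
      have h2 : r p.2 q.2 ↔ r q.2 p.2 := ⟨fun h => hr.symm h, fun h => hr.symm h⟩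
      simp only [h1, h2]
    simp only
    rw [hSsymm, this]
  · intro p q hpq
    obtain ⟨c, _, h2⟩ := pick_mem (S p.2 q.2) (idx p q) (hidx p q hpq)
    simp only
    rw [h2]; exact c.2
  · intro p q q' hq hq' hne heq
    simp only at heq
    obtain ⟨c, h1, h2⟩ := pick_mem (S p.2 q.2) (idx p q) (hidx p q hq)
    obtain ⟨c', h1', h2'⟩ := pick_mem (S p.2 q'.2) (idx p q') (hidx p q' hq')
    have hcc : c = c' := Fin.ext (by rw [← h2, ← h2', heq])
    rw [hSmem] at h1 h1'
    have hyy : q.2 = q'.2 := by rw [← h1, ← h1', hcc]
    have hi := hidx p q hq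
    have hi' := hidx p q' hq'
    rw [← hyy] at heq hi'
    have hii := pick_inj _ _ _ hi hi' heq
    obtain ⟨a, x⟩ := p
    obtain ⟨b, y⟩ := q
    obtain ⟨b', y'⟩ := q'
    simp only at hyy
    subst hyy
    have hbb : b ≠ b' := fun h => hne (by rw [h])
    simp only [idx] at hii
    rcases hq with ⟨g1, g2⟩ | ⟨g1, g2⟩ <;> rcases hq' with ⟨g1', g2'⟩ | ⟨g1', g2'⟩ <;>
      simp only at g1 g2 g1' g2'
    · exact hbb (g1.symm.trans g1')
    · subst g1
      rw [if_neg (SimpleGraph.irrefl G), if_pos g2', if_pos g1'] at hii
      have := hcol.2.1 _ _ g1'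
      omega
    · subst g1'
      rw [if_pos g1, if_neg (SimpleGraph.irrefl G), if_pos g2] at hii
      have := hcol.2.1 _ _ g1
      omega
    · rw [if_pos g1, if_pos g1'] at hii
      exact hcol.2.2 a b b' g1 g1' hbb hii

end Pool.Agent.R511.WP
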