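import Pool.Agent.R511.WP.Basic

/-! Double fans are elementary (`StmDF`). -/

set_option autoImplicit false

namespace Pool.Agent.R511.WP

open Finset

/-- Chains of a double fan. -/
structure FChain {V C : Type} (f : C → V → V) (x w : V) (v : ℕ → V) (c : ℕ → C) (z : ℕ → V)
    (l : ℕ) : Prop where
  start : v 0 = x ∨ v 0 = w
  centre : ∀ i, i < l → z i = x ∨ z i = w
  miss : ∀ i, i < l → f (c i) (v i) = v i
  edge : ∀ i, i < l → f (c i) (z i) = v (i + 1)
  off : ∀ i, 1 ≤ i → i ≤ l → v i ≠ x ∧ v i ≠ w
  inj : ∀ i j, i < j → j ≤ l → v i ≠ v j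

section chain

variable {V C : Type} {f g : C → V → V} {x w : V} {v : ℕ → V} {c : ℕ → C} {z : ℕ → V} {l l' : ℕ}

theorem FChain.pre (h : FChain f x w v c z l) (hl : l' ≤ l) : FChain f x w v c z l' :=
  ⟨h.start, fun i hi => h.centre i (by omega), fun i hi => h.miss i (by omega),
    fun i hi => h.edge i (by omega), fun i h1 h2 => h.off i h1 (by omega),
    fun i j h1 h2 => h.inj i j h1 (by omega)⟩

theorem FChain.congr (h : FChain f x w v c z l) (hg : ∀ i, i < l → g (c i) = f (c i)) :
    FChain g x w v c z l :=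
  ⟨h.start, h.centre, fun i hi => by rw [hg i hi]; exact h.miss i hi,
    fun i hi => by rw [hg i hi]; exact h.edge i hi, h.off, h.inj⟩

end chain

section main

variable {V C : Type} [Fintype V] [DecidableEq V] [Fintype C] [DecidableEq C]

/-- The vertices `m`, `p`, `t` are distinct, `β` is missing at `m` and `γ` at `p` and `t`: a swap
moves `β` to `p` or to `t`, keeping it missing at `m`. -/
theorem near_transfer {μ : V → V → ℕ} {x w : V} {f : C → V → V} (hf : Near μ x w f)
    {β γ : C} {m p t : V} (hmp : m ≠ p) (hmt : m ≠ t) (hpt : p ≠ t)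
    (hm : f β m = m) (hp : f γ p = p) (ht : f γ t = t) :
    (∃ g : C → V → V, Near μ x w g ∧ (∀ d, d ≠ β → d ≠ γ → g d = f d) ∧ g β p = p ∧
      g β m = m) ∨
    (∃ (g : C → V → V) (S : V → Prop), Near μ x w g ∧ (∀ d, d ≠ β → d ≠ γ → g d = f d) ∧
      g β t = t ∧ g β m = m ∧ (∀ u, ¬ S u → ∀ d, g d u = f d u) ∧ ¬ S m ∧ ¬ S p ∧
      (∀ u, S u → g β u = f γ u)) := by
  classical
  by_cases h1 : Orb (f β) (f γ) p m
  · have h2 : ¬ Orb (f β) (f γ) p t := fun h2 =>
      orb_three (hf.1 β) (hf.1 γ) hmp.symm hpt hmt (Or.inr hp) (Or.inl hm) (Or.inr ht) h1 h2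
    have h3 : ¬ Orb (f β) (f γ) t p := fun h => h2 (orb_symm (hf.1 β) (hf.1 γ) h)
    have h4 : ¬ Orb (f β) (f γ) t m := fun h =>
      h3 (orb_trans h (orb_symm (hf.1 β) (hf.1 γ) h1))
    refine Or.inr ⟨swapOn f β γ (fun u => Orb (f β) (f γ) t u), fun u => Orb (f β) (f γ) t u,
      hf.swap (fun v hv => Orb.left hv) (fun v hv => Orb.right hv),
      fun d h5 h6 => swapOn_other h5 h6, ?_, ?_, ?_, h4, h3, ?_⟩
    · rw [swapOn_left Orb.base, ht]
    · rw [swapOn_not_mem h4, hm]
    · intro u hu d
      exact swapOn_not_mem hu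
    · intro u hu
      exact swapOn_left hu
  · refine Or.inl ⟨swapOn f β γ (fun u => Orb (f β) (f γ) p u),
      hf.swap (fun v hv => Orb.left hv) (fun v hv => Orb.right hv),
      fun d h5 h6 => swapOn_other h5 h6, ?_, ?_⟩
    · rw [swapOn_left Orb.base, hp]
    · rw [swapOn_not_mem h1, hm]

/-- The induction statement: no colour is missing at the end of the chain and at a centre or
another vertex of the chain. -/
def FP1 (C : Type) [Fintype C] [DecidableEq C] (μ : V → V → ℕ) (x w : V) (l : ℕ) : Prop :=
  ∀ f : C → V → V, Near μ x w f → ∀ (v : ℕ → V) (c : ℕ → C) (z : ℕ → V),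
    FChain f x w v c z l → ∀ γ, f γ (v l) = v l → ∀ p, ((p = x ∨ p = w) ∨ ∃ j, j < l ∧ p = v j) →
    f γ p ≠ p

variable {μ : V → V → ℕ} {x w : V} (hxw : x ≠ w) (hnc : ¬ ∃ f : C → V → V, Col μ f)
  (h3 : ∀ f : C → V → V, Near μ x w f →
      3 ≤ (univ.filter (fun c => f c x = x)).card ∧ 3 ≤ (univ.filter (fun c => f c w = w)).card)

include hxw hnc in
theorem near_centres {f : C → V → V} (hf : Near μ x w f) {m p : V} (hm : m = x ∨ m = w)
    (hp : p = x ∨ p = w) (hmp : m ≠ p) {c : C} (h1 : f c m = m) (h2 : f c p = p) : False := by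
  rcases hm with rfl | rfl <;> rcases hp with rfl | rfl
  · exact hmp rfl
  · exact Near.not_both hnc hxw hf h1 h2
  · exact Near.not_both hnc hxw hf h2 h1
  · exact hmp rfl

include h3 in
theorem near_choose {f : C → V → V} (hf : Near μ x w f) {m : V} (hm : m = x ∨ m = w)
    (c0 c1 : C) : ∃ β, f β m = m ∧ β ≠ c0 ∧ β ≠ c1 := by
  have h4 : 3 ≤ (univ.filter (fun c => f c m = m)).card := by
    rcases hm with rfl | rfl
    · exact (h3 f hf).1
    · exact (h3 f hf).2
  have h5 : ((univ.filter (fun c => f c m = m)) \ {c0, c1}).Nonempty := by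
    rw [← Finset.card_pos]
    have h6 := Finset.le_card_sdiff ({c0, c1} : Finset C) (univ.filter (fun c => f c m = m))
    have h7 : ({c0, c1} : Finset C).card ≤ 2 := Finset.card_le_two
    omega
  obtain ⟨β, hβ⟩ := h5
  simp only [mem_sdiff, mem_filter, mem_univ, true_and, mem_insert, mem_singleton, not_or] at hβ
  exact ⟨β, hβ.1, hβ.2.1, hβ.2.2⟩

include hxw hnc in
/-- No unused colour is missing at the end and at the last centre (recolouring). -/
theorem fchain_K1 {n : ℕ} (ih : ∀ l, 1 ≤ l → l < n + 1 → FP1 C μ x w l)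
    {f : C → V → V} (hf : Near μ x w f) {v : ℕ → V} {c : ℕ → C} {z : ℕ → V}
    (hc : FChain f x w v c z (n + 1)) {γ : C} (hγ : ∀ i, i < n + 1 → c i ≠ γ)
    (h1 : f γ (v (n + 1)) = v (n + 1)) (h2 : f γ (z n) = z n) : False := by
  have hzt : z n ≠ v (n + 1) := by
    have h4 := hc.off (n + 1) (by omega) le_rfl
    rcases hc.centre n (by omega) with h | h <;> rw [h]
    · exact h4.1.symm
    · exact h4.2.symm
  have hcn : c n ≠ γ := hγ n (by omega)
  have hg := hf.recolour hzt (hc.edge n (by omega)) h2 h1
  set g := link (unlink f (c n) (z n) (v (n + 1))) γ (z n) (v (n + 1)) with hgdef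
  have hgo : ∀ d, d ≠ c n → d ≠ γ → g d = f d := by
    intro d h4 h5
    rw [hgdef, link_other h5, unlink_other h4]
  have hgz : g (c n) (z n) = z n := by
    rw [hgdef, link_other hcn, unlink_left]
  have hgs : g (c n) (v n) = v n := by
    rw [hgdef, link_other hcn]
    by_cases h4 : v n = z n
    · rw [h4, unlink_left]
    · rw [unlink_ne _ h4 (hc.inj n (n + 1) (by omega) le_rfl)]
      exact hc.miss n (by omega)
  rcases Nat.eq_zero_or_pos n with hn | hn
  · subst hn
    refine near_centres hxw hnc hg hc.start (hc.centre 0 (by omega)) ?_ hgs hgz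
    intro h4
    have h5 := hc.miss 0 (by omega)
    have h6 := hc.edge 0 (by omega)
    rw [← h4, h5] at h6
    exact hc.inj 0 1 (by omega) (by omega) h6
  · have hch : FChain g x w v c z n := by
      refine (hc.pre (by omega)).congr ?_
      intro i hi
      refine hgo _ ?_ (hγ i (by omega))
      intro h4
      refine ih n hn (by omega) f hf v c z (hc.pre (by omega)) (c n) (hc.miss n (by omega))
        (v i) (Or.inr ⟨i, hi, rfl⟩) ?_
      rw [← h4]
      exact hc.miss i (by omega)
    exact ih n hn (by omega) g hg v c z hch (c n) hgs (z n)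
      (Or.inl (hc.centre n (by omega))) hgz

/-- A colour missing at a centre and different from `c 0` is unused. -/
theorem fchain_unused {n : ℕ} (ih : ∀ l, 1 ≤ l → l < n + 1 → FP1 C μ x w l)
    {f : C → V → V} (hf : Near μ x w f) {v : ℕ → V} {c : ℕ → C} {z : ℕ → V}
    (hc : FChain f x w v c z (n + 1)) {β : C} {m : V} (hm : m = x ∨ m = w) (h1 : f β m = m)
    (h0 : β ≠ c 0) (i : ℕ) (hi : i < n + 1) : c i ≠ β := by
  rcases Nat.eq_zero_or_pos i with h2 | h2
  · subst h2; exact h0.symm
  · intro h4
    refine ih i h2 hi f hf v c z (hc.pre (by omega)) (c i) (hc.miss i hi) m (Or.inl hm) ?_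
    rw [h4]; exact h1

include hxw hnc h3 in
/-- No unused colour is missing at the end and at a centre. -/
theorem fchain_K2 {n : ℕ} (ih : ∀ l, 1 ≤ l → l < n + 1 → FP1 C μ x w l)
    {f : C → V → V} (hf : Near μ x w f) {v : ℕ → V} {c : ℕ → C} {z : ℕ → V}
    (hc : FChain f x w v c z (n + 1)) {γ : C} (hγ : ∀ i, i < n + 1 → c i ≠ γ)
    (h1 : f γ (v (n + 1)) = v (n + 1)) {p : V} (hp : p = x ∨ p = w) (h2 : f γ p = p) :
    False := by
  by_cases hpz : p = z n
  · rw [hpz] at h2
    exact fchain_K1 hxw hnc ih hf hc hγ h1 h2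
  · have hz := hc.centre n (by omega)
    obtain ⟨β, hβz, hβ0, -⟩ := near_choose h3 hf hz (c 0) (c 0)
    have hβ := fchain_unused ih hf hc hz hβz hβ0
    have hzt : z n ≠ v (n + 1) := by
      have h4 := hc.off (n + 1) (by omega) le_rfl
      rcases hz with h | h <;> rw [h]
      · exact h4.1.symm
      · exact h4.2.symm
    have hpt : p ≠ v (n + 1) := by
      have h4 := hc.off (n + 1) (by omega) le_rfl
      rcases hp with h | h <;> rw [h]
      · exact h4.1.symm
      · exact h4.2.symm
    rcases near_transfer hf (Ne.symm hpz) hzt hpt hβz h2 h1 with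
      ⟨g, hg, -, hgp, hgm⟩ | ⟨g, S, hg, hgo, hgt, hgm, -⟩
    · exact near_centres hxw hnc hg hp hz hpz hgp hgm
    · exact fchain_K1 hxw hnc ih hg (hc.congr fun i hi => hgo _ (hβ i hi) (hγ i hi)) hβ hgt hgm

include hxw hnc h3 in
/-- No unused colour is missing at the end and at an earlier vertex. -/
theorem fchain_K3 {n : ℕ} (ih : ∀ l, 1 ≤ l → l < n + 1 → FP1 C μ x w l)
    {f : C → V → V} (hf : Near μ x w f) {v : ℕ → V} {c : ℕ → C} {z : ℕ → V}
    (hc : FChain f x w v c z (n + 1)) {γ : C} (hγ : ∀ i, i < n + 1 → c i ≠ γ)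
    (h1 : f γ (v (n + 1)) = v (n + 1)) {j : ℕ} (hj : j < n + 1) (h2 : f γ (v j) = v j) :
    False := by
  rcases Nat.eq_zero_or_pos j with hj0 | hj0
  · subst hj0
    exact fchain_K2 hxw hnc h3 ih hf hc hγ h1 hc.start h2
  · obtain ⟨β, hβz, hβ0, -⟩ := near_choose h3 hf (m := x) (Or.inl rfl) (c 0) (c 0)
    have hβ := fchain_unused ih hf hc (Or.inl rfl) hβz hβ0
    rcases near_transfer hf (hc.off j hj0 (by omega)).1.symm
        (hc.off (n + 1) (by omega) le_rfl).1.symm (hc.inj j (n + 1) hj le_rfl) hβz h2 h1 with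
      ⟨g, hg, hgo, hgp, hgm⟩ | ⟨g, S, hg, hgo, hgt, hgm, -⟩
    · exact ih j hj0 hj g hg v c z
        ((hc.pre (by omega)).congr fun i hi => hgo _ (hβ i (by omega)) (hγ i (by omega)))
        β hgp x (Or.inl (Or.inl rfl)) hgm
    · exact fchain_K2 hxw hnc h3 ih hg (hc.congr fun i hi => hgo _ (hβ i hi) (hγ i hi)) hβ hgt
        (Or.inl rfl) hgm

/-- The colours of a chain are distinct. -/
theorem fchain_inj {n : ℕ} (ih : ∀ l, 1 ≤ l → l < n + 1 → FP1 C μ x w l)
    {f : C → V → V} (hf : Near μ x w f) {v : ℕ → V} {c : ℕ → C} {z : ℕ → V}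
    (hc : FChain f x w v c z (n + 1)) {i j : ℕ} (hi : i < n + 1) (hj : j < n + 1) (hij : i ≠ j) :
    c i ≠ c j := by
  wlog hlt : i < j generalizing i j
  · exact (this hj hi hij.symm (by omega)).symm
  intro h4
  refine ih j (by omega) hj f hf v c z (hc.pre (by omega)) (c j) (hc.miss j hj) (v i)
    (Or.inr ⟨i, hlt, rfl⟩) ?_
  rw [← h4]
  exact hc.miss i hi

include hxw hnc h3 in
theorem fp1_all (l : ℕ) (hl : 1 ≤ l) : FP1 C μ x w l := by
  induction l using Nat.strong_induction_on with
  | _ l ih0 =>
    obtain ⟨n, rfl⟩ : ∃ n, l = n + 1 := ⟨l - 1, by omega⟩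
    have ih : ∀ l, 1 ≤ l → l < n + 1 → FP1 C μ x w l := fun l h1 h2 => ih0 l h2 h1
    clear ih0
    intro f hf v c z hc γ hγ p hp hγp
    have hoff := hc.off (n + 1) (by omega) le_rfl
    by_cases hu : ∀ i, i < n + 1 → c i ≠ γ
    · rcases hp with hp | ⟨j, hj, rfl⟩
      · exact fchain_K2 hxw hnc h3 ih hf hc hu hγ hp hγp
      · exact fchain_K3 hxw hnc h3 ih hf hc hu hγ hj hγp
    push Not at hu
    obtain ⟨j, hj, hcj⟩ := hu
    -- the colour `γ = c j` is used; then `p = v j`
    have hpj : p = v j := by
      by_contra hne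
      rcases hp with hp | ⟨i, hi, rfl⟩
      · rcases Nat.eq_zero_or_pos j with hj0 | hj0
        · subst hj0
          refine near_centres hxw hnc hf hp hc.start hne hγp ?_
          rw [← hcj]; exact hc.miss 0 hj
        · exact ih j hj0 hj f hf v c z (hc.pre (by omega)) (c j) (hc.miss j hj) p (Or.inl hp)
            (by rw [hcj]; exact hγp)
      · have hij : i ≠ j := fun h => hne (by rw [h])
        rcases Nat.lt_or_gt_of_ne hij with h | h
        · exact ih j (by omega) hj f hf v c z (hc.pre (by omega)) (c j) (hc.miss j hj) (v i)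
            (Or.inr ⟨i, h, rfl⟩) (by rw [hcj]; exact hγp)
        · exact ih i (by omega) hi f hf v c z (hc.pre (by omega)) γ hγp (v j)
            (Or.inr ⟨j, h, rfl⟩) (by rw [← hcj]; exact hc.miss j hj)
    subst hpj
    subst hcj
    have hpt : v j ≠ v (n + 1) := hc.inj j (n + 1) hj le_rfl
    rcases Nat.eq_zero_or_pos j with hj0 | hj0
    · -- `j = 0`
      subst hj0
      have hz := hc.centre 0 hj
      have hz0 : z 0 ≠ v 0 := by
        intro h4
        have h5 := hc.miss 0 hj
        have h6 := hc.edge 0 hj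
        rw [h4, h5] at h6
        exact hc.inj 0 1 (by omega) (by omega) h6
      obtain ⟨β, hβz, hβ0, -⟩ := near_choose h3 hf hz (c 0) (c 0)
      have hβ := fchain_unused ih hf hc hz hβz hβ0
      have hzt : z 0 ≠ v (n + 1) := by
        rcases hz with h | h <;> rw [h]
        · exact hoff.1.symm
        · exact hoff.2.symm
      rcases near_transfer hf hz0 hzt hpt hβz (hc.miss 0 hj) hγ with
        ⟨g, hg, hgo, hgp, hgm⟩ | ⟨g, S, hg, hgo, hgt, hgm, hS, hSm, hSp, -⟩
      · exact near_centres hxw hnc hg hc.start hz hz0.symm hgp hgm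
      · have hch : FChain g x w v c z (n + 1) := by
          refine ⟨hc.start, hc.centre, ?_, ?_, hc.off, hc.inj⟩
          · intro i hi
            rcases Nat.eq_zero_or_pos i with h4 | h4
            · subst h4
              rw [hS _ hSp]; exact hc.miss 0 hj
            · rw [hgo _ (hβ i hi) (fchain_inj ih hf hc hi hj (by omega))]
              exact hc.miss i hi
          · intro i hi
            rcases Nat.eq_zero_or_pos i with h4 | h4
            · subst h4
              rw [hS _ hSm]; exact hc.edge 0 hj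
            · rw [hgo _ (hβ i hi) (fchain_inj ih hf hc hi hj (by omega))]
              exact hc.edge i hi
        exact fchain_K2 hxw hnc h3 ih hg hch hβ hgt hz hgm
    · -- `j ≥ 1`
      obtain ⟨β, hβz, hβ0, -⟩ := near_choose h3 hf (m := x) (Or.inl rfl) (c 0) (c 0)
      have hβ := fchain_unused ih hf hc (Or.inl rfl) hβz hβ0
      rcases near_transfer hf (hc.off j hj0 (by omega)).1.symm hoff.1.symm hpt hβz
          (hc.miss j hj) hγ with
        ⟨g, hg, hgo, hgp, hgm⟩ | ⟨g, S, hg, hgo, hgt, hgm, hS, hSm, hSp, hSγ⟩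
      · exact ih j hj0 hj g hg v c z
          ((hc.pre (by omega)).congr fun i hi => hgo _ (hβ i (by omega))
            (fchain_inj ih hf hc (by omega) hj (by omega)))
          β hgp x (Or.inl (Or.inl rfl)) hgm
      · by_cases hz : S (z j)
        · -- the shorter chain `x, v (j+1), …`
          have hl' : n + 1 - j < n + 1 := by omega
          let v' : ℕ → V := fun i => if i = 0 then x else v (j + i)
          let c' : ℕ → C := fun i => if i = 0 then β else c (j + i)
          let z' : ℕ → V := fun i => z (j + i)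
          have hch : FChain g x w v' c' z' (n + 1 - j) := by
            refine ⟨Or.inl rfl, ?_, ?_, ?_, ?_, ?_⟩
            · intro i hi; exact hc.centre (j + i) (by omega)
            · intro i hi
              rcases Nat.eq_zero_or_pos i with h4 | h4
              · subst h4; simpa [v', c'] using hgm
              · have h5 : i ≠ 0 := by omega
                simp only [v', c', h5, if_false]
                rw [hgo _ (hβ _ (by omega)) (fchain_inj ih hf hc (by omega) hj (by omega))]
                exact hc.miss _ (by omega)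
            · intro i hi
              rcases Nat.eq_zero_or_pos i with h4 | h4
              · subst h4
                simp only [v', c', z', if_true, Nat.add_zero, Nat.zero_add, one_ne_zero,
                  if_false]
                rw [hSγ _ hz]
                exact hc.edge j hj
              · have h5 : i ≠ 0 := by omega
                have h6 : i + 1 ≠ 0 := by omega
                simp only [v', c', z', h5, h6, if_false]
                rw [hgo _ (hβ _ (by omega)) (fchain_inj ih hf hc (by omega) hj (by omega))]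
                exact hc.edge (j + i) (by omega)
            · intro i h4 h5
              have h6 : i ≠ 0 := by omega
              simp only [v', h6, if_false]
              exact hc.off _ (by omega) (by omega)
            · intro i k h4 h5
              have h6 : k ≠ 0 := by omega
              rcases Nat.eq_zero_or_pos i with h7 | h7
              · subst h7
                simp only [v', h6, if_true, if_false]
                exact (hc.off (j + k) (by omega) (by omega)).1.symm
              · have h8 : i ≠ 0 := by omega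
                simp only [v', h6, h8, if_false]
                exact hc.inj _ _ (by omega) (by omega)
          refine ih (n + 1 - j) (by omega) hl' g hg v' c' z' hch β ?_ x (Or.inl (Or.inl rfl)) hgm
          have h6 : n + 1 - j ≠ 0 := by omega
          have h7 : j + (n + 1 - j) = n + 1 := by omega
          simp only [v', h6, if_false, h7]
          exact hgt
        · have hch : FChain g x w v c z (n + 1) := by
            refine ⟨hc.start, hc.centre, ?_, ?_, hc.off, hc.inj⟩
            · intro i hi
              by_cases h4 : i = j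
              · subst h4
                rw [hS _ hSp]; exact hc.miss i hj
              · rw [hgo _ (hβ i hi) (fchain_inj ih hf hc hi hj h4)]
                exact hc.miss i hi
            · intro i hi
              by_cases h4 : i = j
              · subst h4
                rw [hS _ hz]; exact hc.edge i hj
              · rw [hgo _ (hβ i hi) (fchain_inj ih hf hc hi hj h4)]
                exact hc.edge i hi
          exact fchain_K2 hxw hnc h3 ih hg hch hβ hgt (Or.inl rfl) hgm

include hxw hnc h3 in
/-- Two chains. -/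
theorem fp2_all (N : ℕ) : ∀ (l l' : ℕ), l + l' = N → 1 ≤ l → 1 ≤ l' →
    ∀ f : C → V → V, Near μ x w f → ∀ (v : ℕ → V) (c : ℕ → C) (z : ℕ → V),
    FChain f x w v c z l → ∀ (v' : ℕ → V) (c' : ℕ → C) (z' : ℕ → V),
    FChain f x w v' c' z' l' → v l ≠ v' l' → ∀ γ, f γ (v l) = v l → f γ (v' l') ≠ v' l' := by
  induction N using Nat.strong_induction_on with
  | _ N ih =>
    intro l l' hN hl hl' f hf v c z hc v' c' z' hc' hne γ h1 h2
    have P1 : ∀ l, 1 ≤ l → FP1 C μ x w l := fun l hl => fp1_all hxw hnc h3 l hl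
    have hoff := hc.off l hl le_rfl
    have hoff' := hc'.off l' hl' le_rfl
    -- `γ` is not used in the first chain
    have hu : ∀ i, i < l → c i ≠ γ := by
      intro i hi h4
      subst h4
      rcases Nat.eq_zero_or_pos i with h5 | h5
      · subst h5
        exact P1 l' hl' f hf v' c' z' hc' _ h2 (v 0) (Or.inl hc.start) (hc.miss 0 hi)
      · by_cases h6 : v i = v' l'
        · exact P1 l hl f hf v c z hc _ h1 (v i) (Or.inr ⟨i, hi, rfl⟩) (hc.miss i hi)
        · exact ih (i + l') (by omega) i l' rfl h5 hl' f hf v c z (hc.pre (by omega)) v' c' z'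
            hc' h6 _ (hc.miss i hi) h2
    have hu' : ∀ i, i < l' → c' i ≠ γ := by
      intro i hi h4
      subst h4
      rcases Nat.eq_zero_or_pos i with h5 | h5
      · subst h5
        exact P1 l hl f hf v c z hc _ h1 (v' 0) (Or.inl hc'.start) (hc'.miss 0 hi)
      · by_cases h6 : v l = v' i
        · exact P1 l' hl' f hf v' c' z' hc' _ h2 (v' i) (Or.inr ⟨i, hi, rfl⟩) (hc'.miss i hi)
        · exact ih (l + i) (by omega) l i rfl hl h5 f hf v c z hc v' c' z' (hc'.pre (by omega))
            h6 _ h1 (hc'.miss i hi)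
    obtain ⟨β, hβx, hβ0, hβ0'⟩ := near_choose h3 hf (m := x) (Or.inl rfl) (c 0) (c' 0)
    have hβ : ∀ i, i < l → c i ≠ β := by
      intro i hi h4
      rcases Nat.eq_zero_or_pos i with h5 | h5
      · subst h5; exact hβ0 h4.symm
      · exact P1 i h5 f hf v c z (hc.pre (by omega)) (c i) (hc.miss i hi) x
          (Or.inl (Or.inl rfl)) (by rw [h4]; exact hβx)
    have hβ' : ∀ i, i < l' → c' i ≠ β := by
      intro i hi h4
      rcases Nat.eq_zero_or_pos i with h5 | h5
      · subst h5; exact hβ0' h4.symm
      · exact P1 i h5 f hf v' c' z' (hc'.pre (by omega)) (c' i) (hc'.miss i hi) x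
          (Or.inl (Or.inl rfl)) (by rw [h4]; exact hβx)
    rcases near_transfer hf hoff'.1.symm hoff.1.symm hne.symm hβx h2 h1 with
      ⟨g, hg, hgo, hgp, hgm⟩ | ⟨g, S, hg, hgo, hgt, hgm, -⟩
    · exact P1 l' hl' g hg v' c' z' (hc'.congr fun i hi => hgo _ (hβ' i hi) (hu' i hi)) β hgp x
        (Or.inl (Or.inl rfl)) hgm
    · exact P1 l hl g hg v c z (hc.congr fun i hi => hgo _ (hβ i hi) (hu i hi)) β hgt x
        (Or.inl (Or.inl rfl)) hgm

/-- Every reached vertex is the end of a chain. -/
theorem reach_chain [Nonempty C] {f : C → V → V} {t : V} (h : Reach f x w t) :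
    ∃ (v : ℕ → V) (c : ℕ → C) (z : ℕ → V) (l : ℕ), FChain f x w v c z l ∧ v l = t := by
  have triv : ∀ s : V, (s = x ∨ s = w) →
      ∃ (v : ℕ → V) (c : ℕ → C) (z : ℕ → V) (l : ℕ), FChain f x w v c z l ∧ v l = s := by
    intro s hs
    refine ⟨fun _ => s, fun _ => Classical.arbitrary C, fun _ => s, 0, ⟨hs, ?_, ?_, ?_, ?_, ?_⟩,
      rfl⟩ <;> intros <;> omega
  induction h with
  | left => exact triv x (Or.inl rfl)
  | right => exact triv w (Or.inr rfl)
  | @step s a m _ hs hm ih =>
    obtain ⟨v, c, z, l, hc, rfl⟩ := ih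
    by_cases h1 : f a m = x ∨ f a m = w
    · exact triv _ h1
    push Not at h1
    by_cases h2 : ∃ i, i ≤ l ∧ v i = f a m
    · obtain ⟨i, hi, h4⟩ := h2
      exact ⟨v, c, z, i, hc.pre hi, h4⟩
    push Not at h2
    refine ⟨fun i => if i = l + 1 then f a m else v i, fun i => if i = l then a else c i,
      fun i => if i = l then m else z i, l + 1, ⟨?_, ?_, ?_, ?_, ?_, ?_⟩, by simp⟩
    · simpa using hc.start
    · intro i hi
      by_cases h4 : i = l
      · simpa [h4] using hm
      · simpa [h4] using hc.centre i (by omega)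
    · intro i hi
      have h5 : i ≠ l + 1 := by omega
      by_cases h4 : i = l
      · subst h4; simpa using hs
      · simpa [h4, h5] using hc.miss i (by omega)
    · intro i hi
      by_cases h4 : i = l
      · subst h4; simp
      · have h5 : i + 1 ≠ l + 1 := by omega
        simpa [h4] using hc.edge i (by omega)
    · intro i h4 h5
      by_cases h6 : i = l + 1
      · simpa [h6] using h1
      · simpa [h6] using hc.off i h4 (by omega)
    · intro i j h4 h5
      have h7 : i ≠ l + 1 := by omega
      by_cases h6 : j = l + 1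
      · simpa [h6, h7] using h2 i (by omega)
      · simpa [h6, h7] using hc.inj i j h4 (by omega)

end main

theorem stmDF : StmDF := by
  intro V C _ _ _ _ μ x w hxw hnc h3 f hf t t' ht ht' hne γ h1 h2
  have hC : Nonempty C := by
    have h4 := (h3 f hf).1
    have h5 : (univ.filter (fun c => f c x = x)).Nonempty := by
      rw [← Finset.card_pos]; omega
    exact ⟨h5.choose⟩
  obtain ⟨v, c, z, l, hc, rfl⟩ := reach_chain ht
  obtain ⟨v', c', z', l', hc', rfl⟩ := reach_chain ht'
  rcases Nat.eq_zero_or_pos l with hl | hl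
  · subst hl
    rcases Nat.eq_zero_or_pos l' with hl' | hl'
    · subst hl'
      exact near_centres hxw hnc hf hc.start hc'.start hne h1 h2
    · exact fp1_all hxw hnc h3 l' hl' f hf v' c' z' hc' γ h2 (v 0) (Or.inl hc.start) h1
  · rcases Nat.eq_zero_or_pos l' with hl' | hl'
    · subst hl'
      exact fp1_all hxw hnc h3 l hl f hf v c z hc γ h1 (v' 0) (Or.inl hc'.start) h2
    · exact fp2_all hxw hnc h3 (l + l') l l' rfl hl hl' f hf v c z hc v' c' z' hc' hne γ h1 h2

end Pool.Agent.R511.WP
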