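import Pool.Agent.R511.WP.Basic

/-! Kempe chains of different uncoloured edges with a common colour are disjoint. -/

set_option autoImplicit false
set_option linter.unusedSectionVars false
set_option linter.unusedVariables false

namespace Pool.Agent.R511.WP

open Finset

variable {V C : Type}

/-- Move the uncoloured edge: uncolour `q — f c q`, colour `p — q` with `c`. -/
def mv [DecidableEq V] [DecidableEq C] (f : C → V → V) (c : C) (p q : V) : C → V → V :=
  link (unlink f c q (f c q)) c p q

section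
variable [DecidableEq V] [DecidableEq C]

lemma mv_other (f : C → V → V) {c d : C} (p q : V) (h : d ≠ c) : mv f c p q d = f d := by
  funext v
  simp [mv, link, unlink, h]

lemma mv_p (f : C → V → V) {c : C} {p q : V} : mv f c p q c p = q := by
  simp [mv, link]

lemma mv_q (f : C → V → V) {c : C} {p q : V} (hpq : p ≠ q) : mv f c p q c q = p := by
  simp [mv, link, hpq.symm]

lemma mv_r (f : C → V → V) {c : C} {p q : V} (hp : f c p = p) (hq : f c q ≠ q) (hf : Inv f)
    (hpq : p ≠ q) : mv f c p q c (f c q) = f c q := by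
  have h1 : f c q ≠ p := by
    intro h
    have := hf c q
    rw [h, hp] at this
    exact hpq this
  simp [mv, link, unlink, h1, hq]

lemma mv_else (f : C → V → V) {c : C} {p q u : V} (h1 : u ≠ p) (h2 : u ≠ q) (h3 : u ≠ f c q) :
    mv f c p q c u = f c u := by
  simp [mv, link, unlink, h1, h2, h3]

end

section
variable [Fintype V] [DecidableEq V] [Fintype C] [DecidableEq C]

lemma mv_inv {f : C → V → V} (hf : Inv f) {c : C} {p q : V} (hp : f c p = p) (hq : f c q ≠ q)
    (hpq : p ≠ q) : Inv (mv f c p q) := by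
  have h1 : f c q ≠ p := by
    intro h
    have := hf c q
    rw [h, hp] at this
    exact hpq this
  refine inv_link (inv_unlink hf rfl) ?_ ?_
  · simp [unlink, hpq, h1.symm, hp]
  · simp [unlink]

lemma mv_cnt {f : C → V → V} (hf : Inv f) {c : C} {p q : V} (hp : f c p = p) (hq : f c q ≠ q)
    (hpq : p ≠ q) {u w : V} (huw : u ≠ w) :
    cnt (mv f c p q) u w + (if Pr u w q (f c q) then 1 else 0)
      = cnt f u w + (if Pr u w p q then 1 else 0) := by
  have h1 : f c q ≠ p := by
    intro h
    have := hf c q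
    rw [h, hp] at this
    exact hpq this
  have e1 : cnt (mv f c p q) u w = cnt (unlink f c q (f c q)) u w
      + (if Pr u w p q then 1 else 0) := by
    refine cnt_link hpq ?_ ?_ u w huw
    · simp [unlink, hpq, h1.symm, hp]
    · simp [unlink]
  have e2 := cnt_unlink hf (c := c) (x := q) (y := f c q) (Ne.symm hq) rfl u w huw
  omega

lemma mv_tot {f : C → V → V} (hf : Inv f) {c : C} {p q : V} (hp : f c p = p) (hq : f c q ≠ q)
    (hpq : p ≠ q) : tot (mv f c p q) = tot f := by
  have h1 : f c q ≠ p := by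
    intro h
    have := hf c q
    rw [h, hp] at this
    exact hpq this
  have e1 : tot (mv f c p q) = tot (unlink f c q (f c q)) + 2 := by
    refine tot_link hpq ?_ ?_
    · simp [unlink, hpq, h1.symm, hp]
    · simp [unlink]
  have e2 := tot_unlink hf (c := c) (x := q) (y := f c q) (Ne.symm hq) rfl
  omega

/-- The states reached by moving the uncoloured edge around the odd cycle. -/
inductive St (f : C → V → V) (a b : C) (x y : V) : (C → V → V) → V → V → Prop
  | base : St f a b x y f x y
  | A {g : C → V → V} {x1 y1 : V} : St f a b x y g x1 y1 →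
      St f a b x y (mv g a x1 y1) (g a y1) y1
  | B {g : C → V → V} {x1 y1 : V} : St f a b x y g x1 y1 →
      St f a b x y (mv g b y1 x1) x1 (g b x1)

/-- The invariants of the states. -/
structure StI (μ : V → V → ℕ) (f : C → V → V) (a b : C) (x y : V) (g : C → V → V)
    (x1 y1 : V) : Prop where
  inv : Inv g
  other : ∀ d, d ≠ a → d ≠ b → g d = f d
  out : ∀ u, ¬ Orb (f a) (f b) x u → g a u = f a u ∧ g b u = f b u
  x1S : Orb (f a) (f b) x x1
  y1S : Orb (f a) (f b) x y1
  clA : ∀ u, Orb (f a) (f b) x u → Orb (f a) (f b) x (g a u)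
  clB : ∀ u, Orb (f a) (f b) x u → Orb (f a) (f b) x (g b u)
  gx : g a x1 = x1
  gy : g b y1 = y1
  ne : x1 ≠ y1
  cn : ∀ u w, u ≠ w → cnt g u w + (if Pr u w x1 y1 then 1 else 0)
    = cnt f u w + (if Pr u w x y then 1 else 0)
  tt : tot g = tot f

lemma Pr_comm {u w x y : V} : Pr u w x y ↔ Pr u w y x := by
  unfold Pr; tauto

lemma Pr_comm' {u w x y : V} : Pr u w x y ↔ Pr w u x y := by
  unfold Pr; tauto

lemma StI.valid {μ : V → V → ℕ} (hμ : ∀ u v, μ u v = μ v u) {f : C → V → V} (hf : Maxl μ f)
    {a b : C} {x y : V} (hc : cnt f x y < μ x y) (hxy : x ≠ y)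
    {g : C → V → V} {x1 y1 : V} (h : StI μ f a b x y g x1 y1) : Maxl μ g := by
  refine ⟨⟨h.inv, fun u w huw => ?_⟩, fun k hk => ?_⟩
  · have e := h.cn u w huw
    have h1 := hf.1.2 u w huw
    by_cases hP : Pr u w x y
    · rw [if_pos hP] at e
      have h2 : cnt f u w < μ u w := by
        rcases hP with ⟨rfl, rfl⟩ | ⟨rfl, rfl⟩
        · exact hc
        · have e3 : cnt f w u = cnt f u w := by
            unfold cnt
            congr 1
            ext c
            simp only [mem_filter, mem_univ, true_and]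
            constructor
            · intro h; rw [← h]; exact hf.1.1 _ _
            · intro h; rw [← h]; exact hf.1.1 _ _
          rw [e3, hμ] at hc
          exact hc
      omega
    · rw [if_neg hP] at e
      omega
  · rw [h.tt]; exact hf.2 k hk

lemma StI.cnt_lt {μ : V → V → ℕ} {f : C → V → V} (hμ : ∀ u v, μ u v = μ v u) (hf : Maxl μ f)
    {a b : C} {x y : V} (hc : cnt f x y < μ x y) (hxy : x ≠ y)
    {g : C → V → V} {x1 y1 : V} (h : StI μ f a b x y g x1 y1) : cnt g x1 y1 < μ x1 y1 := by
  have e := h.cn x1 y1 h.ne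
  have hP0 : Pr x1 y1 x1 y1 := Or.inl ⟨rfl, rfl⟩
  rw [if_pos hP0] at e
  by_cases hP : Pr x1 y1 x y
  · rw [if_pos hP] at e
    rcases hP with ⟨h1, h2⟩ | ⟨h1, h2⟩
    · rw [h1, h2] at e ⊢
      omega
    · have e3 : cnt f y x = cnt f x y := by
        unfold cnt
        congr 1
        ext c
        simp only [mem_filter, mem_univ, true_and]
        constructor
        · intro h; rw [← h]; exact hf.1.1 _ _
        · intro h; rw [← h]; exact hf.1.1 _ _
      rw [h1, h2] at e ⊢
      rw [e3] at e
      rw [hμ]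
      omega
  · rw [if_neg hP] at e
    have h1 := hf.1.2 x1 y1 h.ne
    omega

lemma St.toI {μ : V → V → ℕ} (hμ : ∀ u v, μ u v = μ v u) {f : C → V → V} (hf : Maxl μ f)
    {a b : C} {x y : V} (hc : cnt f x y < μ x y) (hxy : x ≠ y) (hab : a ≠ b)
    (hx : f a x = x) (hy : f b y = y)
    {g : C → V → V} {x1 y1 : V} (h : St f a b x y g x1 y1) : StI μ f a b x y g x1 y1 := by
  induction h with
  | base =>
    exact ⟨hf.1.1, fun _ _ _ => rfl, fun _ _ => ⟨rfl, rfl⟩, Orb.base, Maxl.linked hμ hf hxy hc hx hy,
      fun u hu => hu.left, fun u hu => hu.right, hx, hy, hxy, fun _ _ _ => rfl, rfl⟩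
  | @A g x1 y1 _ ih =>
    have hM := ih.valid hμ hf hc hxy
    have hlt := ih.cnt_lt hμ hf hc hxy
    have hne : g a y1 ≠ y1 := Maxl.not_both hμ hM ih.ne hlt (c := a) ih.gx
    have hr1 : Orb (f a) (f b) x (g a y1) := ih.clA _ ih.y1S
    have hrx : g a y1 ≠ x1 := by
      intro h
      have := ih.inv a y1
      rw [h, ih.gx] at this
      exact ih.ne this
    refine ⟨mv_inv ih.inv ih.gx hne ih.ne, ?_, ?_, hr1, ih.y1S, ?_, ?_, ?_, ?_, hne, ?_, ?_⟩
    · intro d hd1 hd2
      rw [mv_other g x1 y1 hd1]
      exact ih.other d hd1 hd2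
    · intro u hu
      constructor
      · rw [mv_else]
        · exact (ih.out u hu).1
        · rintro rfl; exact hu ih.x1S
        · rintro rfl; exact hu ih.y1S
        · rintro rfl; exact hu hr1
      · rw [mv_other g x1 y1 hab.symm]
        exact (ih.out u hu).2
    · intro u hu
      by_cases h1 : u = x1
      · rw [h1, mv_p]; exact ih.y1S
      by_cases h2 : u = y1
      · rw [h2, mv_q g ih.ne]; exact ih.x1S
      by_cases h3 : u = g a y1
      · rw [h3, mv_r g ih.gx hne ih.inv ih.ne]; exact hr1
      · rw [mv_else g h1 h2 h3]; exact ih.clA u hu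
    · intro u hu
      rw [mv_other g x1 y1 hab.symm]
      exact ih.clB u hu
    · exact mv_r g ih.gx hne ih.inv ih.ne
    · rw [mv_other g x1 y1 hab.symm]; exact ih.gy
    · intro u w huw
      have e1 := mv_cnt ih.inv ih.gx hne ih.ne huw
      have e2 := ih.cn u w huw
      have e3 : (if Pr u w (g a y1) y1 then 1 else 0) = (if Pr u w y1 (g a y1) then 1 else 0) := by
        simp only [Pr_comm (x := y1)]
      rw [e3, e1, e2]
    · rw [mv_tot ih.inv ih.gx hne ih.ne]; exact ih.tt
  | @B g x1 y1 _ ih =>
    have hM := ih.valid hμ hf hc hxy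
    have hlt := ih.cnt_lt hμ hf hc hxy
    have hne : g b x1 ≠ x1 := fun h => Maxl.not_both hμ hM ih.ne hlt (c := b) h ih.gy
    have hr1 : Orb (f a) (f b) x (g b x1) := ih.clB _ ih.x1S
    have hrx : g b x1 ≠ y1 := by
      intro h
      have := ih.inv b x1
      rw [h, ih.gy] at this
      exact ih.ne this.symm
    refine ⟨mv_inv ih.inv ih.gy hne ih.ne.symm, ?_, ?_, ih.x1S, hr1, ?_, ?_, ?_, ?_, hne.symm, ?_, ?_⟩
    · intro d hd1 hd2
      rw [mv_other g y1 x1 hd2]
      exact ih.other d hd1 hd2
    · intro u hu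
      constructor
      · rw [mv_other g y1 x1 hab]
        exact (ih.out u hu).1
      · rw [mv_else]
        · exact (ih.out u hu).2
        · rintro rfl; exact hu ih.y1S
        · rintro rfl; exact hu ih.x1S
        · rintro rfl; exact hu hr1
    · intro u hu
      rw [mv_other g y1 x1 hab]
      exact ih.clA u hu
    · intro u hu
      by_cases h1 : u = y1
      · rw [h1, mv_p]; exact ih.x1S
      by_cases h2 : u = x1
      · rw [h2, mv_q g ih.ne.symm]; exact ih.y1S
      by_cases h3 : u = g b x1
      · rw [h3, mv_r g ih.gy hne ih.inv ih.ne.symm]; exact hr1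
      · rw [mv_else g h1 h2 h3]; exact ih.clB u hu
    · rw [mv_other g y1 x1 hab]; exact ih.gx
    · exact mv_r g ih.gy hne ih.inv ih.ne.symm
    · intro u w huw
      have e1 := mv_cnt ih.inv ih.gy hne ih.ne.symm huw
      have e2 := ih.cn u w huw
      have e3 : (if Pr u w y1 x1 then 1 else 0) = (if Pr u w x1 y1 then 1 else 0) := by
        simp only [Pr_comm (x := y1)]
      rw [e1, e3, e2]
    · rw [mv_tot ih.inv ih.gy hne ih.ne.symm]; exact ih.tt

/-- the number of cycle edges between two vertices -/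
def cab (f : C → V → V) (a b : C) (x y u w : V) : ℕ :=
  (if f a u = w then 1 else 0) + (if f b u = w then 1 else 0) + (if Pr u w x y then 1 else 0)

lemma cnt_split (f : C → V → V) {a b : C} (hab : a ≠ b) (u w : V) :
    cnt f u w = (if f a u = w then 1 else 0) + (if f b u = w then 1 else 0)
      + (univ.filter (fun d => (d ≠ a ∧ d ≠ b) ∧ f d u = w)).card := by
  unfold cnt
  have h1 : (univ.filter (fun c => f c u = w)) =
      ((univ.filter (fun c => c = a ∧ f a u = w)) ∪ (univ.filter (fun c => c = b ∧ f b u = w)))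
        ∪ (univ.filter (fun d => (d ≠ a ∧ d ≠ b) ∧ f d u = w)) := by
    ext c
    simp only [mem_union, mem_filter, mem_univ, true_and]
    constructor
    · intro h
      by_cases h1 : c = a
      · left; left; exact ⟨h1, h1 ▸ h⟩
      by_cases h2 : c = b
      · left; right; exact ⟨h2, h2 ▸ h⟩
      right; exact ⟨⟨h1, h2⟩, h⟩
    · rintro ((⟨rfl, h⟩ | ⟨rfl, h⟩) | ⟨_, h⟩) <;> exact h
  have hone : ∀ (e : C) (P : Prop) [Decidable P],
      (univ.filter (fun c => c = e ∧ P)).card = if P then 1 else 0 := by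
    intro e P _
    by_cases hP : P
    · simp [hP, Finset.filter_eq']
    · simp [hP]
  rw [h1, card_union_of_disjoint, card_union_of_disjoint, hone, hone]
  · rw [Finset.disjoint_left]
    intro c h1 h2
    simp only [mem_filter, mem_univ, true_and] at h1 h2
    exact hab (h1.1.symm.trans h2.1)
  · rw [Finset.disjoint_left]
    intro c h1 h2
    simp only [mem_union, mem_filter, mem_univ, true_and] at h1 h2
    rcases h1 with h1 | h1
    · exact h2.1.1 h1.1
    · exact h2.1.2 h1.1

lemma StI.cab_eq {μ : V → V → ℕ} {f : C → V → V} {a b : C} {x y : V} (hab : a ≠ b)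
    {g : C → V → V} {x1 y1 : V} (h : StI μ f a b x y g x1 y1) {u w : V} (huw : u ≠ w) :
    cab g a b x1 y1 u w = cab f a b x y u w := by
  have e := h.cn u w huw
  rw [cnt_split g hab, cnt_split f hab] at e
  have e2 : (univ.filter (fun d => (d ≠ a ∧ d ≠ b) ∧ g d u = w))
      = (univ.filter (fun d => (d ≠ a ∧ d ≠ b) ∧ f d u = w)) := by
    ext d
    simp only [mem_filter, mem_univ, true_and]
    constructor
    · rintro ⟨h1, h2⟩; exact ⟨h1, by rw [← h.other d h1.1 h1.2]; exact h2⟩
    · rintro ⟨h1, h2⟩; exact ⟨h1, by rw [h.other d h1.1 h1.2]; exact h2⟩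
  rw [e2] at e
  unfold cab
  omega

/-- Rotation: the uncoloured edge can be moved to every vertex of the odd cycle. -/
lemma rotation {μ : V → V → ℕ} (hμ : ∀ u v, μ u v = μ v u) {f : C → V → V} (hf : Maxl μ f)
    {a b : C} {x y : V} (hc : cnt f x y < μ x y) (hxy : x ≠ y) (hab : a ≠ b)
    (hx : f a x = x) (hy : f b y = y) {v : V} (hv : Orb (f a) (f b) x v) :
    ∃ g y', StI μ f a b x y g v y' := by
  classical
  have hI : ∀ {g x1 y1}, St f a b x y g x1 y1 → StI μ f a b x y g x1 y1 := fun h =>
    h.toI hμ hf hc hxy hab hx hy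
  let X : V → Prop := fun v => ∃ g y1, St f a b x y g v y1
  let Y : V → Prop := fun v => ∃ g x1, St f a b x y g x1 v
  -- neighbours
  have hXY : ∀ v u, v ≠ u → X v → 0 < cab f a b x y v u → Y u := by
    rintro v u hvu ⟨g, y1, hs⟩ hcab
    rw [← (hI hs).cab_eq hab hvu] at hcab
    unfold cab at hcab
    by_cases h1 : g b v = u
    · exact ⟨_, _, h1 ▸ hs.B⟩
    by_cases h2 : Pr v u v y1
    · rcases h2 with ⟨_, h2⟩ | ⟨h2, _⟩
      · rw [h2]; exact ⟨g, v, hs⟩
      · exact absurd h2 (hI hs).ne
    · have h3 : g a v ≠ u := by rw [(hI hs).gx]; exact hvu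
      simp [h1, h2, h3] at hcab
  have hYX : ∀ v u, v ≠ u → Y v → 0 < cab f a b x y v u → X u := by
    rintro v u hvu ⟨g, x1, hs⟩ hcab
    rw [← (hI hs).cab_eq hab hvu] at hcab
    unfold cab at hcab
    by_cases h1 : g a v = u
    · exact ⟨_, _, h1 ▸ hs.A⟩
    by_cases h2 : Pr v u x1 v
    · rcases h2 with ⟨h2, _⟩ | ⟨_, h2⟩
      · exact absurd h2.symm (hI hs).ne
      · rw [h2]; exact ⟨g, v, hs⟩
    · have h3 : g b v ≠ u := by rw [(hI hs).gy]; exact hvu
      simp [h1, h2, h3] at hcab
  have hXx : X x := ⟨f, y, St.base⟩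
  have hYy : Y y := ⟨f, x, St.base⟩
  have hfa : ∀ v, 0 < cab f a b x y v (f a v) := fun v => by simp [cab]
  have hfb : ∀ v, 0 < cab f a b x y v (f b v) := fun v => by
    unfold cab; rw [if_pos (rfl : f b v = f b v)]; omega
  have hXS : ∀ v, X v → Orb (f a) (f b) x v := by
    rintro v ⟨g, y1, hs⟩; exact (hI hs).x1S
  have hYS : ∀ v, Y v → Orb (f a) (f b) x v := by
    rintro v ⟨g, x1, hs⟩; exact (hI hs).y1S
  have hyS : Orb (f a) (f b) x y := hYS y hYy
  -- the only fixed points
  have hfixa : ∀ v, Orb (f a) (f b) x v → f a v = v → v = x := by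
    intro v hv hav
    by_contra hne
    have hvy : v ≠ y := by
      rintro rfl
      exact Maxl.not_both hμ hf hxy hc (c := a) hx hav
    exact orb_three (hf.1.1 a) (hf.1.1 b) hxy (Ne.symm hne) hvy.symm (Or.inl hx) (Or.inr hy)
      (Or.inl hav) hyS hv
  have hfixb : ∀ v, Orb (f a) (f b) x v → f b v = v → v = y := by
    intro v hv hbv
    by_contra hne
    have hvx : v ≠ x := by
      rintro rfl
      exact Maxl.not_both hμ hf hxy hc (c := b) hbv hy
    exact orb_three (hf.1.1 a) (hf.1.1 b) hxy hvx.symm (Ne.symm hne) (Or.inl hx) (Or.inr hy)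
      (Or.inr hbv) hyS hv
  -- parity
  have hmeet : ∃ v, X v ∧ Y v := by
    by_contra hcon
    push Not at hcon
    have hA1 : ∀ v, X v → v ≠ x → Y (f a v) := fun v hv hvx =>
      hXY v (f a v) (fun h => hvx (hfixa v (hXS v hv) h.symm)) hv (hfa v)
    have hA2 : ∀ v, Y v → X (f a v) := fun v hv =>
      hYX v (f a v) (fun h => hcon v ((hfixa v (hYS v hv) h.symm) ▸ hXx) hv) hv (hfa v)
    have hB1 : ∀ v, X v → Y (f b v) := fun v hv =>
      hXY v (f b v) (fun h => hcon v hv ((hfixb v (hXS v hv) h.symm) ▸ hYy)) hv (hfb v)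
    have hB2 : ∀ v, Y v → v ≠ y → X (f b v) := fun v hv hvy =>
      hYX v (f b v) (fun h => hvy (hfixb v (hYS v hv) h.symm)) hv (hfb v)
    have hc1 : (univ.filter fun v => X v ∧ v ≠ x).card = (univ.filter Y).card := by
      refine Finset.card_bij' (fun v _ => f a v) (fun v _ => f a v) ?_ ?_ ?_ ?_
      · intro v hv
        simp only [mem_filter, mem_univ, true_and] at hv ⊢
        exact hA1 v hv.1 hv.2
      · intro v hv
        simp only [mem_filter, mem_univ, true_and] at hv ⊢
        refine ⟨hA2 v hv, ?_⟩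
        intro h
        have e : v = x := by
          have := hf.1.1 a v
          rw [h, hx] at this
          exact this.symm
        rw [e] at hv
        exact hcon x hXx hv
      · intro v _; exact hf.1.1 a v
      · intro v _; exact hf.1.1 a v
    have hc2 : (univ.filter X).card = (univ.filter fun v => Y v ∧ v ≠ y).card := by
      refine Finset.card_bij' (fun v _ => f b v) (fun v _ => f b v) ?_ ?_ ?_ ?_
      · intro v hv
        simp only [mem_filter, mem_univ, true_and] at hv ⊢
        refine ⟨hB1 v hv, ?_⟩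
        intro h
        have e : v = y := by
          have := hf.1.1 b v
          rw [h, hy] at this
          exact this.symm
        rw [e] at hv
        exact hcon y hv hYy
      · intro v hv
        simp only [mem_filter, mem_univ, true_and] at hv ⊢
        exact hB2 v hv.1 hv.2
      · intro v _; exact hf.1.1 b v
      · intro v _; exact hf.1.1 b v
    have hc3 : (univ.filter fun v => X v ∧ v ≠ x).card < (univ.filter X).card := by
      refine Finset.card_lt_card ⟨fun v hv => ?_, fun h => ?_⟩
      · simp only [mem_filter, mem_univ, true_and] at hv ⊢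
        exact hv.1
      · have := h (show x ∈ univ.filter X by simp only [mem_filter, mem_univ, true_and]; exact hXx)
        simp only [mem_filter, mem_univ, true_and] at this
        exact this.2 rfl
    have hc4 : (univ.filter fun v => Y v ∧ v ≠ y).card < (univ.filter Y).card := by
      refine Finset.card_lt_card ⟨fun v hv => ?_, fun h => ?_⟩
      · simp only [mem_filter, mem_univ, true_and] at hv ⊢
        exact hv.1
      · have := h (show y ∈ univ.filter Y by simp only [mem_filter, mem_univ, true_and]; exact hYy)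
        simp only [mem_filter, mem_univ, true_and] at this
        exact this.2 rfl
    omega
  obtain ⟨z0, hz1, hz2⟩ := hmeet
  have hz0v : Orb (f a) (f b) z0 v :=
    orb_trans (orb_symm (hf.1.1 a) (hf.1.1 b) (hXS z0 hz1)) hv
  have hall : ∀ u, Orb (f a) (f b) z0 u → X u ∧ Y u := by
    intro u hu
    induction hu with
    | base => exact ⟨hz1, hz2⟩
    | @left u _ ih =>
      by_cases h : f a u = u
      · rw [h]; exact ih
      · exact ⟨hYX u _ (Ne.symm h) ih.2 (hfa u), hXY u _ (Ne.symm h) ih.1 (hfa u)⟩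
    | @right u _ ih =>
      by_cases h : f b u = u
      · rw [h]; exact ih
      · exact ⟨hYX u _ (Ne.symm h) ih.2 (hfb u), hXY u _ (Ne.symm h) ih.1 (hfb u)⟩
  obtain ⟨g, y1, hs⟩ := (hall v hz0v).1
  exact ⟨g, y1, hI hs⟩

end

/-- reachable without entering `S` -/
inductive DD (p q : V → V) (S : V → Prop) (z : V) : V → Prop
  | base : DD p q S z z
  | left {u : V} : DD p q S z u → ¬ S (p u) → DD p q S z (p u)
  | right {u : V} : DD p q S z u → ¬ S (q u) → DD p q S z (q u)

theorem stmDL : StmDL := by
  intro V C _ _ _ _ μ hμ f hf x y z w a b c hxy hcxy hzw hczw hP hxz hax hby haz hcw v0 hv1 hv2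
  have hab : a ≠ b := by
    rintro rfl
    exact Maxl.not_both hμ hf hxy hcxy (c := a) hax hby
  have hac : a ≠ c := by
    rintro rfl
    exact Maxl.not_both hμ hf hzw hczw (c := a) haz hcw
  have hyz : y ≠ z := by
    rintro rfl
    exact Maxl.not_both hμ hf hxy hcxy (c := a) hax haz
  have hyS : Orb (f a) (f b) x y := Maxl.linked hμ hf hxy hcxy hax hby
  have hzS : ¬ Orb (f a) (f b) x z := fun h =>
    orb_three (hf.1.1 a) (hf.1.1 b) hxy hxz hyz (Or.inl hax) (Or.inr hby) (Or.inl haz) hyS h
  by_cases hbc : b = c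
  · subst hbc
    exact hzS (orb_trans hv1 (orb_symm (hf.1.1 a) (hf.1.1 b) hv2))
  set S : V → Prop := Orb (f a) (f b) x with hS
  have hSa : ∀ u, S (f a u) → S u := fun u h => by
    have := h.left (p := f a) (q := f b)
    rwa [hf.1.1 a u] at this
  have hDS : ∀ u, DD (f a) (f c) S z u → ¬ S u := by
    intro u hu
    cases hu with
    | base => exact hzS
    | left _ h => exact h
    | right _ h => exact h
  -- Step 1
  obtain ⟨u0, hu0, hu0S⟩ : ∃ u, DD (f a) (f c) S z u ∧ S (f c u) := by
    by_contra hcon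
    push Not at hcon
    have hall : ∀ u, Orb (f a) (f c) z u → DD (f a) (f c) S z u := by
      intro u hu
      induction hu with
      | base => exact DD.base
      | @left u _ ih => exact ih.left (fun h => hDS u ih (hSa u h))
      | @right u _ ih => exact ih.right (hcon u ih)
    exact hDS v0 (hall v0 hv2) hv1
  -- Step 2
  obtain ⟨g, y', hg⟩ := rotation hμ hf hcxy hxy hab hax hby hu0S
  -- Step 3
  have hgM := hg.valid hμ hf hcxy hxy
  have hgc : g c = f c := hg.other c (Ne.symm hac) (Ne.symm hbc)
  have hD' : ∀ u, DD (f a) (f c) S z u → Orb (g a) (g c) z u := by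
    intro u hu
    induction hu with
    | base => exact Orb.base
    | @left u hu _ ih =>
      rw [← (hg.out u (hDS u hu)).1]
      exact ih.left
    | @right u _ _ ih =>
      rw [← hgc]
      exact ih.right
  have hvO : Orb (g a) (g c) z (f c u0) := by
    rw [← hgc]
    exact (hD' u0 hu0).right
  have hgz : g a z = z := by rw [(hg.out z hzS).1]; exact haz
  have hgw : g c w = w := by rw [hgc]; exact hcw
  have hzv : z ≠ f c u0 := by
    intro h
    rw [h] at hzS
    exact hzS hu0S
  have hwv : w ≠ f c u0 := by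
    intro h
    have h1 := hf.1.1 c u0
    rw [← h, hcw] at h1
    have h2 : ¬ S w := h1 ▸ hDS u0 hu0
    exact h2 (h ▸ hu0S)
  have hcg : cnt g z w < μ z w := by
    have e := hg.cn z w hzw
    have n1 : ¬ Pr z w (f c u0) y' := by
      rintro (⟨h, _⟩ | ⟨h, _⟩)
      · exact hzv h
      · exact hzS (h ▸ hg.y1S)
    have n2 : ¬ Pr z w x y := hP
    rw [if_neg n1, if_neg n2] at e
    omega
  have hlink := Maxl.linked hμ hgM hzw hcg hgz hgw
  exact orb_three (hgM.1.1 a) (hgM.1.1 c) hzv hzw hwv.symm (Or.inl hgz) (Or.inl hg.gx)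
    (Or.inr hgw) hvO hlink

end Pool.Agent.R511.WP
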