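import Mathlib

/-! Definitions for the edge colouring of the wreath product (MP_632be6_co, S09181).

A partial edge colouring of a multigraph on `V` with colours `C` is a family `f : C → V → V` of
involutions: `f c v` is the vertex joined to `v` by the edge of colour `c`, and `f c v = v` means
that the colour `c` is missing at `v`. -/

set_option autoImplicit false

namespace Pool.Agent.R511.WP

open Finset

/-- The unordered pairs `{u, w}` and `{x, y}` agree. -/
def Pr {V : Type} (u w x y : V) : Prop := (u = x ∧ w = y) ∨ (u = y ∧ w = x)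

instance {V : Type} [DecidableEq V] (u w x y : V) : Decidable (Pr u w x y) := by
  unfold Pr; infer_instance

/-- A family of involutions. -/
def Inv {V C : Type} (f : C → V → V) : Prop := ∀ c v, f c (f c v) = v

/-- The number of colours joining `u` to `v`. -/
def cnt {V C : Type} [DecidableEq V] [Fintype C] (f : C → V → V) (u v : V) : ℕ :=
  (univ.filter (fun c => f c u = v)).card

/-- The smallest set containing `x` and closed under `p` and `q` (Kempe chain of `x`). -/
inductive Orb {V : Type} (p q : V → V) (x : V) : V → Prop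
  | base : Orb p q x x
  | left {v : V} : Orb p q x v → Orb p q x (p v)
  | right {v : V} : Orb p q x v → Orb p q x (q v)

/-- Exchange the colours `a` and `b` on the set `S`. -/
def swapOn {V C : Type} [DecidableEq C] (f : C → V → V) (a b : C) (S : V → Prop)
    [DecidablePred S] : C → V → V :=
  fun c v => if S v then (if c = a then f b v else if c = b then f a v else f c v) else f c v

/-- Join `x` and `y` by colour `c` (both should miss it). -/
def link {V C : Type} [DecidableEq V] [DecidableEq C] (f : C → V → V) (c : C) (x y : V) :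
    C → V → V :=
  fun d v => if d = c then (if v = x then y else if v = y then x else f c v) else f d v

/-- Remove colour `c` at `x` and `y` (they should be joined by it). -/
def unlink {V C : Type} [DecidableEq V] [DecidableEq C] (f : C → V → V) (c : C) (x y : V) :
    C → V → V :=
  fun d v => if d = c then (if v = x then x else if v = y then y else f c v) else f d v

/-! ### Part B (`k ≥ 2`) -/

/-- `f` colours all edges of the multigraph `μ` except one edge between `x` and `w`. -/
def Near {V C : Type} [DecidableEq V] [Fintype C] (μ : V → V → ℕ) (x w : V)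
    (f : C → V → V) : Prop :=
  Inv f ∧ ∀ u v, u ≠ v → cnt f u v + (if Pr u v x w then 1 else 0) = μ u v

/-- `f` colours all edges of the multigraph `μ`. -/
def Col {V C : Type} [DecidableEq V] [Fintype C] (μ : V → V → ℕ) (f : C → V → V) : Prop :=
  Inv f ∧ ∀ u v, u ≠ v → cnt f u v = μ u v

/-- Double fans: the vertices reached from `x`, `w` through missing colours, at the centres
`x` and `w`. -/
inductive Reach {V C : Type} (f : C → V → V) (x w : V) : V → Prop
  | left : Reach f x w x
  | right : Reach f x w w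
  | step {s : V} {c : C} {z : V} : Reach f x w s → f c s = s → (z = x ∨ z = w) →
      Reach f x w (f c z)

/-- Double fans are elementary. -/
def StmDF : Prop :=
  ∀ (V C : Type) [Fintype V] [DecidableEq V] [Fintype C] [DecidableEq C]
    (μ : V → V → ℕ) (x w : V), x ≠ w → (¬ ∃ f : C → V → V, Col μ f) →
    (∀ f : C → V → V, Near μ x w f →
      3 ≤ (univ.filter (fun c => f c x = x)).card ∧ 3 ≤ (univ.filter (fun c => f c w = w)).card) →
    ∀ f : C → V → V, Near μ x w f → ∀ t t', Reach f x w t → Reach f x w t' → t ≠ t' →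
      ∀ c, f c t = t → f c t' ≠ t'

/-- The colouring theorem for `k ≥ 2`. -/
def StmB : Prop :=
  ∀ (V : Type) [Fintype V] [DecidableEq V] (ι : Type) [DecidableEq ι]
    (A : SimpleGraph V) [DecidableRel A.Adj] (part : V → ι) (k N : ℕ), 2 ≤ k →
    (∀ v, A.degree v + k * (univ.filter (fun w => part w = part v)).card ≤ N) →
    (∀ v, ∃ w, part w ≠ part v ∧ A.Adj v w) →
    ∃ f : Fin N → V → V, Col (fun u v => (if A.Adj u v then 1 else 0) +
      (if part u = part v then k else 0)) f

/-! ### Part A (`k = 1`) -/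

/-- Valid partial colouring of the multigraph `μ`. -/
def Valid {V C : Type} [DecidableEq V] [Fintype C] (μ : V → V → ℕ) (f : C → V → V) : Prop :=
  Inv f ∧ ∀ u v, u ≠ v → cnt f u v ≤ μ u v

/-- Twice the number of coloured edges. -/
def tot {V C : Type} [Fintype V] [DecidableEq V] [Fintype C] (f : C → V → V) : ℕ :=
  (univ.filter (fun p : C × V => f p.1 p.2 ≠ p.2)).card

/-- A partial colouring with the largest possible number of coloured edges. -/
def Maxl {V C : Type} [Fintype V] [DecidableEq V] [Fintype C] (μ : V → V → ℕ)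
    (f : C → V → V) : Prop :=
  Valid μ f ∧ ∀ g : C → V → V, Valid μ g → tot g ≤ tot f

/-- Linear fans. -/
def StmFL : Prop :=
  ∀ (V C : Type) [Fintype V] [DecidableEq V] [Fintype C] [DecidableEq C]
    (μ : V → V → ℕ), (∀ u v, μ u v = μ v u) →
    ∀ f : C → V → V, Maxl μ f → (∀ v, ∃ c, f c v = v) →
    ∀ x y, x ≠ y → cnt f x y = 0 → 1 ≤ μ x y →
    ∃ v, v ≠ x ∧ 2 ≤ cnt f x v ∧ ∃ g : C → V → V, Valid μ g ∧ tot g = tot f ∧
      ∀ u w, u ≠ w → cnt g u w + (if Pr u w x v then 1 else 0) =
        cnt f u w + (if Pr u w x y then 1 else 0)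

/-- Kempe chains of different uncoloured edges with a common colour are disjoint. -/
def StmDL : Prop :=
  ∀ (V C : Type) [Fintype V] [DecidableEq V] [Fintype C] [DecidableEq C]
    (μ : V → V → ℕ), (∀ u v, μ u v = μ v u) →
    ∀ f : C → V → V, Maxl μ f →
    ∀ (x y z w : V) (a b c : C), x ≠ y → cnt f x y < μ x y → z ≠ w → cnt f z w < μ z w →
    ¬ Pr z w x y → x ≠ z → f a x = x → f b y = y → f a z = z → f c w = w →
    ∀ v, Orb (f a) (f b) x v → ¬ Orb (f a) (f c) z v

/-- Selection of an uncoloured edge whose chain avoids the mates of the other ones. -/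
def StmSEL : Prop :=
  ∀ (V C : Type) [Fintype V] [DecidableEq V] [Fintype C] [DecidableEq C]
    (μ : V → V → ℕ), (∀ u v, μ u v = μ v u) →
    ∀ f : C → V → V, Maxl μ f →
    ∀ (R : Finset (Sym2 V)) (avail : V → Finset C), R.Nonempty →
    (∀ x y, s(x, y) ∈ R → x ≠ y ∧ cnt f x y = 1 ∧ μ x y = 2) →
    (∀ v c, c ∈ avail v → f c v = v) →
    (∀ v, (R.filter (fun e => v ∈ e)).card + 1 ≤ (avail v).card) →
    ∃ x y a b, s(x, y) ∈ R ∧ a ∈ avail x ∧ b ∈ avail y ∧
      ∀ u u', s(u, u') ∈ R → s(u, u') ≠ s(x, y) → Orb (f a) (f b) x u → f a u ≠ u' ∧ f b u ≠ u'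

/-- The invariants of the twisting process on the double cover `V × Bool`. -/
structure TW {V C : Type} [Fintype V] [DecidableEq V] [Fintype C] [DecidableEq C]
    (A B : SimpleGraph V) (f : C → V → V) (R : Finset (Sym2 V)) (avail : V → Finset C)
    (F : C → V × Bool → V × Bool) : Prop where
  inv : Inv F
  covA : ∀ u v s, A.Adj u v → s(u, v) ∉ R → ∃ c, F c (u, s) = (v, s)
  covB : ∀ u v s, B.Adj u v → s(u, v) ∉ R → ∃ c, F c (u, s) = (v, !s)
  free : ∀ v c s, c ∈ avail v → F c (v, s) = (v, s)
  big : ∀ v, (R.filter (fun e => v ∈ e)).card + 1 ≤ (avail v).card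
  mate : ∀ u v c s, s(u, v) ∈ R → f c u = v → (F c (u, s)).1 = v
  clean : ∀ v y c b u s, s(v, y) ∈ R → c ∈ avail v → b ∈ avail y → Orb (f c) (f b) v u →
    (F c (u, s)).1 = f c u ∧ (F b (u, s)).1 = f b u

/-- The multiplicities of the signed multigraph `A ∪ B`. -/
def muAB {V : Type} (A B : SimpleGraph V) [DecidableRel A.Adj] [DecidableRel B.Adj]
    (u v : V) : ℕ := (if A.Adj u v then 1 else 0) + (if B.Adj u v then 1 else 0)

/-- One twisting step. -/
def StmTW : Prop :=
  ∀ (V C : Type) [Fintype V] [DecidableEq V] [Fintype C] [DecidableEq C]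
    (A B : SimpleGraph V) [DecidableRel A.Adj] [DecidableRel B.Adj] (f : C → V → V),
    Maxl (muAB A B) f →
    ∀ (R : Finset (Sym2 V)) (avail : V → Finset C) (F : C → V × Bool → V × Bool),
    (∀ x y, s(x, y) ∈ R → x ≠ y ∧ cnt f x y = 1 ∧ muAB A B x y = 2) →
    (∀ v c, c ∈ avail v → f c v = v) → R.Nonempty → TW A B f R avail F →
    ∃ (R' : Finset (Sym2 V)) (avail' : V → Finset C) (F' : C → V × Bool → V × Bool),
      R' ⊂ R ∧ (∀ v, avail' v ⊆ avail v) ∧ TW A B f R' avail' F'

/-- The colouring theorem for `k = 1`. -/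
def StmA : Prop :=
  ∀ (V : Type) [Fintype V] [DecidableEq V] (A B : SimpleGraph V) [DecidableRel A.Adj]
    [DecidableRel B.Adj] (N : ℕ), (∀ v, A.degree v + B.degree v + 1 ≤ N) →
    ∃ F : Fin N → V × Bool → V × Bool, Inv F ∧
      (∀ u v s, A.Adj u v → ∃ c, F c (u, s) = (v, s)) ∧
      (∀ u v s, B.Adj u v → ∃ c, F c (u, s) = (v, !s)) ∧
      (∀ v s, ∃ c, F c (v, s) = (v, !s))

/-! ### Assembly -/

/-- Adjacency in the (generalised) wreath product. -/
def WAdj {V W : Type} (G : SimpleGraph V) (A : SimpleGraph W) (r : W → W → Prop)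
    (p q : V × W) : Prop :=
  (p.1 = q.1 ∧ A.Adj p.2 q.2) ∨ (G.Adj p.1 q.1 ∧ r p.2 q.2)

/-- The wreath product has a proper edge colouring with `N` colours. -/
def WCol {V W : Type} (G : SimpleGraph V) (A : SimpleGraph W) (r : W → W → Prop)
    (N : ℕ) : Prop :=
  ∃ c : V × W → V × W → ℕ, (∀ p q, c p q = c q p) ∧ (∀ p q, WAdj G A r p q → c p q < N) ∧
    ∀ p q q', WAdj G A r p q → WAdj G A r p q' → q ≠ q' → c p q ≠ c p q'

/-- A proper edge colouring of `G` with `k` colours. -/
def GCol {V : Type} (G : SimpleGraph V) (k : ℕ) (col : V → V → ℕ) : Prop :=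
  (∀ a b, col a b = col b a) ∧ (∀ a b, G.Adj a b → col a b < k) ∧
    ∀ a b b', G.Adj a b → G.Adj a b' → b ≠ b' → col a b ≠ col a b'

/-- Assembly, `k ≥ 2`, every vertex has an `A`-neighbour outside its class. -/
def StmCoreB : Prop :=
  ∀ (V W : Type) [Fintype V] [Fintype W] [DecidableEq V] [DecidableEq W]
    (G : SimpleGraph V) (A : SimpleGraph W) [DecidableRel A.Adj] (r : W → W → Prop)
    [DecidableRel r], Equivalence r → ∀ (k N : ℕ) (col : V → V → ℕ), GCol G k col → 2 ≤ k →
    (∀ x, A.degree x + k * (univ.filter (fun y => r x y)).card ≤ N) →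
    (∀ x, ∃ z, ¬ r x z ∧ A.Adj x z) → WCol G A r N

/-- Assembly, all `A`-edges lie inside the classes. -/
def StmCoreA : Prop :=
  ∀ (V W : Type) [Fintype V] [Fintype W] [DecidableEq V] [DecidableEq W]
    (G : SimpleGraph V) (A : SimpleGraph W) [DecidableRel A.Adj] (r : W → W → Prop)
    [DecidableRel r], Equivalence r → ∀ (k N : ℕ) (col : V → V → ℕ), GCol G k col → 1 ≤ k →
    (∀ x, A.degree x + k * (univ.filter (fun y => r x y)).card ≤ N) →
    (∀ x z, A.Adj x z → r x z) → WCol G A r N

/-- Assembly, `k = 1`. -/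
def StmCore1 : Prop :=
  ∀ (V W : Type) [Fintype V] [Fintype W] [DecidableEq V] [DecidableEq W]
    (G : SimpleGraph V) (A : SimpleGraph W) [DecidableRel A.Adj] (r : W → W → Prop)
    [DecidableRel r], Equivalence r → ∀ (N : ℕ) (col : V → V → ℕ), GCol G 1 col →
    (∀ x, A.degree x + (univ.filter (fun y => r x y)).card ≤ N) → WCol G A r N

/-- The combinatorial core. -/
def StmCore : Prop :=
  ∀ (V W : Type) [Fintype V] [Fintype W] [DecidableEq V] [DecidableEq W]
    (G : SimpleGraph V) (A : SimpleGraph W) [DecidableRel A.Adj] (r : W → W → Prop)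
    [DecidableRel r], Equivalence r → ∀ (k N : ℕ) (col : V → V → ℕ), GCol G k col → 1 ≤ k →
    (∀ x, A.degree x + k * (univ.filter (fun y => r x y)).card ≤ N) →
    (∀ x y, r x y → (∃ z, ¬ r x z ∧ A.Adj x z) → ∃ z, ¬ r y z ∧ A.Adj y z) → WCol G A r N

end Pool.Agent.R511.WP
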