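import Pool.Agent.R511.WP.Defs

/-! WP-FL: linear fans. -/

set_option autoImplicit false

namespace Pool.Agent.R511.WP

open Finset

namespace FLaux

variable {V C : Type}

/-! ### the three endpoint lemma -/

/-- alternating walk from `x` -/
def wk (p q : V → V) (x : V) : ℕ → V
  | 0 => x
  | i + 1 => if Even i then q (wk p q x i) else p (wk p q x i)

lemma orb_wk {p q : V → V} (hp : ∀ v, p (p v) = v) (hq : ∀ v, q (q v) = v) {x : V}
    (hx : p x = x) {u : V} (hu : Orb p q x u) :
    ∃ i, wk p q x i = u ∧ ∀ j < i, wk p q x (j + 1) ≠ wk p q x j := by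
  have step : ∀ i, (∀ j < i, wk p q x (j + 1) ≠ wk p q x j) →
      ∃ i', wk p q x i' = wk p q x (i + 1) ∧ ∀ j < i', wk p q x (j + 1) ≠ wk p q x j := by
    intro i hi
    by_cases h : wk p q x (i + 1) = wk p q x i
    · exact ⟨i, h.symm, hi⟩
    · refine ⟨i + 1, rfl, fun j hj => ?_⟩
      rcases Nat.lt_succ_iff_lt_or_eq.1 hj with h' | h'
      · exact hi j h'
      · rw [h']; exact h
  induction hu with
  | base => exact ⟨0, rfl, fun j hj => absurd hj (Nat.not_lt_zero j)⟩
  | left _ ih =>
    obtain ⟨i, rfl, hi⟩ := ih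
    by_cases he : Even i
    · rcases i with _ | i
      · exact ⟨0, by simp [wk, hx], fun j hj => absurd hj (Nat.not_lt_zero j)⟩
      · have he' : ¬ Even i := fun h => by
          rw [Nat.even_add_one] at he
          exact he h
        refine ⟨i, ?_, fun j hj => hi j (by omega)⟩
        simp only [wk, if_neg he']
        rw [hp]
    · obtain ⟨i', h1, h2⟩ := step i hi
      refine ⟨i', ?_, h2⟩
      rw [h1]
      simp only [wk, if_neg he]
  | right _ ih =>
    obtain ⟨i, rfl, hi⟩ := ih
    by_cases he : Even i
    · obtain ⟨i', h1, h2⟩ := step i hi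
      refine ⟨i', ?_, h2⟩
      rw [h1]
      simp only [wk, if_pos he]
    · rcases i with _ | i
      · exact absurd Even.zero he
      · have he' : Even i := by
          by_contra h
          exact he (by rw [Nat.even_add_one]; exact h)
        refine ⟨i, ?_, fun j hj => hi j (by omega)⟩
        simp only [wk, if_pos he']
        rw [hq]

lemma wk_end {p q : V → V} (hp : ∀ v, p (p v) = v) (hq : ∀ v, q (q v) = v) {x : V} {i : ℕ}
    (hi : ∀ j < i, wk p q x (j + 1) ≠ wk p q x j) (h0 : wk p q x i ≠ x)
    (hf : p (wk p q x i) = wk p q x i ∨ q (wk p q x i) = wk p q x i) :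
    wk p q x (i + 1) = wk p q x i := by
  rcases i with _ | i
  · exact absurd rfl h0
  · have h1 := hi i (Nat.lt_succ_self i)
    by_cases he : Even i
    · have h2 : wk p q x (i + 1) = q (wk p q x i) := by simp only [wk, if_pos he]
      have h3 : ¬ Even (i + 1) := by rw [Nat.even_add_one]; exact fun h => h he
      have h4 : wk p q x (i + 1 + 1) = p (wk p q x (i + 1)) := by
        conv_lhs => rw [wk]
        rw [if_neg h3]
      rw [h4]
      rcases hf with h | h
      · exact h
      · exfalso
        apply h1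
        have : q (wk p q x (i + 1)) = wk p q x i := by rw [h2, hq]
        rw [← h, this]
    · have h2 : wk p q x (i + 1) = p (wk p q x i) := by simp only [wk, if_neg he]
      have h3 : Even (i + 1) := by rw [Nat.even_add_one]; exact he
      have h4 : wk p q x (i + 1 + 1) = q (wk p q x (i + 1)) := by
        conv_lhs => rw [wk]
        rw [if_pos h3]
      rw [h4]
      rcases hf with h | h
      · exfalso
        apply h1
        have : p (wk p q x (i + 1)) = wk p q x i := by rw [h2, hp]
        rw [← h, this]
      · exact h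

lemma orb_three' {p q : V → V} (hp : ∀ v, p (p v) = v) (hq : ∀ v, q (q v) = v) {x y z : V}
    (hx : p x = x) (hxy : y ≠ x) (hxz : z ≠ x) (hyz : y ≠ z)
    (hfy : p y = y ∨ q y = y) (hfz : p z = z ∨ q z = z)
    (hy : Orb p q x y) (hz : Orb p q x z) : False := by
  obtain ⟨i, rfl, hi⟩ := orb_wk hp hq hx hy
  obtain ⟨j, rfl, hj⟩ := orb_wk hp hq hx hz
  have h1 := wk_end hp hq hi hxy hfy
  have h2 := wk_end hp hq hj hxz hfz
  rcases lt_trichotomy i j with h | h | h
  · exact hj i h h1
  · exact hyz (by rw [h])
  · exact hi j h h2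

/-! ### counting -/

variable [DecidableEq V] [Fintype C] [DecidableEq C]

omit [DecidableEq C] in
lemma cnt_symm {f : C → V → V} (hf : Inv f) (u w : V) : cnt f u w = cnt f w u := by
  unfold cnt
  congr 1
  refine filter_congr fun c _ => ?_
  constructor
  · intro h; rw [← h, hf]
  · intro h; rw [← h, hf]

lemma Pr_symm (u w x y : V) : Pr u w x y ↔ Pr w u x y := by
  unfold Pr; tauto

lemma Pr_symm' (u w x y : V) : Pr u w x y ↔ Pr u w y x := by
  unfold Pr; tauto

lemma tot_eq [Fintype V] (f : C → V → V) : tot f = ∑ u : V, ∑ w ∈ univ.erase u, cnt f u w := by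
  have h1 : ∀ u : V, ∑ w ∈ univ.erase u, cnt f u w = (univ.filter (fun c => f c u ≠ u)).card := by
    intro u
    unfold cnt
    rw [← card_biUnion]
    · congr 1
      ext c
      simp
    · intro w _ w' _ hww
      rw [Function.onFun, Finset.disjoint_left]
      intro c hc hc'
      simp only [mem_filter, mem_univ, true_and] at hc hc'
      exact hww (hc.symm.trans hc')
  rw [Finset.sum_congr rfl fun u _ => h1 u]
  unfold tot
  simp only [card_filter]
  rw [Fintype.sum_prod_type_right]

lemma tot_congr [Fintype V] {f g : C → V → V} (h : ∀ u w, u ≠ w → cnt g u w = cnt f u w) :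
    tot g = tot f := by
  rw [tot_eq, tot_eq]
  refine Finset.sum_congr rfl fun u _ => Finset.sum_congr rfl fun w hw => ?_
  exact h u w (Finset.ne_of_mem_erase hw).symm

lemma sum_Pr [Fintype V] {x y : V} (hxy : x ≠ y) :
    ∑ u : V, ∑ w ∈ univ.erase u, (if Pr u w x y then 1 else 0) = 2 := by
  have h1 : ∀ u : V, ∑ w ∈ univ.erase u, (if Pr u w x y then 1 else 0) =
      (if u = x then 1 else 0) + (if u = y then 1 else 0) := by
    intro u
    by_cases hx : u = x
    · subst hx
      rw [if_pos rfl, if_neg hxy, Finset.sum_eq_single y]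
      · rw [if_pos]; exact Or.inl ⟨rfl, rfl⟩
      · intro w _ hw
        rw [if_neg]
        rintro (⟨-, h⟩ | ⟨h, -⟩)
        · exact hw h
        · exact hxy h
      · intro h
        exact absurd (Finset.mem_erase.2 ⟨hxy.symm, mem_univ _⟩) h
    · by_cases hy : u = y
      · subst hy
        rw [if_neg hx, if_pos rfl, Finset.sum_eq_single x]
        · rw [if_pos]; exact Or.inr ⟨rfl, rfl⟩
        · intro w _ hw
          rw [if_neg]
          rintro (⟨h, -⟩ | ⟨-, h⟩)
          · exact hx h
          · exact hw h
        · intro h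
          exact absurd (Finset.mem_erase.2 ⟨hxy, mem_univ _⟩) h
      · rw [if_neg hx, if_neg hy]
        refine Finset.sum_eq_zero fun w _ => if_neg ?_
        rintro (⟨h, -⟩ | ⟨h, -⟩)
        · exact hx h
        · exact hy h
  rw [Finset.sum_congr rfl fun u _ => h1 u, Finset.sum_add_distrib]
  simp

lemma tot_add [Fintype V] {f g : C → V → V} {x y z t : V} (hxy : x ≠ y) (hzt : z ≠ t)
    (h : ∀ u w, u ≠ w → cnt g u w + (if Pr u w x y then 1 else 0) =
      cnt f u w + (if Pr u w z t then 1 else 0)) : tot g = tot f := by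
  have h1 : tot g + 2 = tot f + 2 := by
    conv_lhs => rw [← sum_Pr hxy]
    conv_rhs => rw [← sum_Pr hzt]
    rw [tot_eq, tot_eq, ← Finset.sum_add_distrib, ← Finset.sum_add_distrib]
    refine Finset.sum_congr rfl fun u _ => ?_
    rw [← Finset.sum_add_distrib, ← Finset.sum_add_distrib]
    refine Finset.sum_congr rfl fun w hw => ?_
    exact h u w (Finset.ne_of_mem_erase hw).symm
  omega

lemma tot_add' [Fintype V] {f g : C → V → V} {x y : V} (hxy : x ≠ y)
    (h : ∀ u w, u ≠ w → cnt g u w = cnt f u w + (if Pr u w x y then 1 else 0)) :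
    tot g = tot f + 2 := by
  conv_rhs => rw [← sum_Pr hxy]
  rw [tot_eq, tot_eq, ← Finset.sum_add_distrib]
  refine Finset.sum_congr rfl fun u _ => ?_
  rw [← Finset.sum_add_distrib]
  refine Finset.sum_congr rfl fun w hw => ?_
  exact h u w (Finset.ne_of_mem_erase hw).symm

lemma cnt_update (f : C → V → V) (c : C) (p : V → V) (u w : V) :
    cnt (Function.update f c p) u w + (if f c u = w then 1 else 0) =
      cnt f u w + (if p u = w then 1 else 0) := by
  unfold cnt
  simp only [card_filter]
  rw [← Finset.add_sum_erase _ _ (mem_univ c), ← Finset.add_sum_erase univ (fun d => if f d u = w then 1 else 0) (mem_univ c)]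
  have : ∀ d ∈ univ.erase c, (if Function.update f c p d u = w then 1 else 0) =
      (if f d u = w then 1 else 0) := by
    intro d hd
    rw [Function.update_of_ne (Finset.ne_of_mem_erase hd)]
  rw [Finset.sum_congr rfl this, Function.update_self]
  ring

/-- moving the colour `b` from `{x, v'}` to `{x, v}` -/
def mv (p : V → V) (x v v' : V) : V → V :=
  fun u => if u = x then v else if u = v then x else if u = v' then v' else p u

lemma inv_mv {p : V → V} (hp : ∀ u, p (p u) = u) {x v v' : V} (hxv : x ≠ v) (hxv' : x ≠ v')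
    (hvv : v ≠ v') (h1 : p x = v') (h2 : p v = v) (u : V) : mv p x v v' (mv p x v v' u) = u := by
  have h3 : p v' = x := by rw [← h1, hp]
  unfold mv
  by_cases hux : u = x
  · subst hux; simp [hxv.symm]
  by_cases huv : u = v
  · subst huv; simp [hux]
  by_cases huv' : u = v'
  · subst huv'; simp [hux, huv]
  simp only [if_neg hux, if_neg huv, if_neg huv']
  have h4 : p u ≠ x := fun h => huv' (by rw [← hp u, h, h1])
  have h5 : p u ≠ v := fun h => huv (by rw [← hp u, h, h2])
  have h6 : p u ≠ v' := fun h => hux (by rw [← hp u, h, h3])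
  simp only [if_neg h4, if_neg h5, if_neg h6, hp]

lemma cnt_mv {p : V → V} (hp : ∀ u, p (p u) = u) {x v v' : V} (hxv : x ≠ v) (hxv' : x ≠ v')
    (hvv : v ≠ v') (h1 : p x = v') (h2 : p v = v) (u w : V) (huw : u ≠ w) :
    (if mv p x v v' u = w then 1 else 0) + (if Pr u w x v' then 1 else 0) =
      (if p u = w then 1 else 0) + (if Pr u w x v then 1 else 0) := by
  have h3 : p v' = x := by rw [← h1, hp]
  unfold mv Pr
  by_cases hux : u = x
  · subst hux
    have hwu : w ≠ u := huw.symm
    simp only [h1, true_and, if_true, hwu, and_false, or_false]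
    simp only [eq_comm (a := w)]
    ring
  by_cases huv : u = v
  · subst huv
    simp only [hux, if_false, if_true, h2, huw, false_and, true_and, false_or, hvv,
      eq_comm (a := w), add_zero, zero_add]
  by_cases huv' : u = v'
  · subst huv'
    simp only [hux, huv, if_false, if_true, h3, huw, false_and, true_and, false_or,
      eq_comm (a := w)]
    simp
  simp only [hux, huv, huv', if_false, false_and, or_false]

/-- joining two fixed points -/
def jn (p : V → V) (x y : V) : V → V :=
  fun u => if u = x then y else if u = y then x else p u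

lemma inv_jn {p : V → V} (hp : ∀ u, p (p u) = u) {x y : V} (hxy : x ≠ y)
    (h1 : p x = x) (h2 : p y = y) (u : V) : jn p x y (jn p x y u) = u := by
  unfold jn
  by_cases hux : u = x
  · subst hux; simp [hxy.symm]
  by_cases huy : u = y
  · subst huy; simp [hux]
  simp only [if_neg hux, if_neg huy]
  have h4 : p u ≠ x := fun h => hux (by rw [← hp u, h, h1])
  have h5 : p u ≠ y := fun h => huy (by rw [← hp u, h, h2])
  simp only [if_neg h4, if_neg h5, hp]

lemma cnt_jn {p : V → V} {x y : V} (hxy : x ≠ y)
    (h1 : p x = x) (h2 : p y = y) (u w : V) (huw : u ≠ w) :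
    (if jn p x y u = w then 1 else 0) =
      (if p u = w then 1 else 0) + (if Pr u w x y then 1 else 0) := by
  unfold jn Pr
  by_cases hux : u = x
  · subst hux
    simp only [if_true, h1, huw, if_false, true_and, hxy, false_and, or_false, eq_comm (a := w)]
    simp
  by_cases huy : u = y
  · subst huy
    simp only [hux, if_true, h2, huw, if_false, true_and, false_and, false_or, eq_comm (a := w)]
    simp
  simp only [hux, huy, if_false, false_and, or_false]
  simp

/-! ### fans -/

/-- A linear fan at `x`. -/
structure Fan (f : C → V → V) (x : V) (n : ℕ) (v : ℕ → V) (b : ℕ → C) : Prop where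
  inj : ∀ i ≤ n, ∀ j ≤ n, v i = v j → i = j
  ne : ∀ i ≤ n, v i ≠ x
  miss : ∀ i < n, f (b i) (v i) = v i
  next : ∀ i < n, f (b i) x = v (i + 1)

omit [DecidableEq V] [Fintype C] [DecidableEq C] in
lemma Fan.mono {f : C → V → V} {x : V} {n m : ℕ} {v : ℕ → V} {b : ℕ → C} (h : Fan f x n v b)
    (hm : m ≤ n) : Fan f x m v b :=
  ⟨fun i hi j hj => h.inj i (hi.trans hm) j (hj.trans hm), fun i hi => h.ne i (hi.trans hm),
    fun i hi => h.miss i (hi.trans_le hm), fun i hi => h.next i (hi.trans_le hm)⟩

lemma shift {f : C → V → V} (hf : Inv f) {x : V} {v : ℕ → V} {b : ℕ → C} (n : ℕ)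
    (h : Fan f x n v b) :
    ∃ g : C → V → V, Inv g ∧ (∀ c, (∀ i < n, c ≠ b i) → g c = f c) ∧
      ∀ u w, u ≠ w → cnt g u w + (if Pr u w x (v n) then 1 else 0) =
        cnt f u w + (if Pr u w x (v 0) then 1 else 0) := by
  induction n with
  | zero => exact ⟨f, hf, fun _ _ => rfl, fun _ _ _ => rfl⟩
  | succ n ih =>
    obtain ⟨g, hg, hgf, hgc⟩ := ih (h.mono (Nat.le_succ n))
    have hb : ∀ i < n, b n ≠ b i := by
      intro i hi hbi
      have h1 := h.next n (Nat.lt_succ_self n)
      have h2 := h.next i (by omega)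
      rw [hbi, h2] at h1
      have := h.inj _ (by omega) _ (by omega) h1
      omega
    have hgb := hgf (b n) hb
    have hxv : x ≠ v n := (h.ne n (by omega)).symm
    have hxv' : x ≠ v (n + 1) := (h.ne (n + 1) le_rfl).symm
    have hvv : v n ≠ v (n + 1) := fun hh => by
      have := h.inj _ (by omega) _ (by omega) hh
      omega
    have h1 : g (b n) x = v (n + 1) := by rw [hgb]; exact h.next n (Nat.lt_succ_self n)
    have h2 : g (b n) (v n) = v n := by rw [hgb]; exact h.miss n (Nat.lt_succ_self n)
    refine ⟨Function.update g (b n) (mv (g (b n)) x (v n) (v (n + 1))), ?_, ?_, ?_⟩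
    · intro c u
      by_cases hc : c = b n
      · subst hc
        rw [Function.update_self]
        exact inv_mv (hg _) hxv hxv' hvv h1 h2 u
      · rw [Function.update_of_ne hc]
        exact hg c u
    · intro c hc
      rw [Function.update_of_ne (hc n (Nat.lt_succ_self n))]
      exact hgf c fun i hi => hc i (by omega)
    · intro u w huw
      have e1 := cnt_update g (b n) (mv (g (b n)) x (v n) (v (n + 1))) u w
      have e2 := cnt_mv (hg (b n)) hxv hxv' hvv h1 h2 u w huw
      have e3 := hgc u w huw
      omega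

lemma E1 [Fintype V] {μ : V → V → ℕ} (hμ : ∀ u v, μ u v = μ v u) {f : C → V → V}
    (hf : Maxl μ f) {x : V} {n : ℕ} {v : ℕ → V} {b : ℕ → C} (h : Fan f x n v b)
    (h0 : cnt f x (v 0) < μ x (v 0)) {α : C} (hα : f α x = x) (hα' : f α (v n) = v n) : False := by
  obtain ⟨g, hg, hgf, hgc⟩ := shift hf.1.1 n h
  have hb : ∀ i < n, α ≠ b i := by
    intro i hi hbi
    have h2 := h.next i hi
    rw [← hbi, hα] at h2
    exact h.ne _ (by omega) h2.symm
  have hga := hgf α hb
  have hxv : x ≠ v n := (h.ne n le_rfl).symm
  have hxv0 : x ≠ v 0 := (h.ne 0 (Nat.zero_le _)).symm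
  have hc : ∀ u w, u ≠ w → cnt (Function.update g α (jn (g α) x (v n))) u w =
      cnt f u w + (if Pr u w x (v 0) then 1 else 0) := by
    intro u w huw
    have e1 := cnt_update g α (jn (g α) x (v n)) u w
    have e2 := cnt_jn (p := g α) hxv (by rw [hga]; exact hα) (by rw [hga]; exact hα') u w huw
    have e3 := hgc u w huw
    omega
  have hv : Valid μ (Function.update g α (jn (g α) x (v n))) := by
    refine ⟨?_, ?_⟩
    · intro c u
      by_cases hc : c = α
      · subst hc
        rw [Function.update_self]
        exact inv_jn (hg _) hxv (by rw [hga]; exact hα) (by rw [hga]; exact hα') u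
      · rw [Function.update_of_ne hc]
        exact hg c u
    · intro u w huw
      rw [hc u w huw]
      by_cases hp : Pr u w x (v 0)
      · rw [if_pos hp]
        rcases hp with ⟨rfl, rfl⟩ | ⟨rfl, rfl⟩
        · omega
        · rw [cnt_symm hf.1.1, hμ]; omega
      · rw [if_neg hp]
        exact hf.1.2 u w huw
  have h1 := hf.2 _ hv
  have h2 := tot_add' hxv0 hc
  omega

omit [DecidableEq V] [Fintype C] in
lemma inv_swap {f : C → V → V} (hf : Inv f) {a b : C} {S : V → Prop} [DecidablePred S]
    (hab : a ≠ b) (ha : ∀ u, S u → S (f a u)) (hb : ∀ u, S u → S (f b u)) : Inv (swapOn f a b S) := by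
  have ha' : ∀ u, S (f a u) → S u := fun u h => by simpa [hf a u] using ha _ h
  have hb' : ∀ u, S (f b u) → S u := fun u h => by simpa [hf b u] using hb _ h
  intro c u
  unfold swapOn
  by_cases hS : S u
  · by_cases h1 : c = a
    · subst h1; simp [hS, hb u hS, hf b u]
    · by_cases h2 : c = b
      · subst h2; simp [hS, ha u hS, hf a u, h1]
      · simp [hS, h1, h2, hf c u]
  · by_cases h1 : c = a
    · subst h1
      have : ¬ S (f c u) := fun h => hS (ha' u h)
      simp [hS, this, hf c u]
    · by_cases h2 : c = b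
      · subst h2
        have : ¬ S (f c u) := fun h => hS (hb' u h)
        simp [hS, this, hf c u]
      · simp [hS, h1, h2, hf c u]

lemma cnt_swap {f : C → V → V} {a b : C} {S : V → Prop} [DecidablePred S]
    (hab : a ≠ b) (u w : V) : cnt (swapOn f a b S) u w = cnt f u w := by
  by_cases hS : S u
  · unfold cnt
    refine Finset.card_equiv (Equiv.swap a b) fun c => ?_
    simp only [mem_filter, mem_univ, true_and]
    unfold swapOn
    rw [if_pos hS]
    by_cases h1 : c = a
    · subst h1; simp
    · by_cases h2 : c = b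
      · subst h2; simp [h1]
      · rw [if_neg h1, if_neg h2, Equiv.swap_apply_of_ne_of_ne h1 h2]
  · unfold cnt swapOn
    simp only [if_neg hS]

end FLaux

open FLaux in
theorem stmFL : StmFL := by
  intro V C _ _ _ _ μ hμ f hf hmiss x y hxy hc0 hμ1
  classical
  choose β hβ using hmiss
  let v : ℕ → V := fun i => Nat.rec y (fun _ z => f (β z) x) i
  have hv0 : v 0 = y := rfl
  have hvs : ∀ i, v (i + 1) = f (β (v i)) x := fun i => rfl
  let b : ℕ → C := fun i => β (v i)
  let Good : ℕ → Prop := fun n => (∀ i ≤ n, ∀ j ≤ n, v i = v j → i = j) ∧ ∀ i ≤ n, v i ≠ x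
  have hG0 : Good 0 := by
    refine ⟨fun i hi j hj _ => by omega, fun i hi => ?_⟩
    have : i = 0 := by omega
    rw [this, hv0]
    exact hxy.symm
  have hGN : ∃ n, ¬ Good n := by
    refine ⟨Fintype.card V, fun h => ?_⟩
    have h1 : Function.Injective (fun i : Fin (Fintype.card V + 1) => v i) := by
      intro i j hij
      exact Fin.ext (h.1 i (by omega) j (by omega) hij)
    have := Fintype.card_le_of_injective _ h1
    rw [Fintype.card_fin] at this
    omega
  obtain ⟨n, hn1, hn2⟩ : ∃ n, Good n ∧ ¬ Good (n + 1) := by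
    have h1 := Nat.find_spec hGN
    have h2 : Nat.find hGN ≠ 0 := fun h => by rw [h] at h1; exact h1 hG0
    obtain ⟨m, hm⟩ := Nat.exists_eq_succ_of_ne_zero h2
    refine ⟨m, ?_, ?_⟩
    · have := Nat.find_min hGN (m := m) (by omega)
      exact not_not.1 this
    · rw [hm] at h1; exact h1
  have hFan : Fan f x n v b :=
    ⟨hn1.1, hn1.2, fun i _ => hβ (v i), fun i _ => (hvs i).symm⟩
  have hlt : cnt f x (v 0) < μ x (v 0) := by rw [hv0, hc0]; omega
  have hxne : v (n + 1) ≠ x := by
    intro h
    rw [hvs] at h
    exact E1 hμ hf hFan hlt h (hβ (v n))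
  obtain ⟨j, hj, hjn⟩ : ∃ j ≤ n, v (n + 1) = v j := by
    by_contra hcon
    push Not at hcon
    apply hn2
    refine ⟨fun i hi j hj hij => ?_, fun i hi => ?_⟩
    · rcases Nat.lt_or_ge n i with h1 | h1
      · rcases Nat.lt_or_ge n j with h2 | h2
        · omega
        · have h3 : i = n + 1 := by omega
          rw [h3] at hij
          exact absurd hij (hcon j h2)
      · rcases Nat.lt_or_ge n j with h2 | h2
        · have h3 : j = n + 1 := by omega
          rw [h3] at hij
          exact absurd hij.symm (hcon i h1)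
        · exact hn1.1 i h1 j h2 hij
    · rcases Nat.lt_or_ge n i with h1 | h1
      · have h3 : i = n + 1 := by omega
        rw [h3]
        exact hxne
      · exact hn1.2 i h1
  have hj0 : j ≠ 0 := by
    intro h
    rw [h, hv0, hvs] at hjn
    have h1 : 0 < cnt f x y := by
      unfold cnt
      rw [Finset.card_pos]
      exact ⟨β (v n), by simp [hjn]⟩
    omega
  obtain ⟨i, rfl⟩ := Nat.exists_eq_succ_of_ne_zero hj0
  have hin : i < n := hj
  have hbn : f (b n) x = v (i + 1) := by rw [← hjn]
  have hbi : f (b i) x = v (i + 1) := (hvs i).symm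
  have hne : b i ≠ b n := by
    intro hb
    set α := β x with hα
    have hαx : f α x = x := hβ x
    have hαb : α ≠ b n := by
      intro h
      rw [h, hbn] at hαx
      exact hn1.2 (i + 1) hj hαx
    set O : V → Prop := Orb (f α) (f (b n)) x with hO
    have hcl1 : ∀ u, ¬ O u → ¬ O (f α u) := fun u h h' => h (by
      have := Orb.left h'
      rwa [hf.1.1] at this)
    have hcl2 : ∀ u, ¬ O u → ¬ O (f (b n) u) := fun u h h' => h (by
      have := Orb.right h'
      rwa [hf.1.1] at this)
    have hxO : O x := Orb.base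
    let f' := swapOn f α (b n) (fun u => ¬ O u)
    have hinv : Inv f' := inv_swap hf.1.1 hαb hcl1 hcl2
    have hcnt : ∀ u w, cnt f' u w = cnt f u w := fun u w => cnt_swap hαb u w
    have hmax : Maxl μ f' := by
      refine ⟨⟨hinv, fun u w huw => ?_⟩, fun g hg => ?_⟩
      · rw [hcnt]; exact hf.1.2 u w huw
      · rw [tot_congr (f := f) (g := f') fun u w _ => hcnt u w]
        exact hf.2 g hg
    have hin' : ∀ c u, O u → f' c u = f c u := fun c u hu => by
      simp [f', swapOn, hu]
    have hother : ∀ c, c ≠ α → c ≠ b n → f' c = f c := fun c h1 h2 => by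
      funext u
      simp [f', swapOn, h1, h2]
    have hout : ∀ u, ¬ O u → f' α u = f (b n) u := fun u hu => by
      simp [f', swapOn, hu]
    have hbα : ∀ l < n, b l ≠ α := by
      intro l hl h
      have h1 := hFan.next l hl
      rw [h, hαx] at h1
      exact hn1.2 (l + 1) hl h1.symm
    have hbl : ∀ l < n, l ≠ i → b l ≠ b n := by
      intro l hl hli h
      have h1 := hFan.next l hl
      rw [h, hbn] at h1
      have := hn1.1 _ hj _ hl h1
      omega
    have hlt' : cnt f' x (v 0) < μ x (v 0) := by rw [hcnt]; exact hlt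
    by_cases hvi : O (v i)
    · have hvn : ¬ O (v n) := by
        intro hvn
        refine orb_three' (hf.1.1 α) (hf.1.1 (b n)) hαx (hn1.2 i hin.le) (hn1.2 n le_rfl) ?_
          (Or.inr ?_) (Or.inr ?_) hvi hvn
        · intro h
          have := hn1.1 _ hin.le _ le_rfl h
          omega
        · rw [← hb]; exact hβ (v i)
        · exact hβ (v n)
      have hFan' : Fan f' x n v b := by
        refine ⟨hFan.inj, hFan.ne, fun l hl => ?_, fun l hl => ?_⟩
        · by_cases hli : l = i
          · rw [hli, hin' _ _ hvi]; exact hβ (v i)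
          · rw [hother _ (hbα l hl) (hbl l hl hli)]; exact hβ (v l)
        · exact (hin' _ _ hxO).trans (hFan.next l hl)
      refine E1 hμ hmax hFan' hlt' (α := α) ?_ ?_
      · rw [hin' _ _ hxO, hαx]
      · rw [hout _ hvn]; exact hβ (v n)
    · have hFan' : Fan f' x i v b := by
        have h1 := hFan.mono hin.le
        refine ⟨h1.inj, h1.ne, fun l hl => ?_, fun l hl => ?_⟩
        · rw [hother _ (hbα l (by omega)) (hbl l (by omega) (by omega))]; exact hβ (v l)
        · exact (hin' _ _ hxO).trans (h1.next l hl)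
      refine E1 hμ hmax hFan' hlt' (α := α) ?_ ?_
      · rw [hin' _ _ hxO, hαx]
      · rw [hout _ hvi, ← hb]; exact hβ (v i)
  have h2 : 2 ≤ cnt f x (v (i + 1)) := by
    have h1 : ({b i, b n} : Finset C) ⊆ univ.filter (fun c => f c x = v (i + 1)) := by
      intro c hc
      simp only [Finset.mem_insert, Finset.mem_singleton] at hc
      simp only [mem_filter, mem_univ, true_and]
      rcases hc with rfl | rfl
      · exact hbi
      · exact hbn
    have := Finset.card_le_card h1
    rwa [Finset.card_pair hne] at this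
  have hFanj := hFan.mono hj
  obtain ⟨g, hg, -, hgc⟩ := shift hf.1.1 (i + 1) hFanj
  rw [hv0] at hgc
  refine ⟨v (i + 1), hn1.2 _ hj, h2, g, ⟨hg, ?_⟩, ?_, hgc⟩
  · intro u w huw
    have h3 := hgc u w huw
    by_cases hp : Pr u w x y
    · rw [if_pos hp] at h3
      rcases hp with ⟨rfl, rfl⟩ | ⟨rfl, rfl⟩
      · omega
      · rw [hμ]
        rw [cnt_symm hf.1.1 u w] at h3
        omega
    · rw [if_neg hp] at h3
      have := hf.1.2 u w huw
      omega
  · exact tot_add (hn1.2 _ hj).symm hxy hgc

end Pool.Agent.R511.WP
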