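import Pool.Agent.R511.WP.Defs

/-! The frozen statement `S09181` from the combinatorial core (MP_632be6_co). -/

set_option autoImplicit false
open Classical

namespace Pool.Agent.R511.WP

/-- A proper edge colouring with `K` colours needs `K ≥ maxDegree`. -/
lemma maxDegree_le_of_col {V : Type} [Fintype V] (G : SimpleGraph V) (K : ℕ)
    (c : Sym2 V → Fin K)
    (hc : ∀ e ∈ G.edgeSet, ∀ f ∈ G.edgeSet, e ≠ f → (∃ v, v ∈ e ∧ v ∈ f) → c e ≠ c f) :
    G.maxDegree ≤ K := by
  apply SimpleGraph.maxDegree_le_of_forall_degree_le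
  intro v
  have h : (G.neighborFinset v).card ≤ (Finset.univ : Finset (Fin K)).card := by
    apply Finset.card_le_card_of_injOn (fun w => c s(v, w))
    · intro w _
      exact Finset.mem_coe.2 (Finset.mem_univ _)
    · intro w hw w' hw' he
      by_contra hne
      have hw1 : G.Adj v w := by simpa using hw
      have hw2 : G.Adj v w' := by simpa using hw'
      apply hc s(v, w) (by simpa using hw1) s(v, w') (by simpa using hw2) _ _ he
      · intro h
        apply hne
        rw [Sym2.eq_iff] at h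
        rcases h with h | h
        · exact h.2
        · rw [← h.1, h.2]
      · exact ⟨v, by simp, by simp⟩
  simpa using h

/-- The set of numbers of colours is nonempty, so its infimum is attained. -/
lemma exists_col_sInf {V : Type} [Fintype V] (G : SimpleGraph V) :
    ∃ c : Sym2 V → Fin (sInf {k : ℕ | ∃ c : Sym2 V → Fin k, ∀ e ∈ G.edgeSet, ∀ f ∈ G.edgeSet,
              e ≠ f → (∃ v, v ∈ e ∧ v ∈ f) → c e ≠ c f}), ∀ e ∈ G.edgeSet, ∀ f ∈ G.edgeSet,
              e ≠ f → (∃ v, v ∈ e ∧ v ∈ f) → c e ≠ c f := by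
  have hne : {k : ℕ | ∃ c : Sym2 V → Fin k, ∀ e ∈ G.edgeSet, ∀ f ∈ G.edgeSet,
              e ≠ f → (∃ v, v ∈ e ∧ v ∈ f) → c e ≠ c f}.Nonempty := by
    refine ⟨Fintype.card (Sym2 V), ?_⟩
    refine ⟨Fintype.equivFin (Sym2 V), ?_⟩
    intro e _ f _ hef _ h
    exact hef ((Fintype.equivFin (Sym2 V)).injective h)
  exact Nat.sInf_mem hne

theorem final (hC : StmCore) :
    ∀ (V W : Type) [Fintype V] [Fintype W] (G : SimpleGraph V) (G' : SimpleGraph W)
      (H : SimpleGraph (V × W)),
      H = SimpleGraph.fromRel (fun p q : V × W =>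
            (p.1 = q.1 ∧ G'.Adj p.2 q.2) ∨
            (G.Adj p.1 q.1 ∧ ∃ φ : G' ≃g G', φ p.2 = q.2)) →
      G.edgeSet.Nonempty →
      sInf {k : ℕ | ∃ c : Sym2 V → Fin k, ∀ e ∈ G.edgeSet, ∀ f ∈ G.edgeSet,
              e ≠ f → (∃ v, v ∈ e ∧ v ∈ f) → c e ≠ c f} = G.maxDegree →
      sInf {k : ℕ | ∃ c : Sym2 (V × W) → Fin k, ∀ e ∈ H.edgeSet, ∀ f ∈ H.edgeSet,
              e ≠ f → (∃ v, v ∈ e ∧ v ∈ f) → c e ≠ c f} = H.maxDegree := by
  intro V W _ _ G G' H hH hG hk
  -- the lower bound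
  obtain ⟨cH, hcH⟩ := exists_col_sInf H
  refine le_antisymm ?_ (maxDegree_le_of_col H _ cH hcH)
  -- the upper bound
  set r : W → W → Prop := fun x y => ∃ φ : G' ≃g G', φ x = y with hr
  have hreq : Equivalence r := by
    refine ⟨fun x => ⟨RelIso.refl _, rfl⟩, ?_, ?_⟩
    · rintro x y ⟨φ, hφ⟩
      exact ⟨φ.symm, by rw [← hφ]; simp⟩
    · rintro x y z ⟨φ, hφ⟩ ⟨ψ, hψ⟩
      exact ⟨φ.trans ψ, by rw [← hψ, ← hφ]; rfl⟩
  have hadj : ∀ p q, H.Adj p q ↔ WAdj G G' r p q := by
    intro p q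
    rw [hH, SimpleGraph.fromRel_adj]
    unfold WAdj
    constructor
    · rintro ⟨_, (h | h) | (h | h)⟩
      · exact Or.inl h
      · exact Or.inr h
      · exact Or.inl ⟨h.1.symm, h.2.symm⟩
      · exact Or.inr ⟨h.1.symm, hreq.symm h.2⟩
    · intro h
      refine ⟨?_, Or.inl h⟩
      rintro rfl
      rcases h with h | h
      · exact G'.loopless.irrefl _ h.2
      · exact G.loopless.irrefl _ h.1
  obtain ⟨cG, hcG⟩ : ∃ c : Sym2 V → Fin G.maxDegree, ∀ e ∈ G.edgeSet, ∀ f ∈ G.edgeSet,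
              e ≠ f → (∃ v, v ∈ e ∧ v ∈ f) → c e ≠ c f := by
    rw [← hk]
    exact exists_col_sInf G
  obtain ⟨e0, he0⟩ := hG
  obtain ⟨a, b, hab⟩ : ∃ a b, G.Adj a b := by
    induction e0 using Sym2.ind with
    | _ a b => exact ⟨a, b, by simpa using he0⟩
  have : Nonempty V := ⟨a⟩
  obtain ⟨a0, ha0⟩ := G.exists_maximal_degree_vertex
  have hk1 : 1 ≤ G.maxDegree := by
    have h1 : 1 ≤ G.degree a := by
      rw [Nat.one_le_iff_ne_zero, ← Nat.pos_iff_ne_zero, SimpleGraph.degree_pos_iff_exists_adj]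
      exact ⟨b, hab⟩
    exact h1.trans (G.degree_le_maxDegree a)
  have hdeg : ∀ x, G'.degree x + G.maxDegree * (Finset.univ.filter (fun y => r x y)).card
      ≤ H.maxDegree := by
    intro x
    refine le_trans ?_ (H.degree_le_maxDegree (a0, x))
    have hsub : ((G'.neighborFinset x).image (fun y => ((a0, y) : V × W))) ∪
        ((G.neighborFinset a0) ×ˢ (Finset.univ.filter (fun y => r x y))) ⊆
        H.neighborFinset (a0, x) := by
      intro p hp
      rw [SimpleGraph.mem_neighborFinset, hadj]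
      rcases Finset.mem_union.1 hp with h | h
      · obtain ⟨y, hy, rfl⟩ := Finset.mem_image.1 h
        exact Or.inl ⟨rfl, by simpa using hy⟩
      · rw [Finset.mem_product] at h
        exact Or.inr ⟨by simpa using h.1, by simpa using h.2⟩
    have hdis : Disjoint ((G'.neighborFinset x).image (fun y => ((a0, y) : V × W)))
        ((G.neighborFinset a0) ×ˢ (Finset.univ.filter (fun y => r x y))) := by
      rw [Finset.disjoint_left]
      intro p hp hp2
      obtain ⟨y, hy, rfl⟩ := Finset.mem_image.1 hp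
      rw [Finset.mem_product] at hp2
      have := hp2.1
      simp at this
    have h1 := Finset.card_le_card hsub
    rw [Finset.card_union_of_disjoint hdis, Finset.card_product,
      Finset.card_image_of_injective _ (fun y y' h => (Prod.mk.inj h).2),
      SimpleGraph.card_neighborFinset_eq_degree, SimpleGraph.card_neighborFinset_eq_degree,
      SimpleGraph.card_neighborFinset_eq_degree] at h1
    rw [ha0]
    exact h1
  have hclass : ∀ x y, r x y → (∃ z, ¬ r x z ∧ G'.Adj x z) → ∃ z, ¬ r y z ∧ G'.Adj y z := by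
    rintro x y ⟨φ, hφ⟩ ⟨z, hz1, hz2⟩
    refine ⟨φ z, ?_, ?_⟩
    · intro h
      apply hz1
      have h1 : r x y := ⟨φ, hφ⟩
      have h2 : r z (φ z) := ⟨φ, rfl⟩
      exact hreq.trans h1 (hreq.trans h (hreq.symm h2))
    · rw [← hφ]
      exact φ.map_adj_iff.2 hz2
  have hgcol : GCol G G.maxDegree (fun a b => (cG s(a, b) : ℕ)) := by
    refine ⟨fun a b => by simp only [Sym2.eq_swap (a := a) (b := b)],
      fun a b _ => (cG s(a, b)).2, ?_⟩
    intro a b b' h1 h2 hne he
    refine hcG s(a, b) (by simpa using h1) s(a, b') (by simpa using h2) ?_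
      ⟨a, by simp, by simp⟩ (Fin.ext he)
    intro h
    apply hne
    rw [Sym2.eq_iff] at h
    rcases h with h | h
    · exact h.2
    · rw [← h.1, h.2]
  obtain ⟨c, hc1, hc2, hc3⟩ := hC V W G G' r hreq G.maxDegree H.maxDegree _ hgcol hk1 hdeg hclass
  apply Nat.sInf_le
  by_cases hW : Nonempty W
  · obtain ⟨x0⟩ := hW
    have hN : 0 < H.maxDegree := by
      have h1 := hdeg x0
      have h2 : 0 < (Finset.univ.filter (fun y => r x0 y)).card :=
        Finset.card_pos.2 ⟨x0, by simpa using hreq.refl x0⟩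
      have h3 := Nat.mul_le_mul hk1 h2
      omega
    refine ⟨Sym2.lift ⟨fun p q => if h : c p q < H.maxDegree then ⟨c p q, h⟩ else ⟨0, hN⟩, ?_⟩,
      ?_⟩
    · intro p q
      simp only [hc1 p q]
    · rintro e he f hf hef ⟨v, hve, hvf⟩ h
      obtain ⟨q, rfl⟩ := Sym2.mem_iff_exists.1 hve
      obtain ⟨q', rfl⟩ := Sym2.mem_iff_exists.1 hvf
      have h1 : WAdj G G' r v q := (hadj _ _).1 (by simpa using he)
      have h2 : WAdj G G' r v q' := (hadj _ _).1 (by simpa using hf)
      simp only [Sym2.lift_mk, hc2 _ _ h1, hc2 _ _ h2, dif_pos, Fin.mk.injEq] at h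
      exact hc3 v q q' h1 h2 (fun h => hef (by rw [h])) h
  · refine ⟨fun e => False.elim ?_, ?_⟩
    · induction e using Sym2.ind with
      | _ a b => exact hW ⟨a.2⟩
    · rintro e _ _ _ _ _
      exact False.elim (by
        induction e using Sym2.ind with
        | _ a b => exact hW ⟨a.2⟩)

end Pool.Agent.R511.WP
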