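import Mathlib
import Pool.Agent.R511.WP.Basic

/-! Selection of an uncoloured edge by counting. -/

set_option autoImplicit false

namespace Pool.Agent.R511.WP

open Finset

theorem sel_orb_trans {V : Type} {p q : V → V} {x y z : V} (h : Orb p q x y)
    (h' : Orb p q y z) : Orb p q x z := by
  induction h' with
  | base => exact h
  | left _ ih => exact Orb.left ih
  | right _ ih => exact Orb.right ih

theorem sel_orb_symm {V : Type} {p q : V → V} (hp : ∀ v, p (p v) = v) (hq : ∀ v, q (q v) = v)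
    {x y : V} (h : Orb p q x y) : Orb p q y x := by
  induction h with
  | base => exact Orb.base
  | @left v _ ih =>
    refine sel_orb_trans ?_ ih
    have := Orb.left (p := p) (q := q) (Orb.base (p := p) (q := q) (x := p v))
    rwa [hp] at this
  | @right v _ ih =>
    refine sel_orb_trans ?_ ih
    have := Orb.right (p := p) (q := q) (Orb.base (p := p) (q := q) (x := q v))
    rwa [hq] at this

theorem sel_orb_comm {V : Type} {p q : V → V} {x y : V} (h : Orb p q x y) : Orb q p x y := by
  induction h with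
  | base => exact Orb.base
  | left _ ih => exact Orb.right ih
  | right _ ih => exact Orb.left ih

/-- The edge `h` is hit by the chain of the colour `c` at the vertex `v`. -/
def Hit {V C : Type} (f : C → V → V) (R : Finset (Sym2 V)) (avail : V → Finset C)
    (h : Sym2 V) (v : V) (c : C) : Prop :=
  ∃ u u', h = s(u, u') ∧ f c u = u' ∧ c ∈ avail v ∧
    ∃ y b, s(v, y) ∈ R ∧ b ∈ avail y ∧ Orb (f c) (f b) v u

theorem stmSEL (hDL : StmDL) : StmSEL := by
  intro V C _ _ _ _ μ hsym f hM R avail hne hR hav hbig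
  classical
  by_contra hcon
  push Not at hcon
  have hinv : Inv f := hM.1.1
  -- (1)
  have h1 : ∀ x y a b, s(x, y) ∈ R → a ∈ avail x → b ∈ avail y →
      (∃ h ∈ R, Hit f R avail h x a) ∨ (∃ h ∈ R, Hit f R avail h y b) := by
    intro x y a b hxy ha hb
    obtain ⟨u, u', hu, hne', ho, hf⟩ := hcon x y a b hxy ha hb
    obtain ⟨hx, hc1, hc2⟩ := hR x y hxy
    by_cases h : f a u = u'
    · left
      exact ⟨s(u, u'), hu, u, u', rfl, h, ha, y, b, hxy, hb, ho⟩
    · right
      have h2 := hf h
      refine ⟨s(u, u'), hu, u, u', rfl, h2, hb, x, a, by rwa [Sym2.eq_swap], ha, ?_⟩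
      have hl : Orb (f a) (f b) x y := hM.linked hsym hx (by omega) (hav x a ha) (hav y b hb)
      exact sel_orb_comm (sel_orb_trans (sel_orb_symm (hinv a) (hinv b) hl) ho)
  -- (2)
  have h2 : ∀ h ∈ R, ∀ v c v' c', Hit f R avail h v c → Hit f R avail h v' c' →
      v = v' ∧ c = c' := by
    rintro h hhR v c v' c' ⟨u, u', rfl, hfu, hc, y, b, hvy, hb, ho⟩
      ⟨w, w', hww, hfw, hc', y', b', hvy', hb', ho'⟩
    obtain ⟨hne1, hcu, _⟩ := hR u u' hhR
    -- f c' u = u' and Orb v' u
    have key : f c' u = u' ∧ Orb (f c') (f b') v' u := by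
      rcases Sym2.eq_iff.1 hww with ⟨h3, h4⟩ | ⟨h3, h4⟩
      · subst h3 h4
        exact ⟨hfw, ho'⟩
      · subst h3 h4
        refine ⟨?_, ?_⟩
        · rw [← hfw]; exact hinv _ _
        · have := Orb.left ho'
          rwa [hfw] at this
    have hcc : c = c' := by
      unfold cnt at hcu
      rw [Finset.card_eq_one] at hcu
      obtain ⟨d, hd⟩ := hcu
      have e1 : c ∈ univ.filter (fun c => f c u = u') := by simp [hfu]
      have e2 : c' ∈ univ.filter (fun c => f c u = u') := by simp [key.1]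
      rw [hd, Finset.mem_singleton] at e1 e2
      rw [e1, e2]
    subst hcc
    refine ⟨?_, rfl⟩
    by_contra hvv
    obtain ⟨hy1, hy2, hy3⟩ := hR v y hvy
    obtain ⟨hz1, hz2, hz3⟩ := hR v' y' hvy'
    refine hDL V C μ hsym f hM v y v' y' c b b' hy1 (by omega) hz1 (by omega) ?_ hvv
      (hav v c hc) (hav y b hb) (hav v' c hc') (hav y' b' hb') u ho key.2
    rintro (⟨h3, _⟩ | ⟨h3, _⟩)
    · exact hvv h3.symm
    · subst h3
      exact hM.not_both hsym hy1 (by omega) (hav v c hc) (hav _ c hc')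
  -- (3)
  set Z : Finset V := univ.filter (fun v => ∀ c ∈ avail v, ∃ h ∈ R, Hit f R avail h v c) with hZ
  have h3 : R ⊆ Z.biUnion (fun v => R.filter (fun e => v ∈ e)) := by
    intro e he
    induction e using Sym2.ind with
    | _ x y =>
      rw [Finset.mem_biUnion]
      by_cases hx : x ∈ Z
      · exact ⟨x, hx, by simp [he]⟩
      by_cases hy : y ∈ Z
      · exact ⟨y, hy, by simp [he]⟩
      exfalso
      simp only [hZ, Finset.mem_filter, Finset.mem_univ, true_and] at hx hy
      push Not at hx hy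
      obtain ⟨a, ha, ha'⟩ := hx
      obtain ⟨b, hb, hb'⟩ := hy
      rcases h1 x y a b he ha hb with ⟨h, hh, hH⟩ | ⟨h, hh, hH⟩
      · exact ha' h hh hH
      · exact hb' h hh hH
  have h4 : R.card ≤ ∑ v ∈ Z, (R.filter (fun e => v ∈ e)).card :=
    (Finset.card_le_card h3).trans Finset.card_biUnion_le
  have hex : ∀ p ∈ Z.sigma avail, ∃ h, h ∈ R ∧ Hit f R avail h p.1 p.2 := by
    rintro ⟨v, c⟩ hp
    rw [Finset.mem_sigma] at hp
    simp only [hZ, Finset.mem_filter, Finset.mem_univ, true_and] at hp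
    obtain ⟨h, hh, hH⟩ := hp.1 c hp.2
    exact ⟨h, hh, hH⟩
  have : Nonempty (Sym2 V) := ⟨hne.choose⟩
  choose! g hg using hex
  have h5 : (Z.sigma avail).card ≤ R.card := by
    refine Finset.card_le_card_of_injOn g (fun p hp => (hg p hp).1) ?_
    intro p hp q hq hpq
    have hp' := hg p hp
    have hq' := hg q hq
    rw [← hpq] at hq'
    obtain ⟨e1, e2⟩ := h2 _ hp'.1 _ _ _ _ hp'.2 hq'.2
    obtain ⟨v, c⟩ := p
    obtain ⟨v', c'⟩ := q
    simp only at e1 e2
    subst e1 e2
    rfl
  rw [Finset.card_sigma] at h5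
  have h6 : ∑ v ∈ Z, ((R.filter (fun e => v ∈ e)).card + 1) ≤ ∑ v ∈ Z, (avail v).card :=
    Finset.sum_le_sum (fun v _ => hbig v)
  rw [Finset.sum_add_distrib, Finset.sum_const, smul_eq_mul, mul_one] at h6
  have h7 : Z.card = 0 := by omega
  rw [Finset.card_eq_zero] at h7
  rw [h7] at h4
  simp only [Finset.sum_empty, Nat.le_zero, Finset.card_eq_zero] at h4
  exact hne.ne_empty h4

end Pool.Agent.R511.WP
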