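import Pool.Agent.R511.WP.Basic

/-! One twisting step on the double cover. -/

set_option autoImplicit false
set_option linter.unusedSectionVars false

namespace Pool.Agent.R511.WP

open Finset

section
variable {V C : Type} [Fintype V] [DecidableEq V] [Fintype C] [DecidableEq C]

lemma pr_iff_sym2 {u w x y : V} : Pr u w x y ↔ s(u, w) = s(x, y) := by
  unfold Pr
  rw [Sym2.eq_iff]

/-- the twisted colouring -/
noncomputable def tws (F : C → V × Bool → V × Bool) (a b g : C) (x y : V) (s0 : Bool) :
    C → V × Bool → V × Bool := by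
  classical
  exact fun c p =>
    if c = g then (if p.1 = x then (y, xor p.2 s0) else if p.1 = y then (x, xor p.2 s0) else F g p)
    else link (link (swapOn F a b (fun q => Orb (F a) (F b) (x, false) q)) b (x, false) (y, !s0))
      a (x, true) (y, s0) c p

end

theorem stmTW (hDL : StmDL) (hSEL : StmSEL) : StmTW := by
  classical
  intro V C _ _ _ _ A B _ _ f hf R avail F hR hav hRne hTW
  have hμ : ∀ u v, muAB A B u v = muAB A B v u := by
    intro u v
    unfold muAB
    simp only [SimpleGraph.adj_comm]
  obtain ⟨x, y, a, b, hxyR, hax, hby, hsel⟩ := hSEL V C (muAB A B) hμ f hf R avail hRne hR hav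
    hTW.big
  obtain ⟨hxy, hcnt1, hmu2⟩ := hR x y hxyR
  have hlt : cnt f x y < muAB A B x y := by omega
  have hfax : f a x = x := hav x a hax
  have hfby : f b y = y := hav y b hby
  have hyxR : s(y, x) ∈ R := by rw [Sym2.eq_swap]; exact hxyR
  have hab : a ≠ b := by
    rintro rfl
    exact Maxl.not_both hμ hf hxy hlt hfax hfby
  obtain ⟨g, hg⟩ : ∃ g, f g x = y := by
    unfold cnt at hcnt1
    obtain ⟨g, hg⟩ := Finset.card_pos.mp (by omega : 0 < (univ.filter (fun c => f c x = y)).card)
    exact ⟨g, by simpa using hg⟩
  have hgy : f g y = x := by rw [← hg]; exact hf.1.1 g x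
  have hga : g ≠ a := by
    rintro rfl
    exact hxy (hfax.symm.trans hg)
  have hgb : g ≠ b := by
    rintro rfl
    exact hxy (hgy.symm.trans hfby)
  have hyO : Orb (f a) (f b) x y := Maxl.linked hμ hf hxy hlt hfax hfby
  -- the orbit in the cover
  have hT1 : ∀ p, Orb (F a) (F b) (x, false) p → Orb (f a) (f b) x p.1 := by
    intro p hp
    induction hp with
    | base => exact Orb.base
    | @left p _ ih =>
      have := (hTW.clean x y a b p.1 p.2 hxyR hax hby ih).1
      rw [show ((p.1, p.2) : V × Bool) = p from rfl] at this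
      rw [this]; exact ih.left
    | @right p _ ih =>
      have := (hTW.clean x y a b p.1 p.2 hxyR hax hby ih).2
      rw [show ((p.1, p.2) : V × Bool) = p from rfl] at this
      rw [this]; exact ih.right
  have hT2 : ∀ u, Orb (f a) (f b) x u → ∃ s, Orb (F a) (F b) (x, false) (u, s) := by
    intro u hu
    induction hu with
    | base => exact ⟨false, Orb.base⟩
    | @left u hu ih =>
      obtain ⟨s, hs⟩ := ih
      refine ⟨(F a (u, s)).2, ?_⟩
      have h1 := (hTW.clean x y a b u s hxyR hax hby hu).1
      have h2 : (f a u, (F a (u, s)).2) = F a (u, s) := by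
        rw [← h1]
      rw [h2]; exact hs.left
    | @right u hu ih =>
      obtain ⟨s, hs⟩ := ih
      refine ⟨(F b (u, s)).2, ?_⟩
      have h1 := (hTW.clean x y a b u s hxyR hax hby hu).2
      have h2 : (f b u, (F b (u, s)).2) = F b (u, s) := by
        rw [← h1]
      rw [h2]; exact hs.right
  obtain ⟨s0, hs0⟩ := hT2 y hyO
  have hFax : ∀ t, F a (x, t) = (x, t) := fun t => hTW.free x a t hax
  have hFby : ∀ t, F b (y, t) = (y, t) := fun t => hTW.free y b t hby
  have hinvF := hTW.inv
  have hxT : ¬ Orb (F a) (F b) (x, false) (x, true) := by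
    intro h
    refine orb_three (p := F a) (q := F b) (hinvF a) (hinvF b) (x := (x, false)) (y := (y, s0))
      (z := (x, true)) ?_ ?_ ?_ (Or.inl (hFax _)) (Or.inr (hFby _)) (Or.inl (hFax _)) hs0 h
    · intro h; exact hxy (congrArg Prod.fst h)
    · intro h; exact absurd (congrArg Prod.snd h) (by simp)
    · intro h; exact hxy (congrArg Prod.fst h).symm
  have hyT : ¬ Orb (F a) (F b) (x, false) (y, !s0) := by
    intro h
    refine orb_three (p := F a) (q := F b) (hinvF a) (hinvF b) (x := (x, false)) (y := (y, s0))
      (z := (y, !s0)) ?_ ?_ ?_ (Or.inl (hFax _)) (Or.inr (hFby _)) (Or.inr (hFby _)) hs0 h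
    · intro h; exact hxy (congrArg Prod.fst h)
    · intro h; exact hxy (congrArg Prod.fst h)
    · intro h; exact absurd (congrArg Prod.snd h) (by simp)
  -- mates of colour g
  have hFgx : ∀ t, (F g (x, t)).1 = y := fun t => hTW.mate x y g t hxyR hg
  have hFgy : ∀ t, (F g (y, t)).1 = x := fun t => hTW.mate y x g t hyxR hgy
  set T : V × Bool → Prop := fun q => Orb (F a) (F b) (x, false) q with hT
  set G := swapOn F a b T with hG
  have hTa : ∀ p, T p → T (F a p) := fun p hp => Orb.left hp
  have hTb : ∀ p, T p → T (F b p) := fun p hp => Orb.right hp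
  have hGinv : Inv G := inv_swapOn hinvF hTa hTb
  have hx0T : T (x, false) := Orb.base
  have hGbx : G b (x, false) = (x, false) := by
    rw [hG, swapOn_right hx0T]; exact hFax _
  have hGby : G b (y, !s0) = (y, !s0) := by
    rw [hG, swapOn_not_mem hyT]; exact hFby _
  have hGax : G a (x, true) = (x, true) := by
    rw [hG, swapOn_not_mem hxT]; exact hFax _
  have hGay : G a (y, s0) = (y, s0) := by
    rw [hG, swapOn_left hs0]; exact hFby _
  set F1 := link G b (x, false) (y, !s0) with hF1
  have hF1inv : Inv F1 := inv_link hGinv hGbx hGby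
  set F2 := link F1 a (x, true) (y, s0) with hF2
  have hF1a : F1 a = G a := link_other hab
  have hF2inv : Inv F2 := inv_link hF1inv (by rw [hF1a]; exact hGax) (by rw [hF1a]; exact hGay)
  set F' := tws F a b g x y s0 with hF'
  have hF'g : ∀ p, F' g p = if p.1 = x then (y, xor p.2 s0) else if p.1 = y then
      (x, xor p.2 s0) else F g p := by
    intro p
    simp only [hF', tws, if_true]
  have hF'ne : ∀ c, c ≠ g → F' c = F2 c := by
    intro c hc
    funext p
    simp only [hF', tws, if_neg hc]
    rfl
  have hF'x : ∀ t, F' g (x, t) = (y, xor t s0) := by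
    intro t; rw [hF'g]; simp
  have hF'y : ∀ t, F' g (y, t) = (x, xor t s0) := by
    intro t; rw [hF'g]; simp [hxy.symm]
  have hF'gelse : ∀ p : V × Bool, p.1 ≠ x → p.1 ≠ y → F' g p = F g p := by
    intro p h1 h2; rw [hF'g, if_neg h1, if_neg h2]
  have hF'other : ∀ c, c ≠ g → c ≠ a → c ≠ b → F' c = F c := by
    intro c h1 h2 h3
    rw [hF'ne c h1, hF2, link_other h2, hF1, link_other h3, hG, swapOn_other h2 h3]
  have hF'b : F' b = F1 b := by
    rw [hF'ne b (Ne.symm hgb), hF2, link_other (Ne.symm hab)]
  have hF'a : F' a = F2 a := hF'ne a (Ne.symm hga)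
  have hF'bx : F' b (x, false) = (y, !s0) := by rw [hF'b, hF1, link_left]
  have hF'ax : F' a (x, true) = (y, s0) := by rw [hF'a, hF2, link_left]
  have hF'belse : ∀ p, p ≠ (x, false) → p ≠ (y, !s0) → F' b p = G b p := by
    intro p h1 h2
    rw [hF'b, hF1, link_ne b h1 h2]
  have hF'aelse : ∀ p, p ≠ (x, true) → p ≠ (y, s0) → F' a p = G a p := by
    intro p h1 h2
    rw [hF'a, hF2, link_ne a h1 h2, hF1a]
  have hinv' : Inv F' := by
    intro c p
    by_cases hc : c = g
    · subst hc
      by_cases h1 : p.1 = x
      · have : p = (x, p.2) := by rw [← h1]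
        rw [this, hF'x, hF'y]
        simp
      · by_cases h2 : p.1 = y
        · have : p = (y, p.2) := by rw [← h2]
          rw [this, hF'y, hF'x]
          simp
        · rw [hF'gelse p h1 h2, hF'gelse]
          · exact hinvF c p
          · intro h3
            have h4 := hFgx (F c p).2
            have h5 : ((x, (F c p).2) : V × Bool) = F c p := by rw [← h3]
            rw [h5, hinvF c p] at h4
            exact h2 h4
          · intro h3
            have h4 := hFgy (F c p).2
            have h5 : ((y, (F c p).2) : V × Bool) = F c p := by rw [← h3]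
            rw [h5, hinvF c p] at h4
            exact h1 h4
    · rw [hF'ne c hc]; exact hF2inv c p
  -- covering outside the pair
  have hcov : ∀ P Q : V × Bool, P ≠ Q → s(P.1, Q.1) ≠ s(x, y) → (∃ c, F c P = Q) →
      ∃ c, F' c P = Q := by
    rintro P Q hPQ hne ⟨c, hc⟩
    by_cases hcg : c = g
    · subst hcg
      refine ⟨c, ?_⟩
      rw [hF'gelse P, hc]
      · intro h1
        apply hne
        have h2 := hFgx P.2
        have h3 : ((x, P.2) : V × Bool) = P := by rw [← h1]
        rw [h3, hc] at h2
        rw [h1, h2]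
      · intro h1
        apply hne
        have h2 := hFgy P.2
        have h3 : ((y, P.2) : V × Bool) = P := by rw [← h1]
        rw [h3, hc] at h2
        rw [h1, h2, Sym2.eq_swap]
    by_cases hca : c = a
    · subst hca
      by_cases hPT : T P
      · refine ⟨b, ?_⟩
        rw [hF'belse, hG, swapOn_right hPT, hc]
        · rintro rfl
          rw [hFax] at hc; exact hPQ hc
        · rintro rfl
          exact hyT hPT
      · refine ⟨c, ?_⟩
        rw [hF'aelse, hG, swapOn_not_mem hPT, hc]
        · rintro rfl
          rw [hFax] at hc; exact hPQ hc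
        · rintro rfl
          exact hPT hs0
    by_cases hcb : c = b
    · subst hcb
      by_cases hPT : T P
      · refine ⟨a, ?_⟩
        rw [hF'aelse, hG, swapOn_left hPT, hc]
        · rintro rfl
          exact hxT hPT
        · rintro rfl
          rw [hFby] at hc; exact hPQ hc
      · refine ⟨c, ?_⟩
        rw [hF'belse, hG, swapOn_not_mem hPT, hc]
        · rintro rfl
          exact hPT hx0T
        · rintro rfl
          rw [hFby] at hc; exact hPQ hc
    · exact ⟨c, by rw [hF'other c hcg hca hcb]; exact hc⟩
  -- covering inside the pair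
  have hpair : ∀ t t' : Bool, ∃ c, F' c (x, t) = (y, t') := by
    intro t t'
    by_cases h1 : t' = xor t s0
    · exact ⟨g, by rw [hF'x, h1]⟩
    · cases t
      · refine ⟨b, ?_⟩
        rw [hF'bx]
        cases t' <;> cases s0 <;> simp_all
      · refine ⟨a, ?_⟩
        rw [hF'ax]
        cases t' <;> cases s0 <;> simp_all
  have hpair' : ∀ t t' : Bool, ∃ c, F' c (y, t) = (x, t') := by
    intro t t'
    obtain ⟨c, hc⟩ := hpair t' t
    exact ⟨c, by rw [← hc]; exact hinv' c _⟩
  -- the new data
  let avail' : V → Finset C := fun v => (avail v).filter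
    (fun c => ¬ (v = x ∧ c = a) ∧ ¬ (v = y ∧ c = b))
  have hav' : ∀ v c, c ∈ avail' v ↔ c ∈ avail v ∧ ¬ (v = x ∧ c = a) ∧ ¬ (v = y ∧ c = b) := by
    intro v c
    simp only [avail', mem_filter]
  have hOa : ∀ v, Orb (f a) (f b) x v → f a v = v → v = x := by
    intro v hv hav
    by_contra hne
    have hvy : v ≠ y := by
      rintro rfl
      exact Maxl.not_both hμ hf hxy hlt hfax hav
    exact orb_three (hf.1.1 a) (hf.1.1 b) hxy (Ne.symm hne) hvy.symm (Or.inl hfax) (Or.inr hfby)
      (Or.inl hav) hyO hv
  have hOb : ∀ v, Orb (f a) (f b) x v → f b v = v → v = y := by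
    intro v hv hbv
    by_contra hne
    have hvx : v ≠ x := by
      rintro rfl
      exact Maxl.not_both hμ hf hxy hlt hbv hfby
    exact orb_three (hf.1.1 a) (hf.1.1 b) hxy hvx.symm (Ne.symm hne) (Or.inl hfax) (Or.inr hfby)
      (Or.inr hbv) hyO hv
  refine ⟨R.erase s(x, y), avail', F', Finset.erase_ssubset hxyR,
    fun v => Finset.filter_subset _ _, ?_⟩
  refine ⟨hinv', ?_, ?_, ?_, ?_, ?_, ?_⟩
  · -- covA
    intro u v s huv hnR
    by_cases he : s(u, v) = s(x, y)
    · rw [Sym2.eq_iff] at he
      rcases he with ⟨rfl, rfl⟩ | ⟨rfl, rfl⟩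
      · exact hpair s s
      · exact hpair' s s
    · have hnR' : s(u, v) ∉ R := fun h => hnR (Finset.mem_erase.mpr ⟨he, h⟩)
      refine hcov (u, s) (v, s) ?_ he (hTW.covA u v s huv hnR')
      intro h
      exact huv.ne (congrArg Prod.fst h)
  · -- covB
    intro u v s huv hnR
    by_cases he : s(u, v) = s(x, y)
    · rw [Sym2.eq_iff] at he
      rcases he with ⟨rfl, rfl⟩ | ⟨rfl, rfl⟩
      · exact hpair s (!s)
      · exact hpair' s (!s)
    · have hnR' : s(u, v) ∉ R := fun h => hnR (Finset.mem_erase.mpr ⟨he, h⟩)
      refine hcov (u, s) (v, !s) ?_ he (hTW.covB u v s huv hnR')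
      intro h
      exact huv.ne (congrArg Prod.fst h)
  · -- free
    intro v c s hc
    rw [hav'] at hc
    obtain ⟨hc1, hc2, hc3⟩ := hc
    have hFc := hTW.free v c s hc1
    have hfc := hav v c hc1
    by_cases hcg : c = g
    · subst hcg
      rw [hF'gelse, hFc]
      · rintro rfl
        exact hxy (hfc.symm.trans hg)
      · rintro rfl
        exact hxy (hgy.symm.trans hfc)
    by_cases hca : c = a
    · subst hca
      have hvx : v ≠ x := fun h => hc2 ⟨h, rfl⟩
      have hvO : ¬ Orb (f c) (f b) x v := fun h => hvx (hOa v h hfc)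
      have hvy : v ≠ y := by rintro rfl; exact hvO hyO
      rw [hF'aelse, hG, swapOn_not_mem (fun h => hvO (hT1 _ h)), hFc]
      · intro h; exact hvx (congrArg Prod.fst h)
      · intro h; exact hvy (congrArg Prod.fst h)
    by_cases hcb : c = b
    · subst hcb
      have hvy : v ≠ y := fun h => hc3 ⟨h, rfl⟩
      have hvO : ¬ Orb (f a) (f c) x v := fun h => hvy (hOb v h hfc)
      have hvx : v ≠ x := by rintro rfl; exact hvO Orb.base
      rw [hF'belse, hG, swapOn_not_mem (fun h => hvO (hT1 _ h)), hFc]
      · intro h; exact hvx (congrArg Prod.fst h)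
      · intro h; exact hvy (congrArg Prod.fst h)
    · rw [hF'other c hcg hca hcb]; exact hFc
  · -- big
    intro v
    have hb := hTW.big v
    by_cases hv : v = x ∨ v = y
    · -- degree and avail drop by one
      have hmem : s(x, y) ∈ R.filter (fun e => v ∈ e) := by
        rw [mem_filter]
        refine ⟨hxyR, ?_⟩
        rcases hv with rfl | rfl <;> simp
      have e1 : ((R.erase s(x, y)).filter (fun e => v ∈ e)).card + 1
          = (R.filter (fun e => v ∈ e)).card := by
        rw [Finset.filter_erase, Finset.card_erase_add_one hmem]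
      have e2 : (avail v).card ≤ (avail' v).card + 1 := by
        rcases hv with h | h
        · have : avail v ⊆ insert a (avail' v) := by
            intro c hc
            rw [mem_insert]
            by_cases h1 : c = a
            · exact Or.inl h1
            · right
              rw [hav']
              refine ⟨hc, fun h2 => h1 h2.2, fun h2 => ?_⟩
              exact hxy (h.symm.trans h2.1)
          exact (Finset.card_le_card this).trans (Finset.card_insert_le _ _)
        · have : avail v ⊆ insert b (avail' v) := by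
            intro c hc
            rw [mem_insert]
            by_cases h1 : c = b
            · exact Or.inl h1
            · right
              rw [hav']
              refine ⟨hc, fun h2 => ?_, fun h2 => h1 h2.2⟩
              exact hxy (h2.1.symm.trans h)
          exact (Finset.card_le_card this).trans (Finset.card_insert_le _ _)
      omega
    · push Not at hv
      have e1 : ((R.erase s(x, y)).filter (fun e => v ∈ e)).card
          ≤ (R.filter (fun e => v ∈ e)).card :=
        Finset.card_le_card (Finset.filter_subset_filter _ (Finset.erase_subset _ _))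
      have e2 : avail' v = avail v := by
        ext c
        rw [hav']
        exact ⟨fun h => h.1, fun h => ⟨h, fun h2 => hv.1 h2.1, fun h2 => hv.2 h2.1⟩⟩
      rw [e2]; omega
  · -- mate
    intro u v c s huv hc
    obtain ⟨hne, huvR⟩ := Finset.mem_erase.mp huv
    have hm := hTW.mate u v c s huvR hc
    have hune := (hR u v huvR).1
    by_cases hcg : c = g
    · subst hcg
      rw [hF'gelse, hm]
      · rintro rfl
        apply hne; rw [← hc, hg]
      · rintro rfl
        apply hne; rw [← hc, hgy, Sym2.eq_swap]
    by_cases hca : c = a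
    · subst hca
      have huT : ¬ T (u, s) := fun h => (hsel u v huvR hne (hT1 _ h)).1 hc
      rw [hF'aelse, hG, swapOn_not_mem huT, hm]
      · intro h
        have : u = x := congrArg Prod.fst h
        rw [this, hfax] at hc
        exact hune (this.trans hc)
      · intro h
        rw [h] at huT; exact huT hs0
    by_cases hcb : c = b
    · subst hcb
      have huT : ¬ T (u, s) := fun h => (hsel u v huvR hne (hT1 _ h)).2 hc
      rw [hF'belse, hG, swapOn_not_mem huT, hm]
      · intro h
        rw [h] at huT; exact huT hx0T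
      · intro h
        have : u = y := congrArg Prod.fst h
        rw [this, hfby] at hc
        exact hune (this.trans hc)
    · rw [hF'other c hcg hca hcb]; exact hm
  · -- clean
    intro v y1 c b1 u s hv hc hb1 hu
    obtain ⟨hne, hvR⟩ := Finset.mem_erase.mp hv
    rw [hav'] at hc hb1
    obtain ⟨hc1, hc2, hc3⟩ := hc
    obtain ⟨hb11, hb12, hb13⟩ := hb1
    have hcl := hTW.clean v y1 c b1 u s hvR hc1 hb11 hu
    obtain ⟨hvy1, hcv, hmv⟩ := hR v y1 hvR
    have hltv : cnt f v y1 < muAB A B v y1 := by omega
    have hltv' : cnt f y1 v < muAB A B y1 v := by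
      rw [cnt_comm hf.1.1, hμ]; exact hltv
    have hlt' : cnt f y x < muAB A B y x := by
      rw [cnt_comm hf.1.1, hμ]; exact hlt
    have hfcv := hav v c hc1
    have hfb1 := hav y1 b1 hb11
    have hvl : Orb (f c) (f b1) v y1 := Maxl.linked hμ hf hvy1 hltv hfcv hfb1
    have hu' : Orb (f b1) (f c) y1 u :=
      orb_comm.mp (orb_trans (orb_symm (hf.1.1 c) (hf.1.1 b1) hvl) hu)
    -- the general step
    have hstep : ∀ d, (F d (u, s)).1 = f d u → ((d = a ∨ d = b) → ¬ Orb (f a) (f b) x u) →
        (F' d (u, s)).1 = f d u := by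
      intro d hd hdO
      by_cases hdg : d = g
      · subst hdg
        by_cases h1 : u = x
        · subst h1; rw [hF'x, hg]
        by_cases h2 : u = y
        · subst h2; rw [hF'y, hgy]
        · rw [hF'gelse _ h1 h2]; exact hd
      by_cases hda : d = a
      · subst hda
        have h0 := hdO (Or.inl rfl)
        rw [hF'aelse, hG, swapOn_not_mem (fun h => h0 (hT1 _ h)), hd]
        · intro h
          have : u = x := congrArg Prod.fst h
          rw [this] at h0; exact h0 Orb.base
        · intro h
          have : u = y := congrArg Prod.fst h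
          rw [this] at h0; exact h0 hyO
      by_cases hdb : d = b
      · subst hdb
        have h0 := hdO (Or.inr rfl)
        rw [hF'belse, hG, swapOn_not_mem (fun h => h0 (hT1 _ h)), hd]
        · intro h
          have : u = x := congrArg Prod.fst h
          rw [this] at h0; exact h0 Orb.base
        · intro h
          have : u = y := congrArg Prod.fst h
          rw [this] at h0; exact h0 hyO
      · rw [hF'other d hdg hda hdb]; exact hd
    have hOy : Orb (f a) (f b) x u → Orb (f b) (f a) y u := fun h =>
      orb_comm.mp (orb_trans (orb_symm (hf.1.1 a) (hf.1.1 b) hyO) h)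
    have n1 : ¬ Pr v y1 x y := fun h => hne (pr_iff_sym2.mp h)
    have n2 : ¬ Pr v y1 y x := fun h => n1 (pr_comm_right.mp h)
    have n3 : ¬ Pr y1 v x y := fun h => n1 (pr_comm_left.mp h)
    have n4 : ¬ Pr y1 v y x := fun h => n3 (pr_comm_right.mp h)
    refine ⟨hstep c hcl.1 ?_, hstep b1 hcl.2 ?_⟩
    · rintro (rfl | rfl) hO
      · exact hDL V C (muAB A B) hμ f hf x y v y1 c b b1 hxy hlt hvy1 hltv n1
          (fun h => hc2 ⟨h.symm, rfl⟩) hfax hfby hfcv hfb1 u hO hu
      · exact hDL V C (muAB A B) hμ f hf y x v y1 c a b1 hxy.symm hlt' hvy1 hltv n2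
          (fun h => hc3 ⟨h.symm, rfl⟩) hfby hfax hfcv hfb1 u (hOy hO) hu
    · rintro (rfl | rfl) hO
      · exact hDL V C (muAB A B) hμ f hf x y y1 v b1 b c hxy hlt hvy1.symm hltv' n3
          (fun h => hb12 ⟨h.symm, rfl⟩) hfax hfby hfb1 hfcv u hO hu'
      · exact hDL V C (muAB A B) hμ f hf y x y1 v b1 a c hxy.symm hlt' hvy1.symm hltv' n4
          (fun h => hb13 ⟨h.symm, rfl⟩) hfby hfax hfb1 hfcv u (hOy hO) hu'

end Pool.Agent.R511.WP
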