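import Pool.Agent.R511.WP.Defs

/-! The colouring theorem for `k = 1` from the linear fan lemma and the twisting step. -/

set_option autoImplicit false

namespace Pool.Agent.R511.WP

open Finset

theorem thmA_cnt_comm {V C : Type} [DecidableEq V] [Fintype C] (f : C → V → V) (hf : Inv f)
    (u v : V) : cnt f u v = cnt f v u := by
  unfold cnt
  congr 1
  ext c
  simp only [mem_filter, mem_univ, true_and]
  constructor
  · intro h; rw [← h, hf]
  · intro h; rw [← h, hf]

theorem thmA_sum_cnt {V C : Type} [Fintype V] [DecidableEq V] [Fintype C] (f : C → V → V)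
    (u : V) : (univ.filter (fun c => f c u = u)).card + ∑ w ∈ univ.erase u, cnt f u w =
      Fintype.card C := by
  classical
  have h1 : ∑ w, cnt f u w = Fintype.card C := by
    rw [← Finset.card_univ, Finset.card_eq_sum_card_fiberwise (f := fun c => f c u)
      (s := univ) (t := univ) (fun _ _ => mem_coe.mpr (mem_univ _))]
    rfl
  rw [← h1, ← Finset.add_sum_erase univ (fun w => cnt f u w) (mem_univ u)]
  rfl

theorem thmA_sum_adj {V : Type} [Fintype V] [DecidableEq V] (A : SimpleGraph V)
    [DecidableRel A.Adj] (u : V) :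
    ∑ w ∈ univ.erase u, (if A.Adj u w then 1 else 0) = A.degree u := by
  have h0 : ∑ w ∈ univ.erase u, (if A.Adj u w then 1 else 0) =
      ∑ w, (if A.Adj u w then 1 else 0) := by
    rw [← Finset.add_sum_erase univ (fun w => if A.Adj u w then 1 else 0) (mem_univ u)]
    simp
  rw [h0, ← Finset.card_filter, ← SimpleGraph.card_neighborFinset_eq_degree]
  congr 1
  ext w
  simp

theorem thmA_sum_mu {V : Type} [Fintype V] [DecidableEq V] (A B : SimpleGraph V)
    [DecidableRel A.Adj] [DecidableRel B.Adj] (u : V) :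
    ∑ w ∈ univ.erase u, muAB A B u w = A.degree u + B.degree u := by
  unfold muAB
  rw [Finset.sum_add_distrib, thmA_sum_adj, thmA_sum_adj]

theorem thmA_mu_comm {V : Type} (A B : SimpleGraph V)
    [DecidableRel A.Adj] [DecidableRel B.Adj] (u v : V) : muAB A B u v = muAB A B v u := by
  unfold muAB
  simp only [A.adj_comm u v, B.adj_comm u v]

/-- The number of uncoloured ordered pairs joined in the multigraph. -/
def thmA_bad {V C : Type} [Fintype V] [DecidableEq V] [Fintype C] (μ : V → V → ℕ)
    (f : C → V → V) : ℕ :=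
  (univ.filter (fun p : V × V => p.1 ≠ p.2 ∧ cnt f p.1 p.2 = 0 ∧ 1 ≤ μ p.1 p.2)).card

/-- A maximal partial colouring that colours at least one edge of each bundle. -/
theorem thmA_start (hFL : StmFL) {V C : Type} [Fintype V] [DecidableEq V] [Fintype C]
    [DecidableEq C] (μ : V → V → ℕ) (hμ : ∀ u v, μ u v = μ v u)
    (hmiss : ∀ f : C → V → V, Maxl μ f → ∀ v, ∃ c, f c v = v) :
    ∃ f : C → V → V, Maxl μ f ∧ ∀ x y, x ≠ y → 1 ≤ μ x y → 1 ≤ cnt f x y := by
  classical
  have hne : {f : C → V → V | Maxl μ f}.Nonempty := by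
    have hval : Valid μ (fun (_ : C) (v : V) => v) := by
      refine ⟨fun _ _ => rfl, ?_⟩
      intro u v huv
      unfold cnt
      simp [huv]
    have : Nonempty {f : C → V → V // Valid μ f} := ⟨⟨_, hval⟩⟩
    obtain ⟨f0, hf0⟩ := Finite.exists_max (fun f : {f : C → V → V // Valid μ f} => tot f.1)
    exact ⟨f0.1, f0.2, fun g hg => hf0 ⟨g, hg⟩⟩
  obtain ⟨f, hf, hmin⟩ := WellFounded.has_min (measure (thmA_bad μ)).wf _ hne
  refine ⟨f, hf, ?_⟩
  intro x y hxy hxyμ
  by_contra hcon
  have hc0 : cnt f x y = 0 := by omega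
  obtain ⟨v, hvx, hv2, g, hg, hgt, hgc⟩ := hFL V C μ hμ f hf (hmiss f hf) x y hxy hc0 hxyμ
  have hgM : Maxl μ g := ⟨hg, fun h hh => by rw [hgt]; exact hf.2 h hh⟩
  apply hmin g hgM
  show thmA_bad μ g < thmA_bad μ f
  unfold thmA_bad
  apply Finset.card_lt_card
  rw [Finset.ssubset_iff_of_subset]
  · refine ⟨(x, y), by simp [hxy, hc0, hxyμ], ?_⟩
    have hvy : v ≠ y := by
      rintro rfl
      omega
    have h1 := hgc x y hxy
    have h2 : ¬ Pr x y x v := by
      rintro (⟨-, h⟩ | ⟨h, -⟩)
      · exact hvy h.symm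
      · exact hvx h.symm
    have h3 : Pr x y x y := Or.inl ⟨rfl, rfl⟩
    rw [if_neg h2, if_pos h3, hc0] at h1
    simp only [mem_filter, mem_univ, true_and, not_and]
    intro _ h
    omega
  · rintro ⟨u, w⟩ h
    simp only [mem_filter, mem_univ, true_and] at h ⊢
    obtain ⟨h1, h2, h3⟩ := h
    refine ⟨h1, ?_, h3⟩
    have h4 := hgc u w h1
    by_cases h5 : Pr u w x v
    · have h6 : 2 ≤ cnt f u w := by
        rcases h5 with ⟨h7, h8⟩ | ⟨h7, h8⟩
        · rw [h7, h8]; exact hv2
        · rw [h7, h8, thmA_cnt_comm f hf.1.1]; exact hv2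
      rw [if_pos h5] at h4
      omega
    · rw [if_neg h5] at h4
      omega

/-- Iteration of the twisting step. -/
theorem thmA_iter (hTW : StmTW) {V C : Type} [Fintype V] [DecidableEq V] [Fintype C]
    [DecidableEq C] (A B : SimpleGraph V) [DecidableRel A.Adj] [DecidableRel B.Adj]
    (f : C → V → V) (hf : Maxl (muAB A B) f) :
    ∀ (n : ℕ) (R : Finset (Sym2 V)) (avail : V → Finset C) (F : C → V × Bool → V × Bool),
    R.card ≤ n → (∀ x y, s(x, y) ∈ R → x ≠ y ∧ cnt f x y = 1 ∧ muAB A B x y = 2) →
    (∀ v c, c ∈ avail v → f c v = v) → TW A B f R avail F →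
    ∃ (avail' : V → Finset C) (F' : C → V × Bool → V × Bool), TW A B f ∅ avail' F' := by
  intro n
  induction n with
  | zero =>
    intro R avail F hR h1 h2 h3
    have : R = ∅ := Finset.card_eq_zero.mp (by omega)
    subst this
    exact ⟨avail, F, h3⟩
  | succ n ih =>
    intro R avail F hR h1 h2 h3
    by_cases hne : R.Nonempty
    · obtain ⟨R', avail', F', hR', hav, hTW'⟩ := hTW V C A B f hf R avail F h1 h2 hne h3
      have hc : R'.card < R.card := Finset.card_lt_card hR'
      exact ih R' avail' F' (by omega) (fun x y hxy => h1 x y (hR'.1 hxy))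
        (fun v c hc => h2 v c (hav v hc)) hTW'
    · rw [Finset.not_nonempty_iff_eq_empty] at hne
      subst hne
      exact ⟨avail, F, h3⟩

/-- The types (straight or crossed) of the edges of the initial lift. -/
noncomputable def thmA_tau {V : Type} (A B : SimpleGraph V) {N : ℕ} (f : Fin N → V → V)
    (c : Fin N) (v : V) : Bool := by
  classical
  exact if ¬ A.Adj v (f c v) then true else if ¬ B.Adj v (f c v) then false else
    decide (∃ c' : Fin N, c' < c ∧ f c' v = f c v)

theorem thmA_tau_symm {V : Type} (A B : SimpleGraph V) {N : ℕ} (f : Fin N → V → V)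
    (hf : Inv f) (c : Fin N) (v : V) :
    thmA_tau A B f c (f c v) = thmA_tau A B f c v := by
  classical
  unfold thmA_tau
  rw [hf c v]
  have e1 : A.Adj (f c v) v ↔ A.Adj v (f c v) := A.adj_comm _ _
  have e2 : B.Adj (f c v) v ↔ B.Adj v (f c v) := B.adj_comm _ _
  have e3 : (∃ c' : Fin N, c' < c ∧ f c' (f c v) = v) ↔ (∃ c' : Fin N, c' < c ∧ f c' v = f c v) := by
    constructor
    · rintro ⟨c', h1, h2⟩
      exact ⟨c', h1, by rw [← h2, hf, h2]⟩
    · rintro ⟨c', h1, h2⟩
      exact ⟨c', h1, by rw [← h2, hf]⟩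
  simp only [e1, e2, e3]

theorem thmA_tau_true {V : Type} (A B : SimpleGraph V) {N : ℕ} (f : Fin N → V → V)
    (c : Fin N) (v u : V) (hc : f c v = u)
    (h : A.Adj v u → B.Adj v u ∧ ∃ c' : Fin N, c' < c ∧ f c' v = u) :
    thmA_tau A B f c v = true := by
  classical
  unfold thmA_tau
  rw [hc]
  by_cases hA : A.Adj v u
  · rw [if_neg (not_not.mpr hA), if_neg (not_not.mpr (h hA).1)]
    exact decide_eq_true (h hA).2
  · rw [if_pos hA]

theorem thmA_tau_false {V : Type} (A B : SimpleGraph V) {N : ℕ} (f : Fin N → V → V)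
    (c : Fin N) (v u : V) (hc : f c v = u) (hA : A.Adj v u)
    (h : ¬ ∃ c' : Fin N, c' < c ∧ f c' v = u) :
    thmA_tau A B f c v = false := by
  classical
  unfold thmA_tau
  rw [hc, if_neg (not_not.mpr hA)]
  by_cases hB : B.Adj v u
  · rw [if_neg (not_not.mpr hB)]
    exact decide_eq_false h
  · rw [if_pos hB]

/-- The initial lift. -/
noncomputable def thmA_F {V : Type} (A B : SimpleGraph V) {N : ℕ} (f : Fin N → V → V)
    (c : Fin N) (p : V × Bool) : V × Bool := by
  classical
  exact if f c p.1 = p.1 then p else (f c p.1, Bool.xor p.2 (thmA_tau A B f c p.1))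

theorem thmA_F_fst {V : Type} (A B : SimpleGraph V) {N : ℕ} (f : Fin N → V → V)
    (c : Fin N) (v : V) (s : Bool) : (thmA_F A B f c (v, s)).1 = f c v := by
  unfold thmA_F
  by_cases h : f c v = v
  · simp [h]
  · simp [h]

theorem thmA_F_free {V : Type} (A B : SimpleGraph V) {N : ℕ} (f : Fin N → V → V)
    (c : Fin N) (v : V) (s : Bool) (h : f c v = v) : thmA_F A B f c (v, s) = (v, s) := by
  unfold thmA_F
  simp [h]

theorem thmA_F_ne {V : Type} (A B : SimpleGraph V) {N : ℕ} (f : Fin N → V → V)
    (c : Fin N) (v u : V) (s : Bool) (h : f c v = u) (hvu : v ≠ u) :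
    thmA_F A B f c (v, s) = (u, Bool.xor s (thmA_tau A B f c v)) := by
  unfold thmA_F
  have h1 : ¬ f c v = v := by rw [h]; exact hvu.symm
  simp only [h1, if_false]
  rw [h]

theorem thmA_F_inv {V : Type} (A B : SimpleGraph V) {N : ℕ} (f : Fin N → V → V)
    (hf : Inv f) : Inv (thmA_F A B f) := by
  rintro c ⟨v, s⟩
  by_cases h : f c v = v
  · rw [thmA_F_free A B f c v s h, thmA_F_free A B f c v s h]
  · rw [thmA_F_ne A B f c v (f c v) s rfl (fun e => h e.symm),
      thmA_F_ne A B f c (f c v) v _ (hf c v) h, thmA_tau_symm A B f hf]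
    cases s <;> cases thmA_tau A B f c v <;> rfl

/-- The colouring theorem for `k = 1`. -/
theorem stmA (hFL : StmFL) (hTW : StmTW) : StmA := by
  intro V _ _ A B _ _ N hN
  classical
  set μ := muAB A B with hμdef
  have hμ : ∀ u v, μ u v = μ v u := thmA_mu_comm A B
  have hmissf : ∀ f : Fin N → V → V, Maxl μ f → ∀ v, ∃ c, f c v = v := by
    intro f hf v
    have h1 := thmA_sum_cnt f v
    have h2 : ∑ w ∈ univ.erase v, cnt f v w ≤ ∑ w ∈ univ.erase v, μ v w := by
      apply Finset.sum_le_sum
      intro w hw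
      exact hf.1.2 v w (Finset.ne_of_mem_erase hw).symm
    rw [hμdef, thmA_sum_mu] at h2
    have h3 := hN v
    rw [Fintype.card_fin] at h1
    have h4 : 0 < (univ.filter (fun c => f c v = v)).card := by omega
    obtain ⟨c, hc⟩ := Finset.card_pos.mp h4
    exact ⟨c, by simpa using hc⟩
  obtain ⟨f, hf, hcov⟩ := thmA_start hFL μ hμ hmissf
  have hfi : Inv f := hf.1.1
  have hμ2 : ∀ u v, μ u v ≤ 2 := by
    intro u v
    rw [hμdef]
    unfold muAB
    split_ifs <;> omega
  let R : Finset (Sym2 V) := (univ.filter (fun p : V × V => p.1 ≠ p.2 ∧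
    cnt f p.1 p.2 < μ p.1 p.2)).image (fun p => s(p.1, p.2))
  have hR : ∀ u v, s(u, v) ∈ R ↔ u ≠ v ∧ cnt f u v < μ u v := by
    intro u v
    simp only [R, mem_image, mem_filter, mem_univ, true_and, Prod.exists]
    constructor
    · rintro ⟨a, b, ⟨h1, h2⟩, h3⟩
      rw [Sym2.eq_iff] at h3
      rcases h3 with ⟨rfl, rfl⟩ | ⟨rfl, rfl⟩
      · exact ⟨h1, h2⟩
      · refine ⟨h1.symm, ?_⟩
        rw [thmA_cnt_comm f hfi, hμ]
        exact h2
    · rintro ⟨h1, h2⟩
      exact ⟨u, v, ⟨h1, h2⟩, rfl⟩
  have hR1 : ∀ x y, s(x, y) ∈ R → x ≠ y ∧ cnt f x y = 1 ∧ μ x y = 2 := by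
    intro x y h
    obtain ⟨h1, h2⟩ := (hR x y).mp h
    have h3 := hcov x y h1 (by omega)
    have h4 := hμ2 x y
    exact ⟨h1, by omega, by omega⟩
  let avail : V → Finset (Fin N) := fun v => univ.filter (fun c => f c v = v)
  have hav : ∀ v c, c ∈ avail v → f c v = v := by
    intro v c hc
    simpa [avail] using hc
  have hTW0 : TW A B f R avail (thmA_F A B f) := by
    refine ⟨thmA_F_inv A B f hfi, ?_, ?_, ?_, ?_, ?_, ?_⟩
    · -- covA
      intro u v s huv hnR
      have hne : u ≠ v := huv.ne
      have h1 : ¬ cnt f u v < μ u v := fun h => hnR ((hR u v).mpr ⟨hne, h⟩)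
      have h2 : 1 ≤ μ u v := by
        rw [hμdef]; unfold muAB
        rw [if_pos huv]; omega
      have h3 : (univ.filter (fun c => f c u = v)).Nonempty := by
        rw [← Finset.card_pos]
        have : cnt f u v = (univ.filter (fun c => f c u = v)).card := rfl
        omega
      set c := (univ.filter (fun c => f c u = v)).min' h3 with hcdef
      have hc : f c u = v := by
        have := Finset.min'_mem _ h3
        rw [← hcdef] at this
        simpa using this
      refine ⟨c, ?_⟩
      rw [thmA_F_ne A B f c u v s hc hne]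
      have h4 : thmA_tau A B f c u = false := by
        refine thmA_tau_false A B f c u v hc huv ?_
        rintro ⟨c', h6, h7⟩
        have h8 := Finset.min'_le (univ.filter (fun c => f c u = v)) c' (by simp [h7])
        rw [← hcdef] at h8
        exact absurd h6 (not_lt.mpr h8)
      rw [h4]
      cases s <;> rfl
    · -- covB
      intro u v s huv hnR
      have hne : u ≠ v := huv.ne
      have h1 : ¬ cnt f u v < μ u v := fun h => hnR ((hR u v).mpr ⟨hne, h⟩)
      obtain ⟨c, hc, h4⟩ : ∃ c, f c u = v ∧ thmA_tau A B f c u = true := by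
        by_cases hA : A.Adj u v
        · have h2 : μ u v = 2 := by
            rw [hμdef]; unfold muAB
            rw [if_pos huv, if_pos hA]
          have h3 : 1 < (univ.filter (fun c => f c u = v)).card := by
            have : cnt f u v = (univ.filter (fun c => f c u = v)).card := rfl
            omega
          rw [Finset.one_lt_card] at h3
          obtain ⟨c1, hc1, c2, hc2, h12⟩ := h3
          simp only [mem_filter, mem_univ, true_and] at hc1 hc2
          rcases lt_or_gt_of_ne h12 with h | h
          · exact ⟨c2, hc2, thmA_tau_true A B f c2 u v hc2 (fun _ => ⟨huv, c1, h, hc1⟩)⟩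
          · exact ⟨c1, hc1, thmA_tau_true A B f c1 u v hc1 (fun _ => ⟨huv, c2, h, hc2⟩)⟩
        · have h2 : 1 ≤ μ u v := by
            rw [hμdef]; unfold muAB
            rw [if_pos huv]; omega
          have h3 : (univ.filter (fun c => f c u = v)).Nonempty := by
            rw [← Finset.card_pos]
            have : cnt f u v = (univ.filter (fun c => f c u = v)).card := rfl
            omega
          obtain ⟨c, hc⟩ := h3
          simp only [mem_filter, mem_univ, true_and] at hc
          exact ⟨c, hc, thmA_tau_true A B f c u v hc (fun h => absurd h hA)⟩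
      refine ⟨c, ?_⟩
      rw [thmA_F_ne A B f c u v s hc hne, h4]
      cases s <;> rfl
    · -- free
      intro v c s hc
      exact thmA_F_free A B f c v s (hav v c hc)
    · -- big
      intro v
      have h1 := thmA_sum_cnt f v
      rw [Fintype.card_fin] at h1
      have h2 : ∑ w ∈ univ.erase v, μ v w = A.degree v + B.degree v := thmA_sum_mu A B v
      have h3 := hN v
      have h4 : (R.filter (fun e => v ∈ e)).card ≤
          ((univ.erase v).filter (fun w => cnt f v w < μ v w)).card := by
        have h5 : R.filter (fun e => v ∈ e) ⊆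
            ((univ.erase v).filter (fun w => cnt f v w < μ v w)).image (fun w => s(v, w)) := by
          intro e he
          rw [mem_filter] at he
          obtain ⟨he1, he2⟩ := he
          obtain ⟨w, rfl⟩ := Sym2.mem_iff_exists.mp he2
          rw [mem_image]
          obtain ⟨h6, h7⟩ := (hR v w).mp he1
          exact ⟨w, by simp [h6.symm, h7], rfl⟩
        exact (Finset.card_le_card h5).trans Finset.card_image_le
      have h5 : ∑ w ∈ univ.erase v, μ v w = ∑ w ∈ univ.erase v, cnt f v w +
          ((univ.erase v).filter (fun w => cnt f v w < μ v w)).card := by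
        rw [Finset.card_filter, ← Finset.sum_add_distrib]
        apply Finset.sum_congr rfl
        intro w hw
        have hne : v ≠ w := (Finset.ne_of_mem_erase hw).symm
        have h6 := hf.1.2 v w hne
        split_ifs with h7
        · have := hR1 v w ((hR v w).mpr ⟨hne, h7⟩)
          omega
        · omega
      show (R.filter (fun e => v ∈ e)).card + 1 ≤ (univ.filter (fun c => f c v = v)).card
      omega
    · -- mate
      intro u v c s _ h
      rw [thmA_F_fst, h]
    · -- clean
      intro v y c b u s _ _ _ _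
      exact ⟨thmA_F_fst A B f c u s, thmA_F_fst A B f b u s⟩
  obtain ⟨avail', F, hF⟩ := thmA_iter hTW A B f hf R.card R avail _ le_rfl hR1 hav hTW0
  have hne : ∀ v, ∃ c, c ∈ avail' v := by
    intro v
    have h := hF.big v
    have : 0 < (avail' v).card := by omega
    exact Finset.card_pos.mp this
  choose cv hcv using hne
  have hfix : ∀ v s, F (cv v) (v, s) = (v, s) := fun v s => hF.free v (cv v) s (hcv v)
  refine ⟨fun c p => if c = cv p.1 then (p.1, !p.2) else F c p, ?_, ?_, ?_, ?_⟩
  · rintro c ⟨v, s⟩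
    by_cases h : c = cv v
    · simp [h]
    · have h1 : ¬ c = cv (F c (v, s)).1 := by
        intro h2
        rcases hw : F c (v, s) with ⟨w, t⟩
        rw [hw] at h2
        simp only at h2
        have h3 := hF.inv c (v, s)
        rw [hw, h2, hfix w t] at h3
        have h4 : w = v := congrArg Prod.fst h3
        rw [h4] at h2
        exact h h2
      show (if c = cv (if c = cv v then (v, !s) else F c (v, s)).1 then _ else _) = (v, s)
      simp only [h, if_false, h1]
      exact hF.inv c (v, s)
  · intro u v s huv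
    obtain ⟨c, hc⟩ := hF.covA u v s huv (Finset.notMem_empty _)
    refine ⟨c, ?_⟩
    have h1 : ¬ c = cv u := by
      intro h
      rw [h, hfix] at hc
      exact huv.ne (congrArg Prod.fst hc)
    simp only [h1, if_false]
    exact hc
  · intro u v s huv
    obtain ⟨c, hc⟩ := hF.covB u v s huv (Finset.notMem_empty _)
    refine ⟨c, ?_⟩
    have h1 : ¬ c = cv u := by
      intro h
      rw [h, hfix] at hc
      exact huv.ne (congrArg Prod.fst hc)
    simp only [h1, if_false]
    exact hc
  · intro v s
    exact ⟨cv v, by simp⟩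

end Pool.Agent.R511.WP
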