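import Pool.Agent.R511.WP.Defs

/-! Theorem B (`k ≥ 2`) from the elementarity of double fans. -/

set_option autoImplicit false

namespace Pool.Agent.R511.WP

open Finset

namespace ThmB

variable {V C : Type} [Fintype V] [DecidableEq V] [Fintype C] [DecidableEq C]

omit [DecidableEq C] in
theorem miss_sum (f : C → V → V) (v : V) :
    (univ.filter (fun c => f c v = v)).card + ∑ u ∈ univ.erase v, cnt f v u
      = Fintype.card C := by
  have h := card_eq_sum_card_fiberwise (s := (univ : Finset C)) (t := (univ : Finset V))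
    (f := fun c => f c v) (by simp)
  rw [← add_sum_erase univ _ (mem_univ v)] at h
  rw [← card_univ (α := C), h]
  rfl

/-- The degree in the multigraph `m`. -/
def dd (m : V → V → ℕ) (v : V) : ℕ := ∑ u ∈ univ.erase v, m v u

theorem near_miss {m : V → V → ℕ} {x w : V} (hxw : x ≠ w) {f : C → V → V} (hf : Near m x w f)
    (v : V) : (univ.filter (fun c => f c v = v)).card + dd m v
      = Fintype.card C + (if v = x ∨ v = w then 1 else 0) := by
  have h1 := miss_sum f v
  have h2 : dd m v = ∑ u ∈ univ.erase v, cnt f v u +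
      ∑ u ∈ univ.erase v, (if Pr v u x w then 1 else 0) := by
    rw [← sum_add_distrib]
    apply sum_congr rfl
    intro u hu
    rw [hf.2 v u (ne_of_mem_erase hu).symm]
  have h3 : ∑ u ∈ univ.erase v, (if Pr v u x w then 1 else 0)
      = (if v = x ∨ v = w then 1 else 0) := by
    by_cases hvx : v = x
    · subst hvx
      have : ∀ u ∈ univ.erase v, (if Pr v u v w then 1 else 0) = (if w = u then 1 else 0) := by
        intro u _
        congr 1
        simp only [Pr, eq_iff_iff]
        constructor
        · rintro (⟨-, h⟩ | ⟨h, -⟩)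
          · exact h.symm
          · exact absurd h hxw
        · intro h; left; exact ⟨trivial, h.symm⟩
      rw [sum_congr rfl this, sum_ite_eq]
      simp [hxw.symm]
    · by_cases hvw : v = w
      · subst hvw
        have : ∀ u ∈ univ.erase v, (if Pr v u x v then 1 else 0) = (if x = u then 1 else 0) := by
          intro u _
          congr 1
          simp only [Pr, eq_iff_iff]
          constructor
          · rintro (⟨h, -⟩ | ⟨-, h⟩)
            · exact absurd h hvx
            · exact h.symm
          · intro h; right; exact ⟨trivial, h.symm⟩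
        rw [sum_congr rfl this, sum_ite_eq]
        simp [hxw]
      · rw [sum_eq_zero]
        · simp [hvx, hvw]
        · intro u _
          simp [Pr, hvx, hvw]
  rw [h2, h3]
  lia

omit [Fintype V] in
theorem count_le {x w : V} {f : C → V → V} (T : Finset V) (hT : ∀ t, t ∈ T ↔ Reach f x w t)
    (hel : ∀ t t', Reach f x w t → Reach f x w t' → t ≠ t' → ∀ c, f c t = t → f c t' ≠ t')
    {z : V} (hz : z = x ∨ z = w) :
    ∑ t ∈ T.erase z, (univ.filter (fun c => f c t = t)).card ≤ ∑ t ∈ T.erase z, cnt f z t := by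
  have hzT : Reach f x w z := by
    rcases hz with h | h
    · rw [h]; exact Reach.left
    · rw [h]; exact Reach.right
  rw [← card_biUnion]
  · have h1 := card_eq_sum_card_fiberwise (s := univ.filter (fun c => f c z ∈ T.erase z))
      (t := T.erase z) (f := fun c => f c z) (by intro c hc; rw [mem_coe, mem_filter] at hc; exact hc.2)
    have h2 : ∑ t ∈ T.erase z, cnt f z t = (univ.filter (fun c => f c z ∈ T.erase z)).card := by
      rw [h1]
      apply sum_congr rfl
      intro t ht
      unfold cnt
      congr 1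
      ext c
      simp only [mem_filter, mem_univ, true_and]
      constructor
      · intro h; rw [h]; exact ⟨ht, rfl⟩
      · intro h; exact h.2
    rw [h2]
    apply card_le_card
    intro c hc
    simp only [mem_biUnion, mem_filter, mem_univ, true_and] at hc ⊢
    obtain ⟨t, ht, hct⟩ := hc
    have ht' : Reach f x w t := (hT t).1 (mem_of_mem_erase ht)
    rw [mem_erase]
    exact ⟨hel t z ht' hzT (ne_of_mem_erase ht) c hct, (hT _).2 (Reach.step ht' hct hz)⟩
  · intro t ht t' ht' htt'
    rw [Function.onFun, disjoint_left]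
    intro c hc hc'
    simp only [mem_filter, mem_univ, true_and] at hc hc'
    exact hel t t' ((hT t).1 (mem_of_mem_erase ht)) ((hT t').1 (mem_of_mem_erase ht')) htt' c hc hc'

/-- The counting inequality at the centre `z`. -/
theorem star (hDF : StmDF) {m : V → V → ℕ} (hsym : ∀ u v, m u v = m v u)
    (hnc : ¬ ∃ f : C → V → V, Col m f)
    (hdeg : ∀ v, dd m v + 2 ≤ Fintype.card C) {x w : V} (hxw : x ≠ w) {f : C → V → V}
    (hf : Near m x w f) :
    ∃ T : Finset V, x ∈ T ∧ w ∈ T ∧ ∀ z, (z = x ∨ z = w) →
      (2 : ℤ) ≤ ∑ t ∈ T.erase z, ((m z t : ℤ) - (Fintype.card C - dd m t)) := by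
  classical
  have h3 : ∀ f : C → V → V, Near m x w f →
      3 ≤ (univ.filter (fun c => f c x = x)).card ∧
      3 ≤ (univ.filter (fun c => f c w = w)).card := by
    intro g hg
    have h1 := near_miss hxw hg x
    have h2 := near_miss hxw hg w
    have h3 := hdeg x
    have h4 := hdeg w
    simp only [true_or, or_true, if_true] at h1 h2
    constructor <;> lia
  have hel := hDF V C m x w hxw hnc h3 f hf
  let T : Finset V := univ.filter (fun t => Reach f x w t)
  have hT : ∀ t, t ∈ T ↔ Reach f x w t := fun t => by simp [T]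
  refine ⟨T, (hT x).2 Reach.left, (hT w).2 Reach.right, ?_⟩
  intro z hz
  have h4 := count_le T hT hel hz
  -- the other centre
  obtain ⟨o, ho, hzo, hoz⟩ : ∃ o, o ∈ T ∧ z ≠ o ∧ ∀ t, (Pr z t x w ↔ t = o) ∧
      ((t = x ∨ t = w) ↔ (t = z ∨ t = o)) := by
    rcases hz with h | h
    · subst h
      refine ⟨w, (hT w).2 Reach.right, hxw, fun t => ⟨?_, Iff.rfl⟩⟩
      simp only [Pr]
      constructor
      · rintro (⟨-, h⟩ | ⟨h, -⟩)
        · exact h
        · exact absurd h hxw
      · intro h; left; exact ⟨trivial, h⟩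
    · subst h
      refine ⟨x, (hT x).2 Reach.left, hxw.symm, fun t => ⟨?_, or_comm⟩⟩
      simp only [Pr]
      constructor
      · rintro (⟨h, -⟩ | ⟨-, h⟩)
        · exact absurd h.symm hxw
        · exact h
      · intro h; right; exact ⟨trivial, h⟩
  have hoe : o ∈ T.erase z := mem_erase.2 ⟨hzo.symm, ho⟩
  have h5 : ∀ t ∈ T.erase z, ((univ.filter (fun c => f c t = t)).card : ℤ) =
      (Fintype.card C - dd m t) + (if o = t then 1 else 0) := by
    intro t ht
    have h6 := near_miss hxw hf t
    have h7 := (hoz t).2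
    have htz := ne_of_mem_erase ht
    by_cases hto : o = t
    · have h8 : t = x ∨ t = w := h7.2 (Or.inr hto.symm)
      rw [if_pos h8] at h6
      rw [if_pos hto]
      lia
    · have h8 : ¬ (t = x ∨ t = w) := fun h => by
        rcases h7.1 h with h | h
        · exact htz h
        · exact hto h.symm
      rw [if_neg h8] at h6
      rw [if_neg hto]
      lia
  have h6 : ∀ t ∈ T.erase z, (cnt f z t : ℤ) = m z t - (if o = t then 1 else 0) := by
    intro t ht
    have h7 := hf.2 z t (ne_of_mem_erase ht).symm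
    have h8 := (hoz t).1
    by_cases hto : o = t
    · rw [if_pos (h8.2 hto.symm)] at h7
      rw [if_pos hto]; lia
    · rw [if_neg (fun h => hto (h8.1 h).symm)] at h7
      rw [if_neg hto]; lia
  have h7 : ∑ t ∈ T.erase z, ((univ.filter (fun c => f c t = t)).card : ℤ)
      ≤ ∑ t ∈ T.erase z, (cnt f z t : ℤ) := by exact_mod_cast h4
  have e1 : ∑ t ∈ T.erase z, (((Fintype.card C : ℤ) - dd m t) + (if o = t then 1 else 0))
      = ∑ t ∈ T.erase z, ((Fintype.card C : ℤ) - dd m t) + 1 := by
    rw [sum_add_distrib, sum_ite_eq, if_pos hoe]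
  have e2 : ∑ t ∈ T.erase z, ((m z t : ℤ) - (if o = t then 1 else 0))
      = ∑ t ∈ T.erase z, (m z t : ℤ) - 1 := by
    rw [sum_sub_distrib, sum_ite_eq, if_pos hoe]
  rw [sum_congr rfl h5, sum_congr rfl h6, e1, e2] at h7
  rw [sum_sub_distrib]
  linarith

/-- Decreasing a multigraph at one pair. -/
def dec (m : V → V → ℕ) (x w : V) (u v : V) : ℕ := m u v - (if Pr u v x w then 1 else 0)

omit [DecidableEq C] in
theorem exists_near {m0 m : V → V → ℕ}
    (hsym : ∀ u v, m u v = m v u) (hle : ∀ u v, m u v ≤ m0 u v)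
    (hmin : ∀ m' : V → V → ℕ, (∀ u v, m' u v = m' v u) → (∀ u v, m' u v ≤ m0 u v) →
      (¬ ∃ f : C → V → V, Col m' f) → ∑ u, ∑ v, m u v ≤ ∑ u, ∑ v, m' u v)
    {x w : V} (hm : 1 ≤ m x w) : ∃ f : C → V → V, Near m x w f := by
  have hpr : ∀ u v, Pr u v x w → 1 ≤ m u v := by
    rintro u v (⟨rfl, rfl⟩ | ⟨rfl, rfl⟩)
    · exact hm
    · rw [hsym]; exact hm
  have h1 : ∃ f : C → V → V, Col (dec m x w) f := by
    by_contra hc
    have h2 := hmin (dec m x w) (fun u v => ?_) (fun u v => ?_) hc
    · have h3 : ∑ u, ∑ v, dec m x w u v < ∑ u, ∑ v, m u v := by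
        apply sum_lt_sum
        · intro u _
          exact sum_le_sum fun v _ => Nat.sub_le _ _
        · refine ⟨x, mem_univ _, sum_lt_sum (fun v _ => Nat.sub_le _ _) ⟨w, mem_univ _, ?_⟩⟩
          have : Pr x w x w := Or.inl ⟨rfl, rfl⟩
          unfold dec
          rw [if_pos this]
          lia
      lia
    · unfold dec
      rw [hsym u v]
      congr 1
      have : Pr u v x w ↔ Pr v u x w := by
        unfold Pr; tauto
      simp only [this]
    · exact (Nat.sub_le _ _).trans (hle u v)
  obtain ⟨f, hf⟩ := h1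
  refine ⟨f, hf.1, fun u v huv => ?_⟩
  rw [hf.2 u v huv]
  unfold dec
  split_ifs with h
  · have := hpr u v h; lia
  · rfl

end ThmB

open ThmB in
theorem stmB (hDF : StmDF) : StmB := by
  classical
  intro V _ _ ι _ A _ part k N hk hN hA
  by_contra hcon
  let μ : V → V → ℕ := fun u v => (if A.Adj u v then 1 else 0) + (if part u = part v then k else 0)
  let m0 : V → V → ℕ := fun u v => if u = v then 0 else μ u v
  have hμs : ∀ u v, μ u v = μ v u := by
    intro u v
    simp only [μ, A.adj_comm u v, eq_comm (a := part u)]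
  have hm0s : ∀ u v, m0 u v = m0 v u := by
    intro u v
    simp only [m0, hμs u v, eq_comm (a := u)]
  have hm0 : ¬ ∃ f : Fin N → V → V, Col m0 f := by
    rintro ⟨f, hf⟩
    refine hcon ⟨f, hf.1, fun u v huv => ?_⟩
    rw [hf.2 u v huv]
    simp only [m0, μ, if_neg huv]
  -- a minimal multigraph that is not colourable
  obtain ⟨m, ⟨hsym, hle, hnc⟩, hmin'⟩ := WellFounded.has_min
    (measure (fun m : V → V → ℕ => ∑ u, ∑ v, m u v)).wf
    {m | (∀ u v, m u v = m v u) ∧ (∀ u v, m u v ≤ m0 u v) ∧ ¬ ∃ f : Fin N → V → V, Col m f}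
    ⟨m0, hm0s, fun _ _ => le_rfl, hm0⟩
  have hmin : ∀ m' : V → V → ℕ, (∀ u v, m' u v = m' v u) → (∀ u v, m' u v ≤ m0 u v) →
      (¬ ∃ f : Fin N → V → V, Col m' f) → ∑ u, ∑ v, m u v ≤ ∑ u, ∑ v, m' u v := by
    intro m' h1 h2 h3
    by_contra hc
    exact hmin' m' ⟨h1, h2, h3⟩ (not_le.1 hc)
  have hmd : ∀ v, m v v = 0 := by
    intro v
    have := hle v v
    simp only [m0, if_true] at this
    lia
  have hmu : ∀ u v, m u v ≤ μ u v := by
    intro u v
    refine (hle u v).trans ?_
    simp only [m0]
    split_ifs <;> simp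
  have hμ1 : ∀ u v, part u ≠ part v → μ u v ≤ 1 := by
    intro u v h
    simp only [μ, if_neg h]
    split_ifs <;> simp
  have hμk : ∀ u v, μ u v ≤ k + 1 := by
    intro u v
    simp only [μ]
    split_ifs <;> lia
  -- degrees
  have hdμ : ∀ v, dd μ v + k ≤ N := by
    intro v
    refine le_trans ?_ (hN v)
    unfold dd
    have h1 : ∑ u ∈ univ.erase v, μ v u + μ v v = ∑ u, μ v u := by
      rw [add_comm, add_sum_erase univ _ (mem_univ v)]
    have h2 : μ v v = k := by simp [μ]
    have h3 : ∑ u, μ v u = A.degree v + k * (univ.filter (fun w => part w = part v)).card := by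
      simp only [μ]
      rw [sum_add_distrib]
      congr 1
      · rw [← sum_filter, sum_const, smul_eq_mul, mul_one, ← A.card_neighborFinset_eq_degree]
        congr 1
        ext u
        simp
      · rw [← sum_filter, sum_const, smul_eq_mul, mul_comm]
        congr 2
        ext u
        simp [eq_comm]
    lia
  have hdle : ∀ v, dd m v ≤ dd μ v := fun v => sum_le_sum fun u _ => hmu v u
  have hdeg : ∀ v, dd m v + k ≤ N := fun v => (Nat.add_le_add_right (hdle v) k).trans (hdμ v)
  have hdeg2 : ∀ v, dd m v + 2 ≤ Fintype.card (Fin N) := fun v => by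
    rw [Fintype.card_fin]
    have := hdeg v
    lia
  -- some pair
  obtain ⟨x, w, hxw⟩ : ∃ x w, 1 ≤ m x w := by
    by_contra hc
    apply hnc
    refine ⟨fun _ v => v, fun _ _ => rfl, fun u v huv => ?_⟩
    have h1 : m u v = 0 := by
      by_contra h
      exact hc ⟨u, v, by lia⟩
    rw [h1]
    unfold cnt
    simp [huv]
  have hxw' : x ≠ w := by
    rintro rfl
    rw [hmd] at hxw
    lia
  -- step 1
  obtain ⟨t, w', hpart, hadj⟩ : ∃ t w', part t ≠ part w' ∧ 1 ≤ m t w' := by
    obtain ⟨f, hf⟩ := exists_near hsym hle hmin hxw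
    obtain ⟨T, -, -, hT⟩ := star hDF hsym hnc hdeg2 hxw' hf
    have h1 := hT x (Or.inl rfl)
    obtain ⟨t, ht, h2⟩ : ∃ t ∈ T.erase x, (1 : ℤ) ≤ (m x t : ℤ) - (Fintype.card (Fin N) - dd m t) := by
      by_contra hc
      have : ∑ t ∈ T.erase x, ((m x t : ℤ) - (Fintype.card (Fin N) - dd m t)) ≤ 0 := by
        apply sum_nonpos
        intro t ht
        by_contra h
        exact hc ⟨t, ht, by lia⟩
      lia
    rw [Fintype.card_fin] at h2
    have h3 := hmu x t
    have h4 := hμk x t
    have h5 := hdμ t
    have h6 := hdle t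
    have h7 : dd m t = dd μ t := by lia
    obtain ⟨w', hw1, hw2⟩ := hA t
    refine ⟨t, w', hw1.symm, ?_⟩
    have h8 : m t w' = μ t w' := by
      by_contra h9
      have h10 : m t w' < μ t w' := lt_of_le_of_ne (hmu t w') h9
      have : dd m t < dd μ t := by
        apply sum_lt_sum (fun u _ => hmu t u)
        exact ⟨w', mem_erase.2 ⟨fun h => hw1 (by rw [h]), mem_univ _⟩, h10⟩
      lia
    rw [h8]
    simp [μ, hw2]
  -- step 2
  have htw : t ≠ w' := fun h => hpart (by rw [h])
  obtain ⟨f, hf⟩ := exists_near hsym hle hmin hadj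
  obtain ⟨T, hxT, hwT, hT⟩ := star hDF hsym hnc hdeg2 htw hf
  have key : ∀ z ∈ T, (2 : ℤ) ≤ ∑ t ∈ T.erase z, ((m z t : ℤ) - (Fintype.card (Fin N) - dd m t)) →
      (3 : ℤ) + (T.filter (fun t => part t ≠ part z)).card
        ≤ (T.filter (fun t => part t = part z)).card := by
    intro z hz h
    have h1 : ∑ t ∈ T.erase z, ((m z t : ℤ) - (Fintype.card (Fin N) - dd m t)) ≤
        ∑ t ∈ T.erase z, ((if part t = part z then 1 else 0) -
          (if part t ≠ part z then 1 else 0)) := by
      apply sum_le_sum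
      intro t _
      rw [Fintype.card_fin]
      have h2 := hdeg t
      by_cases hp : part t = part z
      · rw [if_pos hp, if_neg (not_not.2 hp)]
        have h3 := hmu z t
        have h4 := hμk z t
        lia
      · rw [if_neg hp, if_pos hp]
        have h3 := hmu z t
        have h4 := hμ1 z t (fun h => hp h.symm)
        lia
    have h2 : ∑ t ∈ T, ((if part t = part z then (1 : ℤ) else 0) -
          (if part t ≠ part z then 1 else 0)) =
        1 + ∑ t ∈ T.erase z, ((if part t = part z then 1 else 0) -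
          (if part t ≠ part z then 1 else 0)) := by
      rw [← add_sum_erase T _ hz]
      simp
    rw [sum_sub_distrib, ← sum_filter, ← sum_filter, sum_const, sum_const] at h2
    simp only [nsmul_eq_mul, mul_one] at h2
    lia
  have k1 := key t hxT (hT t (Or.inl rfl))
  have k2 := key w' hwT (hT w' (Or.inr rfl))
  have k3 : (T.filter (fun s => part s = part w')).card
      ≤ (T.filter (fun s => part s ≠ part t)).card := by
    apply card_le_card
    intro s hs
    rw [mem_filter] at hs ⊢
    exact ⟨hs.1, fun h => hpart (by rw [← h, hs.2])⟩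
  have k4 : (T.filter (fun s => part s = part t)).card
      ≤ (T.filter (fun s => part s ≠ part w')).card := by
    apply card_le_card
    intro s hs
    rw [mem_filter] at hs ⊢
    exact ⟨hs.1, fun h => hpart (by rw [← h, hs.2])⟩
  lia

end Pool.Agent.R511.WP
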